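import Pool.Agent.Lib.MP_cfacaa_ag.K.Defs
import Pool.Agent.Lib.MP_cfacaa_ag.G.Val

/-! Auxiliary definitions. -/

namespace Pool.Agent.MP_cfacaa_ag.K

open MvPolynomial Pool.Agent.MP_cfacaa_ag.G

section

variable {V I E : Type} [Fintype V] [Fintype I] [Fintype E]

/-- The coordinates of the factor `a`. -/
def Bl (fac : I → E) (a : E) : Type := {k : I // fac k = a}

noncomputable instance (fac : I → E) (a : E) : Fintype (Bl fac a) :=
  @Fintype.ofFinite _ (inferInstanceAs (Finite {k : I // fac k = a}))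

noncomputable instance (fac : I → E) (a : E) : DecidableEq (Bl fac a) := Classical.decEq _

/-- The coordinates of the factor `a` are replaced. -/
noncomputable def glue {R : Type} (fac : I → E) (a : E) (x : I → R) (z : Bl fac a → R) : I → R := by
  classical exact fun k => if h : fac k = a then z ⟨k, h⟩ else x k

theorem glue_of_eq {R : Type} {fac : I → E} {a : E} (x : I → R) (z : Bl fac a → R) {k : I} (h : fac k = a) :
    glue fac a x z k = z ⟨k, h⟩ := by
  unfold glue
  rw [dif_pos h]

theorem glue_of_ne {R : Type} {fac : I → E} {a : E} (x : I → R) (z : Bl fac a → R) {k : I} (h : fac k ≠ a) :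
    glue fac a x z k = x k := by
  unfold glue
  rw [dif_neg h]

theorem glue_coe {R : Type} {fac : I → E} {a : E} (x : I → R) (z : Bl fac a → R) (k : Bl fac a) :
    glue fac a x z k.1 = z k := glue_of_eq x z k.2

theorem glue_self {R : Type} {fac : I → E} {a : E} (x : I → R) : glue fac a x (fun k => x k.1) = x := by
  funext k
  by_cases h : fac k = a
  · rw [glue_of_eq _ _ h]
  · rw [glue_of_ne _ _ h]

/-- The restriction of a polynomial to the points which agree with `x` outside of the factor `a`. -/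
noncomputable def resP (fac : I → E) (a : E) (x : I → ℂ) (P : MvPolynomial I ℂ) : MvPolynomial (Bl fac a) ℂ :=
  aeval (glue fac a (fun k => C (x k)) X) P

theorem aeval_resP (fac : I → E) (a : E) (x : I → ℂ) (P : MvPolynomial I ℂ) (z : Bl fac a → ℂ) :
    aeval z (resP fac a x P) = aeval (glue fac a x z) P := by
  unfold resP
  rw [comp_aeval_apply]
  congr 2
  funext k
  by_cases h : fac k = a
  · rw [glue_of_eq _ _ h, glue_of_eq _ _ h, aeval_X]
  · rw [glue_of_ne _ _ h, glue_of_ne _ _ h, aeval_C]
    rfl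

theorem sum_coords {R : Type} [AddCommMonoid R] (fac : I → E) (a : E) (f : I → R) :
    ∑ k ∈ coords fac a, f k = ∑ k : Bl fac a, f k.1 := by
  classical
  refine (Finset.sum_bij (fun k _ => k.1) ?_ ?_ ?_ ?_).symm
  · intro k _
    exact mem_coords.2 k.2
  · intro k _ l _ h
    exact Subtype.ext h
  · intro k hk
    exact ⟨⟨k, mem_coords.1 hk⟩, Finset.mem_univ _, rfl⟩
  · intro k _
    rfl

theorem card_Bl (fac : I → E) (a : E) : Fintype.card (Bl fac a) = (coords fac a).card := by
  rw [Fintype.card_eq_sum_ones, ← sum_coords fac a (fun _ => 1), Finset.card_eq_sum_ones]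

theorem Bl_nonempty (S : Sys V I E) (a : E) : Nonempty (Bl S.fac a) := by
  rw [← Fintype.card_pos_iff, card_Bl]
  exact lt_of_lt_of_le Nat.zero_lt_two (S.two a)

theorem card_Bl_eq (S : Sys V I E) (a : E) : Fintype.card (Bl S.fac a) = dim S.fac a + 1 := by
  rw [card_Bl]
  have := S.two a
  unfold dim
  omega

/-- the cone in terms of the coordinates of one factor -/
theorem glue_mem_cone_iff (S : Sys V I E) (a : E) {x : I → ℂ} (hx : x ∈ S.cone) (z : Bl S.fac a → ℂ) :
    glue S.fac a x z ∈ S.cone ↔ z ≠ 0 ∧ ∀ v, S.e v a ≠ 0 → aeval (glue S.fac a x z) (S.F v) = 0 := by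
  constructor
  · intro h
    refine ⟨?_, fun v _ => h.2 v⟩
    rintro rfl
    obtain ⟨k, hk, hk'⟩ := h.1 a
    rw [glue_of_eq _ _ hk] at hk'
    exact hk' rfl
  · rintro ⟨hz, h⟩
    refine ⟨fun i => ?_, fun v => ?_⟩
    · by_cases hi : i = a
      · subst hi
        obtain ⟨k, hk⟩ := Function.ne_iff.1 hz
        exact ⟨k.1, k.2, by rw [glue_coe]; exact hk⟩
      · obtain ⟨k, hk, hk'⟩ := hx.1 i
        refine ⟨k, hk, ?_⟩
        rw [glue_of_ne _ _ (by rw [hk]; exact hi)]
        exact hk'
    · by_cases hv : S.e v a = 0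
      · rw [aeval_indep (S.hF v) hv (y := x) (fun k hk => glue_of_ne _ _ hk)]
        exact hx.2 v
      · exact h v hv

open Classical in
/-- The value at `a` is replaced. -/
noncomputable def up (a : E) (n : ℕ) (e : E → ℕ) : E → ℕ := fun j => if j = a then n else e j

open Classical in
/-- The action on classes of a birational map which changes the factor `a` only. -/
noncomputable def flp (a : E) (c : E → ℕ) (d : E → ℤ) : E → ℤ := fun j => if j = a then - d a else d j + d a * c j

theorem flp_flp (a : E) (c : E → ℕ) (d : E → ℤ) : flp a c (flp a c d) = d := by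
  funext j
  unfold flp
  by_cases hj : j = a
  · subst hj
    simp
  · simp [hj]

/-- A morphism from `X` to `X'` (in the same product) which changes the coordinates of the factor `a` only: they are replaced by functions which are
locally quotients of multihomogeneous polynomials of degree `-1` in the factor `a` and `c j` in the factors `j ≠ a`. -/
structure Trans (S S' : Sys V I E) (a : E) (c : E → ℕ) where
  /-- the map -/
  map : (I → ℂ) → (I → ℂ)
  fac_eq : S'.fac = S.fac
  mem : ∀ x ∈ S.cone, map x ∈ S'.cone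
  off : ∀ x ∈ S.cone, ∀ k, S.fac k ≠ a → map x k = x k
  loc : ∀ x ∈ S.cone, ∃ (p q : E → ℕ) (D : MvPolynomial I ℂ) (φ : I → MvPolynomial I ℂ), IsMH S.fac q D ∧
    (∀ k, S.fac k = a → IsMH S.fac p (φ k)) ∧ p a + 1 = q a ∧ (∀ j, j ≠ a → p j = q j + c j) ∧ aeval x D ≠ 0 ∧
    ∀ y ∈ S.cone, aeval y D ≠ 0 → ∀ k, S.fac k = a → map y k * aeval y D = aeval y (φ k)

end

section

variable {κ : Type}

/-- The nonzero common zeros of `A`. -/
def Zs (A : Set (MvPolynomial κ ℂ)) : Set (κ → ℂ) := {z | z ≠ 0 ∧ ∀ p ∈ A, aeval z p = 0}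

/-- Locally on `Zs A` the function `s` is a quotient of homogeneous polynomials of degrees `p` and `p + k`. -/
def LocFrac (A : Set (MvPolynomial κ ℂ)) (k : ℕ) (s : (κ → ℂ) → ℂ) : Prop :=
  ∀ z ∈ Zs A, ∃ (p : ℕ) (P Q : MvPolynomial κ ℂ), P.IsHomogeneous p ∧ Q.IsHomogeneous (p + k) ∧ aeval z Q ≠ 0 ∧
    ∀ y ∈ Zs A, aeval y Q ≠ 0 → s y * aeval y Q = aeval y P

end

section

variable {κ L R : Type} [Fintype κ] [DecidableEq κ] [CommRing R]

/-- The matrix with the rows `M w`, the unit vector of `h`, and `0`. -/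
def bm (σ : κ ≃ L ⊕ Bool) (M : L → κ → R) (h : κ) : Matrix κ κ R :=
  Matrix.of fun i k => Sum.elim (fun w => M w k) (fun b => if b then 0 else if k = h then 1 else 0) (σ i)

/-- The vector whose coordinate `l` is the determinant of the matrix with the rows `M w` and the unit vectors of `h` and
`l`. -/
def rv (σ : κ ≃ L ⊕ Bool) (M : L → κ → R) (h : κ) : κ → R := fun l => (bm σ M h).adjugate l (σ.symm (Sum.inr true))

/-- the quadratic form of `A` -/
def qf (A : κ → κ → R) (x : κ → R) : R := ∑ i, ∑ j, A i j * x i * x j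

/-- its polar form -/
def pf (A : κ → κ → R) (x y : κ → R) : R := ∑ i, ∑ j, A i j * (x i * y j + y i * x j)

/-- The second point of the line spanned by `x` and `rv σ M h` on the quadric `qf A = 0`. -/
def xv (σ : κ ≃ L ⊕ Bool) (M : L → κ → R) (A : κ → κ → R) (x : κ → R) (h : κ) : κ → R :=
  fun k => qf A (rv σ M h) * x k - pf A x (rv σ M h) * rv σ M h k

end

end Pool.Agent.MP_cfacaa_ag.K
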