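import Pool.Agent.Lib.MP_cfacaa_ag.K.Base

/-! Double covers: definitions. -/

namespace Pool.Agent.MP_cfacaa_ag.K

open MvPolynomial Pool.Agent.MP_cfacaa_ag.G

section

variable {V I E : Type} [Fintype V] [Fintype I] [Fintype E]

/-- The equations other than `F u` which involve the factor `a`. -/
def Ln (S : Sys V I E) (a : E) (u : V) : Type := {w : V // w ≠ u ∧ S.e w a ≠ 0}

noncomputable instance (S : Sys V I E) (a : E) (u : V) : Fintype (Ln S a u) :=
  @Fintype.ofFinite _ (inferInstanceAs (Finite {w : V // w ≠ u ∧ S.e w a ≠ 0}))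

/-- `F u` is quadratic in the factor `a`, the other equations are linear in it or do not involve it. -/
structure Cov (S : Sys V I E) (a : E) (u : V) : Prop where
  hu : S.e u a = 2
  hw : ∀ w, w ≠ u → S.e w a ≠ 0 → S.e w a = 1

/-- The matrix of the linear equations at `x`. -/
noncomputable def Mx (S : Sys V I E) (a : E) (u : V) (x : I → ℂ) : Ln S a u → Bl S.fac a → ℂ :=
  fun w k => aeval x (pderiv k.1 (S.F w.1))

/-- The matrix of the quadratic equation at `x`. -/
noncomputable def Ax (S : Sys V I E) (a : E) (u : V) (x : I → ℂ) : Bl S.fac a → Bl S.fac a → ℂ :=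
  fun k l => 1 / 2 * aeval x (pderiv k.1 (pderiv l.1 (S.F u)))

/-- the matrix of the linear equations -/
noncomputable def MxP (S : Sys V I E) (a : E) (u : V) : Ln S a u → Bl S.fac a → MvPolynomial I ℂ :=
  fun w k => pderiv k.1 (S.F w.1)

/-- the matrix of the quadratic equation -/
noncomputable def AxP (S : Sys V I E) (a : E) (u : V) : Bl S.fac a → Bl S.fac a → MvPolynomial I ℂ :=
  fun k l => C (1 / 2) * pderiv k.1 (pderiv l.1 (S.F u))

/-- The second point of the fibre, with the coordinates `h`. -/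
noncomputable def xw (S : Sys V I E) (a : E) (u : V) (σ : Bl S.fac a ≃ Ln S a u ⊕ Bool) (x : I → ℂ) (h : Bl S.fac a) :
    Bl S.fac a → ℂ := xv σ (Mx S a u x) (Ax S a u x) (fun k => x k.1) h

open Classical in
/-- The involution of the double cover. -/
noncomputable def covMap (S : Sys V I E) (a : E) (u : V) (σ : Bl S.fac a ≃ Ln S a u ⊕ Bool) (x : I → ℂ) : I → ℂ :=
  if h : ∃ k : Bl S.fac a, x k.1 ≠ 0 then glue S.fac a x (fun k => xw S a u σ x h.choose k / x h.choose.1 ^ 2)
  else x

/-- No point of `X` is in an infinite fibre. -/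
def CovReg (S : Sys V I E) (a : E) (u : V) (σ : Bl S.fac a ≃ Ln S a u ⊕ Bool) : Prop :=
  ∀ x ∈ S.cone, ∀ h : Bl S.fac a, x h.1 ≠ 0 → xw S a u σ x h ≠ 0

end

end Pool.Agent.MP_cfacaa_ag.K
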