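import Pool.Agent.Lib.MP_cfacaa_ag.K.CBase

/-! Row cgn-CovA: double covers, the numbers. -/

namespace Pool.Agent.MP_cfacaa_ag.K

open MvPolynomial Pool.Agent.MP_cfacaa_ag.G

section

variable {V I E : Type} [Fintype V] [Fintype I] [Fintype E]

/-- The sum of the `S.e v a - 1`, `v ∈ eqs S a`, is `1`, so one of them is `1` and the others are `0`. `Ln S a u` has `dim S.fac a - 1` elements, `Bl S.fac a` has
`dim S.fac a + 1` (`card_Bl_eq`). -/
theorem exists_cover (S : Sys V I E) {a : E} (h1 : (eqs S a).card = dim S.fac a)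
    (h2 : ∑ v, S.e v a = dim S.fac a + 1) :
    ∃ u, Cov S a u ∧ Nonempty (Bl S.fac a ≃ Ln S a u ⊕ Bool) := by
  classical
  have hmem : ∀ v, v ∈ eqs S a ↔ S.e v a ≠ 0 := fun v => by simp [eqs]
  have hsum : ∑ v ∈ eqs S a, S.e v a = dim S.fac a + 1 := by
    rw [← h2]
    refine Finset.sum_subset (Finset.subset_univ _) fun v _ hv => ?_
    rw [hmem] at hv
    exact not_not.1 hv
  have hsum1 : ∑ v ∈ eqs S a, (S.e v a - 1) = 1 := by
    have h3 : ∑ v ∈ eqs S a, (S.e v a - 1) + ∑ v ∈ eqs S a, 1 = ∑ v ∈ eqs S a, S.e v a := by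
      rw [← Finset.sum_add_distrib]
      refine Finset.sum_congr rfl fun v hv => ?_
      have := (hmem v).1 hv
      omega
    rw [hsum, ← Finset.card_eq_sum_ones, h1] at h3
    omega
  obtain ⟨u, hu, hu0⟩ : ∃ u ∈ eqs S a, S.e u a - 1 ≠ 0 := by
    by_contra hc
    push Not at hc
    rw [Finset.sum_eq_zero hc] at hsum1
    exact zero_ne_one hsum1
  have hrest : S.e u a - 1 + ∑ v ∈ (eqs S a).erase u, (S.e v a - 1) = 1 :=
    (Finset.add_sum_erase _ (fun v => S.e v a - 1) hu).trans hsum1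
  have hu2 : S.e u a = 2 := by
    have := Nat.zero_le (∑ v ∈ (eqs S a).erase u, (S.e v a - 1))
    omega
  have hz : ∑ v ∈ (eqs S a).erase u, (S.e v a - 1) = 0 := by omega
  have hz' := Finset.sum_eq_zero_iff.1 hz
  refine ⟨u, ⟨hu2, fun w hw hw0 => ?_⟩, ?_⟩
  · have := hz' w (Finset.mem_erase.2 ⟨hw, (hmem w).2 hw0⟩)
    omega
  · have hL : Fintype.card (Ln S a u) = ((eqs S a).erase u).card := by
      rw [← Fintype.card_coe]
      refine Fintype.card_congr (Equiv.subtypeEquivRight fun w => ?_)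
      rw [Finset.mem_erase, hmem]
    refine ⟨Fintype.equivOfCardEq ?_⟩
    rw [card_Bl_eq, Fintype.card_sum, Fintype.card_bool, hL, Finset.card_erase_of_mem hu, h1]
    have : 0 < (eqs S a).card := Finset.card_pos.2 ⟨u, hu⟩
    omega

end

end Pool.Agent.MP_cfacaa_ag.K
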