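import Pool.Agent.Lib.MP_cfacaa_ag.K.EulA

/-! Row cgn-EulB: polynomials of degree one and two in a factor. -/

namespace Pool.Agent.MP_cfacaa_ag.K

open MvPolynomial Pool.Agent.MP_cfacaa_ag.G

section

variable {I E : Type} [Fintype I] [Fintype E] {fac : I → E} {e : E → ℕ} {P : MvPolynomial I ℂ} {a : E}

theorem isMH_pd1 (hP : IsMH fac e P) (h : e a = 1) {k : I} (hk : fac k = a) :
    IsMH fac (up a 0 e) (pderiv k P) := isMH_pd hP h hk

theorem isMH_pd2 (hP : IsMH fac e P) (h : e a = 2) {k l : I} (hk : fac k = a) (hl : fac l = a) :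
    IsMH fac (up a 0 e) (pderiv k (pderiv l P)) := by
  have h1 : IsMH fac (up a 1 e) (pderiv l P) := isMH_pd hP h hl
  have h2 : IsMH fac (up a 0 (up a 1 e)) (pderiv k (pderiv l P)) :=
    isMH_pd h1 (n := 0) (by unfold up; rw [if_pos rfl]) hk
  have h3 : up a 0 (up a 1 e) = up a 0 e := by
    funext j
    unfold up
    by_cases hj : j = a
    · rw [if_pos hj, if_pos hj]
    · rw [if_neg hj, if_neg hj, if_neg hj]
  rw [h3] at h2
  exact h2

/-- `euler` at `x`; the derivatives are independent of the factor `a` (`aeval_indep`). -/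
theorem lin_eq (hP : IsMH fac e P) (h : e a = 1) {x y : I → ℂ} (hxy : ∀ k, fac k ≠ a → x k = y k) :
    aeval x P = ∑ k : Bl fac a, aeval y (pderiv k.1 P) * x k.1 := by
  have h1 := congrArg (aeval x) (euler hP a)
  rw [h, Nat.cast_one, map_one, one_mul, map_sum] at h1
  rw [← h1]
  refine Finset.sum_congr rfl fun k _ => ?_
  rw [map_mul, aeval_X, mul_comm, aeval_indep (isMH_pd1 hP h k.2) (a := a) (by unfold up; rw [if_pos rfl]) hxy]

/-- `euler` at `x` for `P` and for its derivatives; the second derivatives are independent of the factor `a`. -/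
theorem quad_eq (hP : IsMH fac e P) (h : e a = 2) {x y : I → ℂ} (hxy : ∀ k, fac k ≠ a → x k = y k) :
    aeval x P = qf (fun k l : Bl fac a => 1 / 2 * aeval y (pderiv k.1 (pderiv l.1 P))) (fun k => x k.1) := by
  have h1 := congrArg (aeval x) (euler hP a)
  rw [h, map_sum, map_mul, aeval_C] at h1
  have h2 : ∀ l : Bl fac a, aeval x (pderiv l.1 P) =
      ∑ k : Bl fac a, aeval y (pderiv k.1 (pderiv l.1 P)) * x k.1 := by
    intro l
    have h3 : IsMH fac (up a 1 e) (pderiv l.1 P) := isMH_pd hP h l.2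
    exact lin_eq h3 (by unfold up; rw [if_pos rfl]) hxy
  have h4 : (2 : ℂ) * aeval x P =
      ∑ l : Bl fac a, x l.1 * ∑ k : Bl fac a, aeval y (pderiv k.1 (pderiv l.1 P)) * x k.1 := by
    have h5 : (algebraMap ℂ ℂ) ((2 : ℕ) : ℂ) = 2 := by norm_num
    rw [h5] at h1
    rw [← h1]
    refine Finset.sum_congr rfl fun l _ => ?_
    rw [map_mul, aeval_X, h2 l]
  have h6 : aeval x P = 1 / 2 * ((2 : ℂ) * aeval x P) := by ring
  rw [h6, h4]
  unfold qf
  rw [Finset.sum_comm, Finset.mul_sum]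
  refine Finset.sum_congr rfl fun l _ => ?_
  rw [Finset.mul_sum, Finset.mul_sum]
  refine Finset.sum_congr rfl fun k _ => ?_
  ring

end

end Pool.Agent.MP_cfacaa_ag.K
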