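import Pool.Agent.Lib.MP_cfacaa_ag.K.CBase
import Pool.Agent.Lib.MP_cfacaa_ag.K.EulB

/-! Row cgn-CovB: double covers, the equations. -/

namespace Pool.Agent.MP_cfacaa_ag.K

open MvPolynomial Pool.Agent.MP_cfacaa_ag.G

section

variable {V I E : Type} [Fintype V] [Fintype I] [Fintype E]

/-- `glue_mem_cone_iff`, `lin_eq`, `quad_eq` (with `y = x`). -/
theorem cov_mem_iff {S : Sys V I E} {a : E} {u : V} (hc : Cov S a u) {x : I → ℂ} (hx : x ∈ S.cone)
    (z : Bl S.fac a → ℂ) :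
    glue S.fac a x z ∈ S.cone ↔ z ≠ 0 ∧ (∀ w, ∑ k, Mx S a u x w k * z k = 0) ∧ qf (Ax S a u x) z = 0 := by
  rw [glue_mem_cone_iff S a hx z]
  have hz : (fun k : Bl S.fac a => glue S.fac a x z k.1) = z := funext fun k => glue_coe x z k
  have hq : aeval (glue S.fac a x z) (S.F u) = qf (Ax S a u x) z := by
    have h1 := quad_eq (S.hF u) hc.hu (x := glue S.fac a x z) (y := x) fun k hk => glue_of_ne x z hk
    rw [hz] at h1
    exact h1
  have hl : ∀ w : Ln S a u, aeval (glue S.fac a x z) (S.F w.1) = ∑ k, Mx S a u x w k * z k := by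
    intro w
    have h1 := lin_eq (S.hF w.1) (hc.hw w.1 w.2.1 w.2.2) (x := glue S.fac a x z) (y := x)
      fun k hk => glue_of_ne x z hk
    rw [h1]
    refine Finset.sum_congr rfl fun k _ => ?_
    rw [glue_coe]
    rfl
  refine and_congr_right fun _ => ⟨fun h => ⟨fun w => ?_, ?_⟩, fun h v hv => ?_⟩
  · rw [← hl w]
    exact h w.1 w.2.2
  · rw [← hq]
    exact h u (by rw [hc.hu]; exact two_ne_zero)
  · by_cases hvu : v = u
    · rw [hvu, hq]
      exact h.2
    · have h1 := hl ⟨v, hvu, hv⟩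
      rw [h.1] at h1
      exact h1

/-- `cov_mem_iff` and `glue_self`. -/
theorem cov_self {S : Sys V I E} {a : E} {u : V} (hc : Cov S a u) {x : I → ℂ} (hx : x ∈ S.cone) :
    (∀ w, ∑ k, Mx S a u x w k * x k.1 = 0) ∧ qf (Ax S a u x) (fun k => x k.1) = 0 := by
  have h : glue S.fac a x (fun k => x k.1) ∈ S.cone := by
    rw [glue_self]
    exact hx
  exact ((cov_mem_iff hc hx _).1 h).2

end

end Pool.Agent.MP_cfacaa_ag.K
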