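import Pool.Agent.Lib.MP_cfacaa_ag.K.Base

/-! Row cgn-DetMH: determinants of multihomogeneous polynomials. -/

namespace Pool.Agent.MP_cfacaa_ag.K

open MvPolynomial Pool.Agent.MP_cfacaa_ag.G

section

variable {I E κ : Type} [Fintype I] [Fintype κ] [DecidableEq κ] {fac : I → E}

/-- `Matrix.det_apply` (or `det_apply'`): a sum of products; `IsMH.sum`, `IsMH.prod`; reindex the products by the permutation. -/
theorem isMH_det (A : Matrix κ κ (MvPolynomial I ℂ)) (g : κ → E → ℕ) (h : ∀ i j, IsMH fac (g i) (A i j)) :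
    IsMH fac (fun j => ∑ i, g i j) A.det := by
  rw [Matrix.det_apply]
  refine IsMH.sum _ fun σ _ => ?_
  have h1 : IsMH fac (fun j => ∑ i, g i j) (∏ i, A (σ i) i) := by
    have h2 := IsMH.prod (fac := fac) Finset.univ (e := fun i => g (σ i)) (P := fun i => A (σ i) i)
      (fun i _ => h (σ i) i)
    have h3 : (fun j => ∑ i, g (σ i) j) = fun j => ∑ i, g i j := by
      funext j
      exact Equiv.sum_comp σ (fun i => g i j)
    rwa [h3] at h2
  rcases Int.units_eq_one_or (Equiv.Perm.sign σ) with hs | hs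
  · rw [hs, one_smul]
    exact h1
  · rw [hs, Units.neg_smul, one_smul]
    exact h1.neg

/-- `Matrix.adjugate_apply`; the degrees of the rows are `g i` for `i ≠ i₀`, and `0` for `i₀`. -/
theorem isMH_adjugate (A : Matrix κ κ (MvPolynomial I ℂ)) (g : κ → E → ℕ) (i₀ : κ)
    (h : ∀ i j, i ≠ i₀ → IsMH fac (g i) (A i j)) (l : κ) :
    IsMH fac (fun j => ∑ i ∈ Finset.univ.erase i₀, g i j) (A.adjugate l i₀) := by
  rw [Matrix.adjugate_apply]
  have h1 := isMH_det (fac := fac) (A.updateRow i₀ (Pi.single l 1)) (fun i => if i = i₀ then fun _ => 0 else g i) (by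
    intro i j
    by_cases hi : i = i₀
    · subst hi
      rw [if_pos rfl, Matrix.updateRow_self]
      by_cases hj : j = l
      · subst hj
        rw [Pi.single_eq_same]
        have h2 := isMH_C fac (1 : ℂ)
        rwa [map_one] at h2
      · rw [Pi.single_eq_of_ne hj]
        exact isMH_zero fac _
    · rw [if_neg hi, Matrix.updateRow_ne hi]
      exact h i j hi)
  have h2 : (fun j => ∑ i, (if i = i₀ then fun _ => 0 else g i : E → ℕ) j) = fun j => ∑ i ∈ Finset.univ.erase i₀, g i j := by
    funext j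
    rw [← Finset.add_sum_erase _ _ (Finset.mem_univ i₀), if_pos rfl, zero_add]
    refine Finset.sum_congr rfl fun i hi => ?_
    rw [if_neg (Finset.ne_of_mem_erase hi)]
  rwa [h2] at h1

end

end Pool.Agent.MP_cfacaa_ag.K
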