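import Pool.Agent.Lib.MP_cfacaa_ag.K.CBase
import Pool.Agent.Lib.MP_cfacaa_ag.K.EulB
import Pool.Agent.Lib.MP_cfacaa_ag.K.DetMH

/-! Row cgn-CovC: double covers, polynomials. -/

namespace Pool.Agent.MP_cfacaa_ag.K

open MvPolynomial Pool.Agent.MP_cfacaa_ag.G

section

variable {V I E : Type} [Fintype V] [Fintype I] [Fintype E]

/-- `RingHom.map_adjugate` (or `AlgHom.map_adjugate`) and `bm`. -/
theorem map_rv {κ L R R' : Type} [Fintype κ] [DecidableEq κ] [CommRing R] [CommRing R'] (f : R →+* R')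
    (σ : κ ≃ L ⊕ Bool) (M : L → κ → R) (h l : κ) : f (rv σ M h l) = rv σ (fun w k => f (M w k)) h l := by
  have h1 : f.mapMatrix (bm σ M h) = bm σ (fun w k => f (M w k)) h := by
    ext i k
    simp only [RingHom.mapMatrix_apply, Matrix.map_apply, bm, Matrix.of_apply]
    rcases σ i with w | b
    · rfl
    · cases b
      · by_cases hk : k = h
        · simp [hk]
        · simp [hk]
      · simp
  have h2 := congrFun (congrFun (RingHom.map_adjugate f (bm σ M h)) l) (σ.symm (Sum.inr true))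
  rw [h1] at h2
  exact h2

theorem map_xv {κ L R R' : Type} [Fintype κ] [DecidableEq κ] [CommRing R] [CommRing R'] (f : R →+* R')
    (σ : κ ≃ L ⊕ Bool) (M : L → κ → R) (A : κ → κ → R) (x : κ → R) (h k : κ) :
    f (xv σ M A x h k) = xv σ (fun w k => f (M w k)) (fun i j => f (A i j)) (fun k => f (x k)) h k := by
  unfold xv qf pf
  simp only [map_sub, map_mul, map_sum, map_add, map_rv]

theorem aeval_xvP {S : Sys V I E} {a : E} {u : V} (σ : Bl S.fac a ≃ Ln S a u ⊕ Bool) (y : I → ℂ) (h k : Bl S.fac a) :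
    aeval y (xv σ (MxP S a u) (AxP S a u) (fun k => X k.1) h k) =
      xv σ (Mx S a u y) (Ax S a u y) (fun k => y k.1) h k := by
  have h1 := map_xv (aeval y : MvPolynomial I ℂ →ₐ[ℂ] ℂ).toRingHom σ (MxP S a u) (AxP S a u)
    (fun k => X k.1) h k
  have h2 : (fun (w : Ln S a u) (k : Bl S.fac a) =>
      (aeval y : MvPolynomial I ℂ →ₐ[ℂ] ℂ).toRingHom (MxP S a u w k)) = Mx S a u y := rfl
  have h3 : (fun (i j : Bl S.fac a) =>
      (aeval y : MvPolynomial I ℂ →ₐ[ℂ] ℂ).toRingHom (AxP S a u i j)) = Ax S a u y := by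
    funext i j
    change aeval y (AxP S a u i j) = _
    unfold AxP Ax
    rw [map_mul, aeval_C]
    rfl
  have h4 : (fun (k : Bl S.fac a) =>
      (aeval y : MvPolynomial I ℂ →ₐ[ℂ] ℂ).toRingHom (X k.1)) = fun k => y k.1 := by
    funext k
    change aeval y (X k.1) = _
    rw [aeval_X]
  rw [h2, h3, h4] at h1
  exact h1

/-- The rows of `bm σ (MxP S a u) h` have the multidegrees `up a 0 (S.e w)` (`isMH_pd1`) and `0`; `isMH_adjugate`. -/
theorem isMH_rv {S : Sys V I E} {a : E} {u : V} (hc : Cov S a u) (σ : Bl S.fac a ≃ Ln S a u ⊕ Bool) (h l : Bl S.fac a) :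
    IsMH S.fac (fun j => ∑ w : Ln S a u, up a 0 (S.e w.1) j) (rv σ (MxP S a u) h l) := by
  have h1 := isMH_adjugate (fac := S.fac) (bm σ (MxP S a u) h)
    (fun i => Sum.elim (fun w : Ln S a u => up a 0 (S.e w.1)) (fun _ => fun _ => 0) (σ i))
    (σ.symm (Sum.inr true)) (by
      intro i k hi
      have hi' : σ i ≠ Sum.inr true := by
        intro h'
        apply hi
        rw [← h', Equiv.symm_apply_apply]
      simp only [bm, Matrix.of_apply]
      rcases hσ : σ i with w | b
      · exact isMH_pd1 (S.hF w.1) (hc.hw w.1 w.2.1 w.2.2) k.2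
      · cases b
        · by_cases hk : k = h
          · simp only [Sum.elim_inr, hk, if_true]
            have := isMH_C (K := ℂ) S.fac (1 : ℂ)
            simpa using this
          · simp only [Sum.elim_inr, hk, if_false]
            exact isMH_zero S.fac _
        · exact absurd hσ hi') l
  have h2 : (fun j => ∑ i ∈ Finset.univ.erase (σ.symm (Sum.inr true)),
      (Sum.elim (fun w : Ln S a u => up a 0 (S.e w.1)) (fun _ => fun _ => 0) (σ i) : E → ℕ) j) =
      fun j => ∑ w : Ln S a u, up a 0 (S.e w.1) j := by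
    funext j
    rw [Finset.sum_erase _ (by simp),
      Equiv.sum_comp σ (fun s => (Sum.elim (fun w : Ln S a u => up a 0 (S.e w.1))
        (fun _ => fun _ => 0) s : E → ℕ) j), Fintype.sum_sum_type]
    simp
  rw [h2] at h1
  exact h1

theorem isMH_xvP {S : Sys V I E} {a : E} {u : V} (hc : Cov S a u) (σ : Bl S.fac a ≃ Ln S a u ⊕ Bool)
    (h k : Bl S.fac a) :
    IsMH S.fac (up a 1 fun j => S.e u j + 2 * ∑ w : Ln S a u, S.e w.1 j)
      (xv σ (MxP S a u) (AxP S a u) (fun k => X k.1) h k) := by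
  classical
  have hA : ∀ i j : Bl S.fac a, IsMH S.fac (up a 0 (S.e u)) (AxP S a u i j) := by
    intro i j
    have h1 := (isMH_C (K := ℂ) S.fac (1 / 2 : ℂ)).mul (isMH_pd2 (S.hF u) hc.hu i.2 j.2)
    have h2 : (fun l => 0 + up a 0 (S.e u) l) = up a 0 (S.e u) := by
      funext l
      exact zero_add _
    rw [h2] at h1
    exact h1
  have hr := isMH_rv hc σ h
  have hx : ∀ i : Bl S.fac a, IsMH S.fac (Pi.single a 1) (X i.1 : MvPolynomial I ℂ) := by
    intro i
    have h1 := isMH_X (K := ℂ) S.fac i.1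
    rw [i.2] at h1
    exact h1
  obtain ⟨R, hR⟩ : ∃ R : E → ℕ, R = fun j => ∑ w : Ln S a u, up a 0 (S.e w.1) j := ⟨_, rfl⟩
  rw [← hR] at hr
  have key : (up a 1 fun j => S.e u j + 2 * ∑ w : Ln S a u, S.e w.1 j) =
      fun j => (up a 0 (S.e u) j + (R j + R j)) + (Pi.single a 1 : E → ℕ) j := by
    funext j
    rw [hR]
    unfold up
    by_cases hj : j = a
    · subst hj
      simp
    · simp only [if_neg hj, Pi.single_apply]
      ring
  have hq : IsMH S.fac (fun j => (up a 0 (S.e u) j + R j) + R j)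
      (qf (AxP S a u) (rv σ (MxP S a u) h)) := by
    unfold qf
    apply IsMH.sum
    intro i _
    apply IsMH.sum
    intro j _
    exact ((hA i j).mul (hr i)).mul (hr j)
  have hp : IsMH S.fac (fun j => up a 0 (S.e u) j + ((Pi.single a 1 : E → ℕ) j + R j))
      (pf (AxP S a u) (fun k => (X k.1 : MvPolynomial I ℂ)) (rv σ (MxP S a u) h)) := by
    unfold pf
    apply IsMH.sum
    intro i _
    apply IsMH.sum
    intro j _
    refine (hA i j).mul ?_
    refine ((hx i).mul (hr j)).add ?_
    have h1 := (hr i).mul (hx j)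
    have h2 : (fun l => R l + (Pi.single a 1 : E → ℕ) l) =
        fun l => (Pi.single a 1 : E → ℕ) l + R l := by
      funext l
      ring
    rw [h2] at h1
    exact h1
  rw [key]
  unfold xv
  apply IsMH.sub
  · have h1 := hq.mul (hx k)
    have h2 : (fun l => up a 0 (S.e u) l + R l + R l + (Pi.single a 1 : E → ℕ) l) =
        fun l => up a 0 (S.e u) l + (R l + R l) + (Pi.single a 1 : E → ℕ) l := by
      funext l
      ring
    rw [h2] at h1
    exact h1
  · have h1 := hp.mul (hr k)
    have h2 : (fun l => up a 0 (S.e u) l + ((Pi.single a 1 : E → ℕ) l + R l) + R l) =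
        fun l => up a 0 (S.e u) l + (R l + R l) + (Pi.single a 1 : E → ℕ) l := by
      funext l
      ring
    rw [h2] at h1
    exact h1

end

end Pool.Agent.MP_cfacaa_ag.K
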