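import Pool.Agent.Lib.MP_cfacaa_ag.K.LinB

/-! Row cgn-LinC: linear algebra, degenerate points. -/

namespace Pool.Agent.MP_cfacaa_ag.K

section

variable {κ L : Type} [Fintype κ] [DecidableEq κ]

/-- A quadratic form on a plane has a nontrivial zero (`qf_lin`). -/
theorem exists_zero_of_pair (A : κ → κ → ℂ) (z₁ z₂ : κ → ℂ) :
    ∃ α β : ℂ, (α ≠ 0 ∨ β ≠ 0) ∧ qf A (fun k => α * z₁ k + β * z₂ k) = 0 := by
  by_cases ha : qf A z₁ = 0
  · refine ⟨1, 0, Or.inl one_ne_zero, ?_⟩
    rw [qf_lin, ha]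
    ring
  · obtain ⟨s, hs⟩ := IsAlgClosed.exists_pow_nat_eq
      (discrim (qf A z₁) (pf A z₁ z₂) (qf A z₂)) (n := 2) two_pos
    obtain ⟨x, hx⟩ := exists_quadratic_eq_zero (a := qf A z₁) (b := pf A z₁ z₂) (c := qf A z₂) ha
      ⟨s, by rw [← hs, pow_two]⟩
    refine ⟨x, 1, Or.inr one_ne_zero, ?_⟩
    rw [qf_lin, ← hx]
    ring

/-- If `rv σ M h = 0` then for every `l'` the determinant of the matrix with the rows `M w`, `e h`, `l'` is `0` (it is `∑ k, l' k * rv σ M h k`), so there is a nonzero `z` with `M w z = 0`, `z h = 0`,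
`l' z = 0` (`Matrix.exists_mulVec_eq_zero_iff`). Apply this to `l' = l`: `z₁`. Apply it to `l'` = the unit vector of a coordinate `k` with `z₁ k ≠ 0`: `z₂`, with `z₂ k = 0`. If `l x = 0` take the pair
`z₁`, `x` (`x h ≠ 0 = z₁ h`). Otherwise take `z₁` and `l x • z₂ - l z₂ • x`. -/
theorem exists_pair (σ : κ ≃ L ⊕ Bool) (M : L → κ → ℂ) {x : κ → ℂ} (hx : ∀ w, ∑ k, M w k * x k = 0) {h : κ}
    (hh : x h ≠ 0) (h0 : rv σ M h = 0) (l : κ → ℂ) :
    ∃ z₁ z₂ : κ → ℂ, (∀ α β : ℂ, (fun k => α * z₁ k + β * z₂ k) = 0 → α = 0 ∧ β = 0) ∧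
      (∀ w, ∑ k, M w k * z₁ k = 0) ∧ (∀ w, ∑ k, M w k * z₂ k = 0) ∧ ∑ k, l k * z₁ k = 0 ∧ ∑ k, l k * z₂ k = 0 := by
  have key : ∀ l' : κ → ℂ, ∃ z : κ → ℂ, z ≠ 0 ∧ (∀ w, ∑ k, M w k * z k = 0) ∧ z h = 0 ∧
      ∑ k, l' k * z k = 0 := by
    intro l'
    have hdet : ((bm σ M h).updateRow (σ.symm (Sum.inr true)) l').det = 0 := by
      rw [← Matrix.cramer_transpose_apply, Matrix.cramer_eq_adjugate_mulVec,
        ← Matrix.adjugate_transpose]
      change ∑ k, (bm σ M h).adjugate k (σ.symm (Sum.inr true)) * l' k = 0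
      refine Finset.sum_eq_zero fun k _ => ?_
      have := congrFun h0 k
      unfold rv at this
      rw [this]
      exact zero_mul _
    obtain ⟨z, hz, hz'⟩ := Matrix.exists_mulVec_eq_zero_iff.2 hdet
    refine ⟨z, hz, fun w => ?_, ?_, ?_⟩
    · have h1 := congrFun hz' (σ.symm (Sum.inl w))
      have hne : σ.symm (Sum.inl w) ≠ σ.symm (Sum.inr true) := fun e => by
        simpa using σ.symm.injective e
      have h2 : ∀ k, ((bm σ M h).updateRow (σ.symm (Sum.inr true)) l') (σ.symm (Sum.inl w)) k =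
          M w k := by
        intro k
        rw [Matrix.updateRow_ne hne]
        simp [bm]
      rw [Matrix.mulVec, dotProduct] at h1
      simpa only [h2, Pi.zero_apply] using h1
    · have h1 := congrFun hz' (σ.symm (Sum.inr false))
      have hne : σ.symm (Sum.inr false) ≠ σ.symm (Sum.inr true) := fun e => by
        simpa using σ.symm.injective e
      have h2 : ∀ k, ((bm σ M h).updateRow (σ.symm (Sum.inr true)) l') (σ.symm (Sum.inr false)) k =
          if k = h then 1 else 0 := by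
        intro k
        rw [Matrix.updateRow_ne hne]
        simp [bm]
      rw [Matrix.mulVec, dotProduct] at h1
      simp only [h2] at h1
      simpa using h1
    · have h1 := congrFun hz' (σ.symm (Sum.inr true))
      rw [Matrix.mulVec, dotProduct] at h1
      simpa only [Matrix.updateRow_self, Pi.zero_apply] using h1
  obtain ⟨z₁, hz1, hM1, hh1, hl1⟩ := key l
  obtain ⟨k0, hk0⟩ := Function.ne_iff.1 hz1
  rw [Pi.zero_apply] at hk0
  obtain ⟨z₂, hz2, hM2, hh2, hl2⟩ := key (fun k => if k = k0 then 1 else 0)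
  have hk2 : z₂ k0 = 0 := by simpa using hl2
  by_cases hlx : ∑ k, l k * x k = 0
  · refine ⟨z₁, x, ?_, hM1, hx, hl1, hlx⟩
    intro α β hαβ
    have e1 := congrFun hαβ h
    have e2 := congrFun hαβ k0
    simp only [Pi.zero_apply] at e1 e2
    rw [hh1, mul_zero, zero_add] at e1
    have hβ : β = 0 := (mul_eq_zero.1 e1).resolve_right hh
    rw [hβ, zero_mul, add_zero] at e2
    exact ⟨(mul_eq_zero.1 e2).resolve_right hk0, hβ⟩
  · obtain ⟨a, ha⟩ : ∃ a, a = ∑ k, l k * x k := ⟨_, rfl⟩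
    obtain ⟨b, hb⟩ : ∃ b, b = ∑ k, l k * z₂ k := ⟨_, rfl⟩
    rw [← ha] at hlx
    refine ⟨z₁, fun k => a * z₂ k - b * x k, ?_, hM1, ?_, hl1, ?_⟩
    · intro α β hαβ
      have e1 := congrFun hαβ h
      have e2 := congrFun hαβ k0
      simp only [Pi.zero_apply] at e1 e2
      rw [hh1, hh2, mul_zero, mul_zero, zero_add, zero_sub] at e1
      rw [hk2, mul_zero, zero_sub] at e2
      have hβ : β = 0 := by
        by_contra hβ
        have hb0 : b = 0 := by
          have := (mul_eq_zero.1 e1).resolve_left hβ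
          have h3 := neg_eq_zero.1 this
          exact (mul_eq_zero.1 h3).resolve_right hh
        rw [hb0, zero_mul, neg_zero, mul_zero, add_zero] at e2
        have hα : α = 0 := (mul_eq_zero.1 e2).resolve_right hk0
        apply hz2
        funext k
        have e3 := congrFun hαβ k
        simp only [Pi.zero_apply] at e3
        rw [hα, hb0, zero_mul, zero_mul, zero_add, sub_zero] at e3
        exact (mul_eq_zero.1 ((mul_eq_zero.1 e3).resolve_left hβ)).resolve_left hlx
      rw [hβ, zero_mul, add_zero] at e2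
      exact ⟨(mul_eq_zero.1 e2).resolve_right hk0, hβ⟩
    · intro w
      have e : ∑ k, M w k * (a * z₂ k - b * x k) =
          a * ∑ k, M w k * z₂ k - b * ∑ k, M w k * x k := by
        rw [Finset.mul_sum, Finset.mul_sum, ← Finset.sum_sub_distrib]
        exact Finset.sum_congr rfl fun k _ => by ring
      rw [e, hM2, hx]
      ring
    · have e : ∑ k, l k * (a * z₂ k - b * x k) =
          a * ∑ k, l k * z₂ k - b * ∑ k, l k * x k := by
        rw [Finset.mul_sum, Finset.mul_sum, ← Finset.sum_sub_distrib]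
        exact Finset.sum_congr rfl fun k _ => by ring
      rw [e, ← ha, ← hb]
      ring

/-- If `rv σ M h = 0` use `exists_pair` and `exists_zero_of_pair`. Otherwise `r = rv σ M h ≠ 0`, `r h = 0` (`rv_self`), `x h ≠ 0`, so `x`, `r` are linearly independent and `xv = 0` means `qf A r = 0`, `pf A x r = 0`. So
`qf A` vanishes on the plane of `x` and `r` (`qf_lin`); take `l r • x - l x • r`, or `x` if `l r = l x = 0`. -/
theorem exists_of_xv_eq_zero (σ : κ ≃ L ⊕ Bool) (M : L → κ → ℂ) (A : κ → κ → ℂ) {x : κ → ℂ}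
    (hx : ∀ w, ∑ k, M w k * x k = 0) (hq : qf A x = 0) {h : κ} (hh : x h ≠ 0) (h0 : xv σ M A x h = 0) (l : κ → ℂ) :
    ∃ z : κ → ℂ, z ≠ 0 ∧ (∀ w, ∑ k, M w k * z k = 0) ∧ qf A z = 0 ∧ ∑ k, l k * z k = 0 := by
  have hsum : ∀ (f u v : κ → ℂ) (α β : ℂ), ∑ k, f k * (α * u k + β * v k) =
      α * ∑ k, f k * u k + β * ∑ k, f k * v k := by
    intro f u v α β
    rw [Finset.mul_sum, Finset.mul_sum, ← Finset.sum_add_distrib]
    exact Finset.sum_congr rfl fun k _ => by ring
  by_cases hr : rv σ M h = 0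
  · obtain ⟨z₁, z₂, hind, hM1, hM2, hl1, hl2⟩ := exists_pair σ M hx hh hr l
    obtain ⟨α, β, hαβ, hqz⟩ := exists_zero_of_pair A z₁ z₂
    refine ⟨fun k => α * z₁ k + β * z₂ k, ?_, ?_, hqz, ?_⟩
    · intro e
      obtain ⟨h1, h2⟩ := hind α β e
      exact hαβ.elim (fun h3 => h3 h1) (fun h3 => h3 h2)
    · intro w
      rw [hsum, hM1, hM2]
      ring
    · rw [hsum, hl1, hl2]
      ring
  · have hrh := rv_self σ M h
    have hk := rv_ker σ M h
    have hv : ∀ k, qf A (rv σ M h) * x k - pf A x (rv σ M h) * rv σ M h k = 0 := fun k =>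
      congrFun h0 k
    obtain ⟨r, hre⟩ : ∃ r, r = rv σ M h := ⟨_, rfl⟩
    rw [← hre] at hr hrh hk hv
    have hqr : qf A r = 0 := by
      have e := hv h
      rw [hrh, mul_zero, sub_zero] at e
      exact (mul_eq_zero.1 e).resolve_right hh
    have hpr : pf A x r = 0 := by
      obtain ⟨k, hk'⟩ := Function.ne_iff.1 hr
      have e := hv k
      rw [hqr, zero_mul, zero_sub, neg_eq_zero] at e
      exact (mul_eq_zero.1 e).resolve_right hk'
    have hplane : ∀ α β : ℂ, qf A (fun k => α * x k + β * r k) = 0 := by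
      intro α β
      rw [qf_lin, hq, hpr, hqr]
      ring
    by_cases hlr : ∑ k, l k * r k = 0
    · by_cases hlx : ∑ k, l k * x k = 0
      · exact ⟨x, fun e => hh (by rw [e]; rfl), hx, hq, hlx⟩
      · refine ⟨r, hr, hk, hqr, hlr⟩
    · refine ⟨fun k => (∑ k, l k * r k) * x k + (-(∑ k, l k * x k)) * r k, ?_, ?_, hplane _ _, ?_⟩
      · intro e
        have e1 := congrFun e h
        simp only [Pi.zero_apply] at e1
        rw [hrh, mul_zero, add_zero] at e1
        exact (mul_ne_zero hlr hh) e1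
      · intro w
        rw [hsum, hx, hk]
        ring
      · rw [hsum]
        ring

end

end Pool.Agent.MP_cfacaa_ag.K
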