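import Pool.Agent.Lib.MP_cfacaa_ag.K.CovB
import Pool.Agent.Lib.MP_cfacaa_ag.K.LinC

/-! Row cgn-CovD: double covers, the involution. -/

namespace Pool.Agent.MP_cfacaa_ag.K

open MvPolynomial Pool.Agent.MP_cfacaa_ag.G

section

variable {V I E : Type} [Fintype V] [Fintype I] [Fintype E]

theorem covMap_eq {S : Sys V I E} {a : E} {u : V} (hc : Cov S a u) (σ : Bl S.fac a ≃ Ln S a u ⊕ Bool) {x : I → ℂ}
    (hx : x ∈ S.cone) {h : Bl S.fac a} (hh : x h.1 ≠ 0) :
    covMap S a u σ x = glue S.fac a x (fun k => xw S a u σ x h k / x h.1 ^ 2) := by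
  have hex : ∃ k : Bl S.fac a, x k.1 ≠ 0 := ⟨h, hh⟩
  obtain ⟨h1, h2⟩ := cov_self hc hx
  unfold covMap
  rw [dif_pos hex]
  congr 1
  funext k
  have h3 := xv_indep σ (Mx S a u x) (Ax S a u x) (x := fun k : Bl S.fac a => x k.1) h1 h2
    (h := hex.choose) (h' := h) hex.choose_spec k
  rw [div_eq_div_iff (pow_ne_zero 2 hex.choose_spec) (pow_ne_zero 2 hh)]
  unfold xw
  linear_combination h3

theorem covMap_mem {S : Sys V I E} {a : E} {u : V} (hc : Cov S a u) (σ : Bl S.fac a ≃ Ln S a u ⊕ Bool)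
    (hr : CovReg S a u σ) {x : I → ℂ} (hx : x ∈ S.cone) : covMap S a u σ x ∈ S.cone := by
  obtain ⟨k, hk, hk'⟩ := hx.1 a
  let h : Bl S.fac a := ⟨k, hk⟩
  have hh : x h.1 ≠ 0 := hk'
  obtain ⟨h1, h2⟩ := cov_self hc hx
  rw [covMap_eq hc σ hx hh, cov_mem_iff hc hx]
  have h3 := hr x hx h hh
  have e : (fun k => xw S a u σ x h k / x h.1 ^ 2) = fun k => (x h.1 ^ 2)⁻¹ * xw S a u σ x h k := by
    funext k
    rw [div_eq_inv_mul]
  have hx2 : (x h.1 ^ 2)⁻¹ ≠ 0 := inv_ne_zero (pow_ne_zero 2 hh)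
  rw [e]
  refine ⟨fun h4 => h3 ?_, fun w => ?_, ?_⟩
  · funext k
    have := congrFun h4 k
    simpa [hx2, hh] using this
  · have h4 := xv_ker σ (Mx S a u x) (Ax S a u x) (x := fun k : Bl S.fac a => x k.1) h1 h w
    calc ∑ k, Mx S a u x w k * (xw S a u σ x h k / x h.1 ^ 2)
        = (x h.1 ^ 2)⁻¹ * ∑ k, Mx S a u x w k * xw S a u σ x h k := by
          rw [Finset.mul_sum]
          refine Finset.sum_congr rfl fun k _ => ?_
          ring
      _ = 0 := by
          unfold xw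
          rw [h4, mul_zero]
  · have h4 := qf_xv σ (Mx S a u x) (Ax S a u x) (x := fun k : Bl S.fac a => x k.1) h2 h
    have h5 : qf (Ax S a u x) (fun k => (x h.1 ^ 2)⁻¹ * xw S a u σ x h k) =
        ((x h.1 ^ 2)⁻¹) ^ 2 * qf (Ax S a u x) (xw S a u σ x h) := by
      unfold qf
      rw [Finset.mul_sum]
      refine Finset.sum_congr rfl fun i _ => ?_
      rw [Finset.mul_sum]
      refine Finset.sum_congr rfl fun j _ => ?_
      ring
    rw [h5]
    unfold xw
    rw [h4, mul_zero]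

end

end Pool.Agent.MP_cfacaa_ag.K
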