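import Pool.Agent.Lib.MP_cfacaa_ag.K.CovC
import Pool.Agent.Lib.MP_cfacaa_ag.K.CovD

/-! Row cgn-CovE: double covers, the involution as a map. -/

namespace Pool.Agent.MP_cfacaa_ag.K

open MvPolynomial Pool.Agent.MP_cfacaa_ag.G

section

variable {V I E : Type} [Fintype V] [Fintype I] [Fintype E]

/-- `map = covMap`; `mem` is `covMap_mem`; `off`: `covMap_eq`, `glue_of_ne`; `loc`: choose `h` with `x h.1 ≠ 0`, `D = X h.1 ^ 2`, `q = up a 2 0`, `p = up a 1 c`,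
`φ k = xv σ (MxP S a u) (AxP S a u) (fun k => X k.1) h ⟨k, _⟩` for the coordinates of `a`; `isMH_xvP`, `aeval_xvP`, `covMap_eq`. -/
theorem exists_covTrans {S : Sys V I E} {a : E} {u : V} (hc : Cov S a u) (σ : Bl S.fac a ≃ Ln S a u ⊕ Bool)
    (hr : CovReg S a u σ) : Nonempty (Trans S S a fun j => S.e u j + 2 * ∑ w : Ln S a u, S.e w.1 j) := by
  refine ⟨⟨covMap S a u σ, rfl, fun x hx => covMap_mem hc σ hr hx, fun x hx k hk => ?_, fun x hx => ?_⟩⟩
  · obtain ⟨k', hk', hk0⟩ := hx.1 a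
    rw [covMap_eq hc σ hx (h := ⟨k', hk'⟩) hk0, glue_of_ne _ _ hk]
  · obtain ⟨k', hk', hk0⟩ := hx.1 a
    obtain ⟨φ, hφ⟩ : ∃ φ : I → MvPolynomial I ℂ, ∀ k (hk : S.fac k = a), φ k =
        xv σ (MxP S a u) (AxP S a u) (fun k => X k.1) ⟨k', hk'⟩ ⟨k, hk⟩ :=
      ⟨glue S.fac a (fun _ => 0) fun k => xv σ (MxP S a u) (AxP S a u) (fun k => X k.1) ⟨k', hk'⟩ k,
        fun k hk => glue_of_eq _ _ hk⟩
    have hX : IsMH S.fac (up a 2 fun _ => 0) ((X k' : MvPolynomial I ℂ) ^ 2) := by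
      classical
      have h1 := (isMH_X (K := ℂ) S.fac k').pow 2
      have h2 : (fun j => 2 * (Pi.single (S.fac k') 1 : E → ℕ) j) = up a 2 fun _ => 0 := by
        funext j
        unfold up
        rw [hk']
        by_cases hj : j = a
        · subst hj
          simp
        · simp [hj]
      have h3 : IsMH S.fac (fun j => 2 * (Pi.single (S.fac k') 1 : E → ℕ) j) ((X k' : MvPolynomial I ℂ) ^ 2) := h1
      rw [h2] at h3
      exact h3
    refine ⟨up a 1 fun j => S.e u j + 2 * ∑ w : Ln S a u, S.e w.1 j, up a 2 fun _ => 0, X k' ^ 2,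
      φ, hX, ?_, ?_, ?_, ?_, ?_⟩
    · intro k hk
      rw [hφ k hk]
      exact isMH_xvP hc σ ⟨k', hk'⟩ ⟨k, hk⟩
    · simp [up]
    · intro j hj
      simp [up, hj]
    · rw [map_pow, aeval_X]
      exact pow_ne_zero 2 hk0
    · intro y hy hy0 k hk
      rw [map_pow, aeval_X] at hy0 ⊢
      have hy1 : y k' ≠ 0 := fun h0 => hy0 (by rw [h0]; exact zero_pow two_ne_zero)
      rw [covMap_eq hc σ hy (h := ⟨k', hk'⟩) hy1, glue_of_eq _ _ hk, hφ k hk]
      exact (div_mul_cancel₀ _ hy0).trans (aeval_xvP σ y ⟨k', hk'⟩ ⟨k, hk⟩).symm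

end

end Pool.Agent.MP_cfacaa_ag.K
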