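import Pool.Agent.Lib.MP_cfacaa_ag.K.RegD

/-! Row cgn-NN: globally generated classes are nonnegative on infinite fibres. -/

namespace Pool.Agent.MP_cfacaa_ag.K

open MvPolynomial Pool.Agent.MP_cfacaa_ag.G

section

variable {V I E : Type} [Fintype V] [Fintype I] [Fintype E]

/-- `IsMH.subst` with one factor (`E' = Unit`), or directly: all monomials. -/
theorem isHomogeneous_resP {fac : I → E} {e : E → ℕ} {P : MvPolynomial I ℂ} (hP : IsMH fac e P) (a : E) (x : I → ℂ) :
    (resP fac a x P).IsHomogeneous (e a) := by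
  classical
  unfold resP
  rw [aeval_def, eval₂_eq']
  refine IsHomogeneous.sum _ _ _ fun m hm => ?_
  have h1 : (∏ i, glue fac a (fun k => C (x k)) X i ^ m i : MvPolynomial (Bl fac a) ℂ).IsHomogeneous (e a) := by
    have h2 : e a = ∑ i, (if fac i = a then 1 else 0) * m i := by
      rw [← hP m hm a, coords, Finset.sum_filter]
      refine Finset.sum_congr rfl fun i _ => ?_
      by_cases h : fac i = a
      · rw [if_pos h, if_pos h, one_mul]
      · rw [if_neg h, if_neg h, zero_mul]
    rw [h2]
    refine IsHomogeneous.prod _ _ _ fun i _ => ?_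
    refine IsHomogeneous.pow ?_ _
    by_cases h : fac i = a
    · rw [if_pos h, glue_of_eq _ _ h]
      exact isHomogeneous_X _ _
    · rw [if_neg h, glue_of_ne _ _ h]
      exact isHomogeneous_C _ _
  have h3 := (isHomogeneous_C (Bl fac a) (coeff m P)).mul h1
  rw [zero_add] at h3
  exact h3

/-- If every hyperplane of the factor `a` meets the fibre through `x`, then globally generated classes have nonnegative degree in `a`. Suppose `δ a = - k`, `k ≥ 1`. Let `A` be the set of the
polynomials `resP S.fac a x (S.F v)`; `z ∈ Zs A` if and only if `glue S.fac a x z ∈ S.cone` (`aeval_resP`, `glue_mem_cone_iff`; if `S.e v a = 0` the value is that at `x`, by `aeval_indep`). The functions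
`z ↦ s i (glue S.fac a x z)` satisfy `LocFrac A k` (`resP` of the fractions, `isHomogeneous_resP`). `exists_hyperplane` gives `l`; apply `H` to `k ↦ l k` (extended by `0`);
`sum_coords`, `glue_self`. -/
theorem nonneg_of_hyperplanes (S : Sys V I E) (a : E) {x : I → ℂ} (hx : x ∈ S.cone)
    (H : ∀ l : Bl S.fac a → ℂ, ∃ z : Bl S.fac a → ℂ, glue S.fac a x z ∈ S.cone ∧ ∑ k, l k * z k = 0)
    {δ : E → ℤ} (h : GloballyGenerated S δ) : 0 ≤ δ a := by
  by_contra hneg
  obtain ⟨k, hk1, hk⟩ : ∃ k : ℕ, 1 ≤ k ∧ δ a = -(k : ℤ) :=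
    ⟨(-δ a).toNat, by omega, by omega⟩
  obtain ⟨n, s, hs, h0⟩ := h
  have hZ : ∀ z, z ∈ Zs (Set.range fun v => resP S.fac a x (S.F v)) ↔ glue S.fac a x z ∈ S.cone := by
    intro z
    rw [glue_mem_cone_iff S a hx]
    constructor
    · rintro ⟨hz, h⟩
      refine ⟨hz, fun v _ => ?_⟩
      rw [← aeval_resP]
      exact h _ ⟨v, rfl⟩
    · intro hz
      have hc := (glue_mem_cone_iff S a hx z).2 hz
      refine ⟨hz.1, ?_⟩
      rintro _ ⟨v, rfl⟩
      simp only
      rw [aeval_resP]
      exact hc.2 v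
  obtain ⟨l, hl⟩ := exists_hyperplane (Set.range fun v => resP S.fac a x (S.F v))
    (by
      rintro _ ⟨v, rfl⟩
      exact ⟨_, isHomogeneous_resP (S.hF v) a x⟩) hk1 (fun i z => s i (glue S.fac a x z))
    (by
      intro i z hz
      obtain ⟨p, q, P, Q, hP, hQ, hpq, hQz, hloc⟩ := hs i _ ((hZ z).1 hz)
      refine ⟨p a, resP S.fac a x P, resP S.fac a x Q, isHomogeneous_resP hP a x, ?_, ?_, ?_⟩
      · have h1 : p a + k = q a := by
          have := hpq a
          omega
        rw [h1]
        exact isHomogeneous_resP hQ a x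
      · rw [aeval_resP]
        exact hQz
      · intro y hy hQy
        rw [aeval_resP] at hQy
        rw [aeval_resP, aeval_resP]
        exact hloc _ ((hZ y).1 hy) hQy)
    (fun z hz => h0 _ ((hZ z).1 hz))
  obtain ⟨z, hz, hz0⟩ := H l
  exact hl z ((hZ z).2 hz) hz0

end

end Pool.Agent.MP_cfacaa_ag.K
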