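import Pool.Agent.Lib.MP_cfacaa_ag.K.CovA
import Pool.Agent.Lib.MP_cfacaa_ag.K.CovE
import Pool.Agent.Lib.MP_cfacaa_ag.K.NN

/-! Row cgn-CovF: double covers, the dichotomy. -/

namespace Pool.Agent.MP_cfacaa_ag.K

open MvPolynomial Pool.Agent.MP_cfacaa_ag.G

section

variable {V I E : Type} [Fintype V] [Fintype I] [Fintype E]

/-- `nonneg_of_hyperplanes`, `exists_of_xv_eq_zero`, `cov_mem_iff`, `cov_self`. -/
theorem nonneg_of_not_covReg {S : Sys V I E} {a : E} {u : V} (hc : Cov S a u) (σ : Bl S.fac a ≃ Ln S a u ⊕ Bool)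
    (hr : ¬ CovReg S a u σ) {δ : E → ℤ} (h : GloballyGenerated S δ) : 0 ≤ δ a := by
  unfold CovReg at hr
  push Not at hr
  obtain ⟨x, hx, h', hh, h0⟩ := hr
  obtain ⟨h1, h2⟩ := cov_self hc hx
  refine nonneg_of_hyperplanes S a hx (fun l => ?_) h
  obtain ⟨z, hz, hz1, hz2, hz3⟩ := exists_of_xv_eq_zero σ (Mx S a u x) (Ax S a u x) h1 h2 hh h0 l
  exact ⟨z, (cov_mem_iff hc hx z).2 ⟨hz, hz1, hz2⟩, hz3⟩

/-- `exists_cover`, `nonneg_of_not_covReg`, `exists_covTrans`. -/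
theorem cover_dichotomy (S : Sys V I E) {a : E} (h1 : (eqs S a).card = dim S.fac a)
    (h2 : ∑ v, S.e v a = dim S.fac a + 1) :
    (∀ δ, GloballyGenerated S δ → 0 ≤ δ a) ∨
      ∃ c : E → ℕ, (∀ v j, S.e v a ≠ 0 → S.e v j ≠ 0 → 1 ≤ c j) ∧ Nonempty (Trans S S a c) := by
  obtain ⟨u, hc, ⟨σ⟩⟩ := exists_cover S h1 h2
  by_cases hr : CovReg S a u σ
  · refine Or.inr ⟨_, ?_, exists_covTrans hc σ hr⟩
    intro v j hv hj
    by_cases hvu : v = u
    · subst hvu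
      exact le_trans (Nat.one_le_iff_ne_zero.2 hj) (Nat.le_add_right _ _)
    · let w₀ : Ln S a u := ⟨v, hvu, hv⟩
      have h3 : S.e w₀.1 j ≤ ∑ w : Ln S a u, S.e w.1 j :=
        Finset.single_le_sum (f := fun w : Ln S a u => S.e w.1 j) (fun _ _ => Nat.zero_le _)
          (Finset.mem_univ w₀)
      have h5 : S.e w₀.1 j = S.e v j := rfl
      have h4 := Nat.one_le_iff_ne_zero.2 hj
      show 1 ≤ S.e u j + 2 * ∑ w : Ln S a u, S.e w.1 j
      omega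
  · exact Or.inl fun δ h => nonneg_of_not_covReg hc σ hr h

end

end Pool.Agent.MP_cfacaa_ag.K
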