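import Pool.Agent.Lib.MP_cfacaa_ag.K.Base

/-! Square systems of linear equations: definitions. -/

namespace Pool.Agent.MP_cfacaa_ag.K

open MvPolynomial Pool.Agent.MP_cfacaa_ag.G

section

variable {V I E : Type} [Fintype V] [Fintype I] [Fintype E]

/-- The equations which involve the factor `a`. -/
def Rw (S : Sys V I E) (a : E) : Type := {v : V // S.e v a ≠ 0}

noncomputable instance (S : Sys V I E) (a : E) : Fintype (Rw S a) :=
  @Fintype.ofFinite _ (inferInstanceAs (Finite {v : V // S.e v a ≠ 0}))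

/-- The equations which involve the factor `a` are linear in it and have the same multidegree. -/
structure Dt (S : Sys V I E) (a : E) : Prop where
  one : ∀ v, S.e v a ≠ 0 → S.e v a = 1
  same : ∀ v w, S.e v a ≠ 0 → S.e w a ≠ 0 → S.e v = S.e w

/-- The system with other polynomials of the same multidegrees. -/
def wF (S : Sys V I E) (F : V → MvPolynomial I ℂ) (hF : ∀ v, IsMH S.fac (S.e v) (F v)) : Sys V I E :=
  { S with F := F, hF := hF }

/-- `F₂` is the transposed system of `F₁` with respect to the factor `a`. -/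
structure Tr (S : Sys V I E) (a : E) (τ : Bl S.fac a ≃ Rw S a) (F₁ F₂ : V → MvPolynomial I ℂ) : Prop where
  tr : ∀ i k : Bl S.fac a, pderiv k.1 (F₂ (τ i).1) = pderiv i.1 (F₁ (τ k).1)
  off : ∀ v, S.e v a = 0 → F₂ v = F₁ v

/-- The matrix of the linear equations at `x`. -/
noncomputable def Mt {S : Sys V I E} {a : E} (τ : Bl S.fac a ≃ Rw S a) (F : V → MvPolynomial I ℂ) (x : I → ℂ) :
    Matrix (Bl S.fac a) (Bl S.fac a) ℂ :=
  Matrix.of fun i k => aeval x (pderiv k.1 (F (τ i).1))

open Classical in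
/-- The map to the transposed system. -/
noncomputable def detMap {S : Sys V I E} {a : E} (τ : Bl S.fac a ≃ Rw S a) (F : V → MvPolynomial I ℂ) (x : I → ℂ) :
    I → ℂ :=
  if h : ∃ k : Bl S.fac a, x k.1 ≠ 0 then glue S.fac a x (fun k => (Mt τ F x).adjugate h.choose k / x h.choose.1)
  else x

/-- No point of `X` is in an infinite fibre. -/
def DetReg {S : Sys V I E} {a : E} (τ : Bl S.fac a ≃ Rw S a) {F : V → MvPolynomial I ℂ}
    (hF : ∀ v, IsMH S.fac (S.e v) (F v)) : Prop :=
  ∀ x ∈ (wF S F hF).cone, (Mt τ F x).adjugate ≠ 0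

end

end Pool.Agent.MP_cfacaa_ag.K
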