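import Pool.Agent.Lib.MP_cfacaa_ag.G.Defs

/-!
Nef classes on complete intersections in products of projective spaces; the hypotheses on the configuration.
-/

namespace Pool.Agent.MP_cfacaa_ag.K

open Pool.Agent.MP_cfacaa_ag.G

section

variable {V I E : Type} [Fintype V] [Fintype I] [Fintype E] (S : Sys V I E)

/-- The class `∑ d i • H i` is nef on `X` (Kleiman's criterion): for every `m ≥ 1` a positive multiple of
`m • ∑ d i • H i + ∑ H i` is globally generated. (`∑ H i` is ample, so these classes are ample if
`∑ d i • H i` is nef; conversely, if they have globally generated multiples, their degrees on every curve are nonnegative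
for all `m`, so the degree of `∑ d i • H i` is nonnegative on every curve.) -/
def Nef (d : E → ℤ) : Prop :=
  ∀ m : ℕ, 1 ≤ m → ∃ N : ℕ, 1 ≤ N ∧ GloballyGenerated S fun i => (N : ℤ) * ((m : ℤ) * d i + 1)

open Classical in
/-- The equations which involve the factor `i`. -/
noncomputable def eqs (i : E) : Finset V := Finset.univ.filter fun v => S.e v i ≠ 0

/-- The projection of `X` which forgets the factor `i` has an infinite fibre: for some point `x` of `X` the points of `X` with
the same coordinates outside of the factor `i` are not finitely many (no finite set `T` of vectors contains representatives of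
their coordinates in the factor `i`). -/
def InfFibre (i : E) : Prop :=
  ∃ x ∈ S.cone, ∀ T : Finset (I → ℂ), ∃ y ∈ S.cone, (∀ k, S.fac k ≠ i → y k = x k) ∧
    ∀ t ∈ T, ∀ c : ℂ, ∃ k, S.fac k = i ∧ y k ≠ c * t k

/-- The factor `i` is free: for every system of equations `S'` with the same factors and the same multidegrees, and with
common zeros, the projection which forgets the factor `i` has an infinite fibre. (Lemmas: it is enough that the number of the equations
which involve `i` is smaller than the dimension of `i`, `free_of_few`, or that the numerical condition for lines in the
direction `i` is satisfied, `free_of_lines`.) -/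
def Free (i : E) : Prop :=
  ∀ S' : Sys V I E, S'.fac = S.fac → S'.e = S.e → (∃ x, x ∈ S'.cone) → InfFibre S' i

/-- Two factors are joined if some equation involves both. -/
def Joined (e : V → E → ℕ) (i j : E) : Prop := ∃ v, e v i ≠ 0 ∧ e v j ≠ 0

open Classical in
/-- The connected part of the configuration which contains the factor `i`: the factors which are connected with `i` by a
chain of joined factors. -/
noncomputable def part (e : V → E → ℕ) (i : E) : Finset E :=
  Finset.univ.filter fun j => Relation.ReflTransGen (Joined e) i j

open Classical in
/-- The equations which involve a factor of `C`. -/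
noncomputable def eqsOf (e : V → E → ℕ) (C : Finset E) : Finset V :=
  Finset.univ.filter fun v => ∃ j ∈ C, e v j ≠ 0

/-- The hypotheses on the configuration.
* `cy`: the Calabi–Yau condition, the sum of the degrees in the factor `i` is `dim i + 1`;
* `rows`: if the number of the equations which involve the factor `i` is `dim i + 1`, then `i` is free or these equations
have the same multidegree;
* `parts`: every connected part of the configuration contains a free factor, or its dimension (the sum of the dimensions
of its factors minus the number of its equations) is at least three and each of its equations has total degree at least two and involves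
factors of total dimension at least three (so it is not a linear equation in one factor and not the equation of a conic in a projective plane). -/
structure Tame : Prop where
  cy : ∀ i, ∑ v, S.e v i = dim S.fac i + 1
  rows : ∀ i, (eqs S i).card = dim S.fac i + 1 → Free S i ∨ ∀ v w, S.e v i ≠ 0 → S.e w i ≠ 0 → S.e v = S.e w
  parts : ∀ i, (∃ j ∈ part S.e i, Free S j) ∨
    ((eqsOf S.e (part S.e i)).card + 3 ≤ ∑ j ∈ part S.e i, dim S.fac j ∧
      ∀ v ∈ eqsOf S.e (part S.e i), 2 ≤ ∑ j, S.e v j ∧ 3 ≤ ∑ j ∈ factors S.e {v}, dim S.fac j)

end

end Pool.Agent.MP_cfacaa_ag.K
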