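import Mathlib

/-! Row cgn-Desc: the descent. -/

namespace Pool.Agent.MP_cfacaa_ag.K

private def Desc_b {E : Type} [Fintype E] (lev : E → ℕ) (d : E → ℤ) (l : ℕ) : ℕ :=
  ∑ i ∈ Finset.univ.filter (fun i => lev i = l), (d i + 1).toNat

private theorem Desc_le {E : Type} [Fintype E] (lev : E → ℕ) (d d' : E → ℤ) (l : ℕ)
    (h : ∀ i, lev i = l → d' i ≤ d i) : Desc_b lev d' l ≤ Desc_b lev d l := by
  unfold Desc_b
  refine Finset.sum_le_sum fun i hi => ?_
  have := h i (Finset.mem_filter.mp hi).2
  omega

private theorem Desc_lt {E : Type} [Fintype E] (lev : E → ℕ) (d d' : E → ℤ) (l : ℕ)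
    (h : ∀ i, lev i = l → d' i ≤ d i) (j : E) (hj : lev j = l) (hj0 : 0 ≤ d j) (hjlt : d' j < d j) :
    Desc_b lev d' l < Desc_b lev d l := by
  unfold Desc_b
  refine Finset.sum_lt_sum (fun i hi => ?_) ⟨j, Finset.mem_filter.mpr ⟨Finset.mem_univ j, hj⟩, ?_⟩
  · have := h i (Finset.mem_filter.mp hi).2
    omega
  · omega

/-- Well-founded induction. Let `K` be a number larger than all levels, and for `d : E → ℤ` let `B d : Fin K → ℕ` be
`B d l = ∑ i with lev i = l, (d i + 1).toNat`; use that the lexicographic order on `Fin K → ℕ` is well-founded (`Pi.Lex`, or induction on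
`K`). If all `d i ≥ 0` use `h0`. Otherwise choose `i` with `d i < 0` and `lev i` minimal, and `S'`, `d'`, `j` from `h1`; `0 ≤ d j` because
`lev j < lev i`; so `B d' l ≤ B d l` for all `l < lev i`, and `B d' (lev j) < B d (lev j)`. -/
theorem descent {Θ E : Type} [Fintype E] (lev : E → ℕ) (N G : Θ → (E → ℤ) → Prop)
    (h0 : ∀ S d, N S d → (∀ i, 0 ≤ d i) → G S d)
    (h1 : ∀ S d i, N S d → d i < 0 → G S d ∨ ∃ S' d', N S' d' ∧ (G S' d' → G S d) ∧ (∀ j, j ≠ i → d' j ≤ d j) ∧
      ∃ j, lev j < lev i ∧ d' j < d j) :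
    ∀ S d, N S d → G S d := by
  classical
  let K : ℕ := (Finset.univ.sup lev) + 1
  have hK : ∀ i, lev i < K := fun i => Nat.lt_succ_of_le (Finset.le_sup (f := lev) (Finset.mem_univ i))
  let B : (E → ℤ) → Lex (Fin K → ℕ) := fun d => toLex (fun l => Desc_b lev d l)
  have hwf : WellFounded (InvImage (· < ·) B) := InvImage.wf B wellFounded_lt
  have main : ∀ d : E → ℤ, ∀ S, N S d → G S d := by
    intro d
    induction d using hwf.induction with
    | _ d ih =>
      intro S hN
      by_cases hall : ∀ i, 0 ≤ d i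
      · exact h0 S d hN hall
      · push Not at hall
        obtain ⟨i1, hi1⟩ := hall
        obtain ⟨i, hi, hmin⟩ := Finset.exists_min_image (Finset.univ.filter (fun i => d i < 0)) lev
          ⟨i1, Finset.mem_filter.mpr ⟨Finset.mem_univ i1, hi1⟩⟩
        have hdi : d i < 0 := (Finset.mem_filter.mp hi).2
        rcases h1 S d i hN hdi with hG | ⟨S', d', hN', himp, hle, j, hj, hjlt⟩
        · exact hG
        · refine himp (ih d' ?_ S' hN')
          have hdj : 0 ≤ d j := by
            by_contra hneg
            have := hmin j (Finset.mem_filter.mpr ⟨Finset.mem_univ j, not_le.mp hneg⟩)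
            omega
          have hle' : ∀ l, l < lev i → ∀ k, lev k = l → d' k ≤ d k := by
            intro l hl k hk
            refine hle k ?_
            rintro rfl
            omega
          have hex : ∃ l, Desc_b lev d' l ≠ Desc_b lev d l :=
            ⟨lev j, (Desc_lt lev d d' (lev j) (hle' _ hj) j rfl hdj hjlt).ne⟩
          have hfle : Nat.find hex ≤ lev j :=
            Nat.find_min' hex (Desc_lt lev d d' (lev j) (hle' _ hj) j rfl hdj hjlt).ne
          have hfK : Nat.find hex < K := lt_of_le_of_lt hfle (hK j)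
          refine ⟨⟨Nat.find hex, hfK⟩, fun m hm => ?_, ?_⟩
          · have hm' : (m : ℕ) < Nat.find hex := hm
            have := Nat.find_min hex hm'
            exact not_not.mp this
          · exact lt_of_le_of_ne (Desc_le lev d d' _ (hle' _ (lt_of_le_of_lt hfle hj))) (Nat.find_spec hex)
  exact fun S d hN => main d S hN

end Pool.Agent.MP_cfacaa_ag.K
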