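import Pool.Agent.Lib.MP_cfacaa_ag.K.DBase
import Pool.Agent.Lib.MP_cfacaa_ag.K.EulB

/-! Row cgn-DetA: the transposed system. -/

namespace Pool.Agent.MP_cfacaa_ag.K

open MvPolynomial Pool.Agent.MP_cfacaa_ag.G

section

variable {V I E : Type} [Fintype V] [Fintype I] [Fintype E]

/-- `S.cy` and `card_Bl`: the sum of the `S.e v a ≥ 1`, `v ∈ eqs S a`, is at most their number. -/
theorem exists_det (S : Sys V I E) {a : E} (h1 : (eqs S a).card = dim S.fac a + 1) :
    (∀ v, S.e v a ≠ 0 → S.e v a = 1) ∧ Nonempty (Bl S.fac a ≃ Rw S a) := by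
  classical
  have h2 : (coords S.fac a).card = dim S.fac a + 1 := by
    rw [← card_Bl, card_Bl_eq]
  have hmem : ∀ v, v ∈ eqs S a ↔ S.e v a ≠ 0 := fun v => by
    unfold eqs
    rw [Finset.mem_filter]
    exact ⟨fun h => h.2, fun h => ⟨Finset.mem_univ _, h⟩⟩
  constructor
  · intro v hv
    by_contra hne
    have h3 : ∑ w ∈ eqs S a, 1 < ∑ w ∈ eqs S a, S.e w a := by
      refine Finset.sum_lt_sum (fun w hw => ?_) ⟨v, (hmem v).2 hv, ?_⟩
      · exact Nat.one_le_iff_ne_zero.2 ((hmem w).1 hw)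
      · omega
    have h4 : ∑ w ∈ eqs S a, S.e w a ≤ ∑ w, S.e w a :=
      Finset.sum_le_sum_of_subset (Finset.subset_univ _)
    have h5 := S.cy a
    rw [← Finset.card_eq_sum_ones] at h3
    omega
  · refine ⟨Fintype.equivOfCardEq ?_⟩
    rw [card_Bl_eq, ← h1]
    have h6 : Fintype.card (Rw S a) = Fintype.card {v : V // v ∈ eqs S a} :=
      Fintype.card_congr (Equiv.subtypeEquivRight fun v => (hmem v).symm)
    rw [h6, Fintype.card_coe]

omit [Fintype E] in
private theorem DetA_pd0 {fac : I → E} {e : E → ℕ} {P : MvPolynomial I ℂ} {a : E} (hP : IsMH fac e P) (h : e a = 0)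
    {k : I} (hk : fac k = a) : pderiv k P = 0 := by
  have h0 : pderiv k P = ∑ m ∈ P.support, pderiv k (monomial m (P.coeff m)) := by
    conv_lhs => rw [P.as_sum, map_sum]
  rw [h0]
  refine Finset.sum_eq_zero fun m hm => ?_
  have h1 := hP m hm a
  rw [h] at h1
  have h2 : m k = 0 := (Finset.sum_eq_zero_iff.1 h1) k (mem_coords.2 hk)
  rw [pderiv_monomial, h2, Nat.cast_zero, mul_zero, map_zero]

/-- `F₂ v = ∑ k, X k * pderiv i (S.F (τ k))` if `v = τ i`, and `F₂ v = S.F v` if `S.e v a = 0`. The second derivatives in the factor `a` vanish (the first derivatives have degree `0` in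
`a`). -/
theorem exists_transposed {S : Sys V I E} {a : E} (hd : Dt S a) (τ : Bl S.fac a ≃ Rw S a) :
    ∃ F₂ : V → MvPolynomial I ℂ, (∀ v, IsMH S.fac (S.e v) (F₂ v)) ∧ Tr S a τ S.F F₂ := by
  classical
  have hpd : ∀ (i : Bl S.fac a) (k : Bl S.fac a) (v : V), S.e v a ≠ 0 →
      IsMH S.fac (up a 0 (S.e v)) (pderiv i.1 (S.F (τ k).1)) := fun i k v hv => by
    have h1 := isMH_pd1 (S.hF (τ k).1) (hd.one _ (τ k).2) i.2
    rwa [hd.same _ v (τ k).2 hv] at h1
  refine ⟨fun v => if h : S.e v a ≠ 0 then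
    ∑ k : Bl S.fac a, X k.1 * pderiv (τ.symm ⟨v, h⟩).1 (S.F (τ k).1) else S.F v, fun v => ?_, ⟨fun i k => ?_, fun v hv => ?_⟩⟩
  · by_cases h : S.e v a ≠ 0
    · simp only [dif_pos h]
      refine IsMH.sum _ fun k _ => ?_
      have h1 := (isMH_X (K := ℂ) S.fac k.1).mul (hpd (τ.symm ⟨v, h⟩) k v h)
      have h2 : (fun j => (Pi.single (S.fac k.1) 1 : E → ℕ) j + up a 0 (S.e v) j) = S.e v := by
        funext j
        unfold up
        by_cases hj : j = a
        · subst hj
          rw [if_pos rfl, k.2, Pi.single_eq_same, hd.one v h]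
        · rw [if_neg hj, k.2, Pi.single_eq_of_ne hj, zero_add]
      rwa [h2] at h1
    · simp only [dif_neg h]
      exact S.hF v
  · have h := (τ i).2
    simp only [dif_pos h]
    have h1 : τ.symm ⟨(τ i).1, h⟩ = i := τ.symm_apply_apply i
    rw [h1, map_sum, Finset.sum_eq_single k]
    · rw [Derivation.leibniz, pderiv_X_self, DetA_pd0 (hpd i k (τ i).1 h) (by simp [up]) k.2]
      simp
    · intro l _ hl
      rw [Derivation.leibniz, DetA_pd0 (hpd i l (τ i).1 h) (by simp [up]) k.2,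
        pderiv_X_of_ne (fun hkl => hl (Subtype.ext hkl))]
      simp
    · intro hk
      exact absurd (Finset.mem_univ _) hk
  · simp only [dif_neg (not_not.2 hv)]

end

end Pool.Agent.MP_cfacaa_ag.K
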