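import Pool.Agent.Lib.MP_cfacaa_ag.K.DBase
import Pool.Agent.Lib.MP_cfacaa_ag.K.EulB

/-! Row cgn-DetB: square systems, the equations. -/

namespace Pool.Agent.MP_cfacaa_ag.K

open MvPolynomial Pool.Agent.MP_cfacaa_ag.G

section

variable {V I E : Type} [Fintype V] [Fintype I] [Fintype E]

theorem Tr.symm {S : Sys V I E} {a : E} {τ : Bl S.fac a ≃ Rw S a} {F₁ F₂ : V → MvPolynomial I ℂ} (h : Tr S a τ F₁ F₂) :
    Tr S a τ F₂ F₁ := ⟨fun i k => (h.tr k i).symm, fun v hv => (h.off v hv).symm⟩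

/-- the derivatives have degree `0` in the factor `a`: `isMH_pd1`, `aeval_indep` -/
theorem Mt_glue {S : Sys V I E} {a : E} (hd : Dt S a) (τ : Bl S.fac a ≃ Rw S a) {F : V → MvPolynomial I ℂ}
    (hF : ∀ v, IsMH S.fac (S.e v) (F v)) (x : I → ℂ) (z : Bl S.fac a → ℂ) : Mt τ F (glue S.fac a x z) = Mt τ F x := by
  ext i k
  have h0 : up a 0 (S.e (τ i).1) a = 0 := by
    unfold up
    rw [if_pos rfl]
  exact aeval_indep (isMH_pd1 (hF (τ i).1) (hd.one _ (τ i).2) k.2) h0 (fun k hk => glue_of_ne _ _ hk)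

theorem Mt_transpose {S : Sys V I E} {a : E} {τ : Bl S.fac a ≃ Rw S a} {F₁ F₂ : V → MvPolynomial I ℂ}
    (h : Tr S a τ F₁ F₂) (x : I → ℂ) : Mt τ F₂ x = (Mt τ F₁ x).transpose := by
  ext i k
  exact congrArg (aeval x) (h.tr i k)

open Matrix in
private theorem DetB_val {S : Sys V I E} {a : E} (hd : Dt S a) (τ : Bl S.fac a ≃ Rw S a) {F : V → MvPolynomial I ℂ}
    (hF : ∀ v, IsMH S.fac (S.e v) (F v)) (x : I → ℂ) (z : Bl S.fac a → ℂ) (i : Bl S.fac a) :
    aeval (glue S.fac a x z) (F (τ i).1) = (Mt τ F x *ᵥ z) i := by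
  rw [lin_eq (hF (τ i).1) (hd.one _ (τ i).2) (y := x) (fun k hk => glue_of_ne _ _ hk)]
  exact Finset.sum_congr rfl fun k _ => by rw [glue_coe]; rfl

open Matrix in
/-- `glue_mem_cone_iff` for `wF S F hF`, `lin_eq`. -/
theorem det_mem_iff {S : Sys V I E} {a : E} (hd : Dt S a) (τ : Bl S.fac a ≃ Rw S a) {F : V → MvPolynomial I ℂ}
    (hF : ∀ v, IsMH S.fac (S.e v) (F v)) {x : I → ℂ} (hx : x ∈ (wF S F hF).cone) (z : Bl S.fac a → ℂ) :
    glue S.fac a x z ∈ (wF S F hF).cone ↔ z ≠ 0 ∧ Mt τ F x *ᵥ z = 0 := by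
  refine (glue_mem_cone_iff (wF S F hF) a hx z).trans (and_congr_right fun _ => ?_)
  constructor
  · intro h
    funext i
    rw [← DetB_val hd τ hF x z i]
    exact h (τ i).1 (τ i).2
  · intro h v hv
    let r : Rw S a := ⟨v, hv⟩
    have h1 := DetB_val hd τ hF x z (τ.symm r)
    rw [τ.apply_symm_apply r, h] at h1
    exact h1

open Matrix in
/-- If `x` is in the cone of `F₁`, a vector in the kernel of the transposed matrix gives a point of the cone of `F₂`. (The equations which do not involve `a` are the same.) -/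
theorem glue_mem_transposed {S : Sys V I E} {a : E} (hd : Dt S a) (τ : Bl S.fac a ≃ Rw S a) {F₁ F₂ : V → MvPolynomial I ℂ}
    (hF₁ : ∀ v, IsMH S.fac (S.e v) (F₁ v)) (hF₂ : ∀ v, IsMH S.fac (S.e v) (F₂ v)) (h : Tr S a τ F₁ F₂) {x : I → ℂ}
    (hx : x ∈ (wF S F₁ hF₁).cone) {z : Bl S.fac a → ℂ} (hz : z ≠ 0) (hz' : (Mt τ F₁ x)ᵀ *ᵥ z = 0) :
    glue S.fac a x z ∈ (wF S F₂ hF₂).cone := by
  refine ⟨fun i => ?_, fun v => ?_⟩
  · by_cases hi : i = a
    · subst hi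
      obtain ⟨k, hk⟩ := Function.ne_iff.1 hz
      exact ⟨k.1, k.2, by rw [glue_coe]; exact hk⟩
    · obtain ⟨k, hk, hk'⟩ := hx.1 i
      refine ⟨k, hk, ?_⟩
      have hk2 : S.fac k = i := hk
      rw [glue_of_ne _ _ (by rw [hk2]; exact hi)]
      exact hk'
  · show aeval (glue S.fac a x z) (F₂ v) = 0
    by_cases hv : S.e v a = 0
    · rw [h.off v hv, aeval_indep (hF₁ v) hv (y := x) (fun k hk => glue_of_ne _ _ hk)]
      exact hx.2 v
    · let r : Rw S a := ⟨v, hv⟩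
      have h1 := DetB_val hd τ hF₂ x z (τ.symm r)
      rw [τ.apply_symm_apply r, Mt_transpose h, hz'] at h1
      exact h1

end

end Pool.Agent.MP_cfacaa_ag.K
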