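import Pool.Agent.Lib.MP_cfacaa_ag.K.Base

/-! Row cgn-LinD: linear algebra, the adjugate of a singular matrix. -/

namespace Pool.Agent.MP_cfacaa_ag.K

open Matrix

section

variable {κ : Type} [Fintype κ] [DecidableEq κ]

/-- `Matrix.adjugate_apply`: the difference of the two sides is the determinant of the matrix `A` with the row `i` replaced by `x l' • e l - x l • e l'`, which maps
`x` to `0` (`Matrix.exists_mulVec_eq_zero_iff`; trivial if `x = 0`). -/
theorem adj_wedge (A : Matrix κ κ ℂ) {x : κ → ℂ} (hx : A *ᵥ x = 0) (i l l' : κ) :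
    A.adjugate l i * x l' = A.adjugate l' i * x l := by
  have key : ∀ w : κ → ℂ, w ⬝ᵥ x = 0 → x ≠ 0 → (A.updateRow i w).det = 0 := by
    intro w hw h0
    refine Matrix.exists_mulVec_eq_zero_iff.1 ⟨x, h0, ?_⟩
    funext j
    by_cases hj : j = i
    · subst hj
      rw [Matrix.mulVec, Matrix.updateRow_self]
      exact hw
    · rw [Matrix.mulVec, Matrix.updateRow_ne hj]
      exact congrFun hx j
  by_cases h0 : x = 0
  · rw [h0]
    simp
  have h1 := key (x l' • Pi.single l 1 + (-x l) • Pi.single l' 1) ?_ h0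
  · rw [Matrix.det_updateRow_add, Matrix.det_updateRow_smul, Matrix.det_updateRow_smul] at h1
    rw [Matrix.adjugate_apply, Matrix.adjugate_apply]
    linear_combination h1
  · rw [add_dotProduct, smul_dotProduct, smul_dotProduct, single_one_dotProduct, single_one_dotProduct, smul_eq_mul,
      smul_eq_mul]
    ring

/-- `det A = 0` (`Matrix.mul_adjugate`), so `c ᵥ* A = 0` for some `c ≠ 0` (`Matrix.exists_vecMul_eq_zero_iff`); choose `i` with `c i ≠ 0`. The determinant of `A` with the row `i` replaced by `l` is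
`∑ k, l k * A.adjugate k i = 0`, so there is a nonzero `z` with `A j z = 0` for `j ≠ i` and `l z = 0`; then also `A i z = 0`. -/
theorem exists_of_adj_eq_zero [Nonempty κ] (A : Matrix κ κ ℂ) (h0 : A.adjugate = 0) (l : κ → ℂ) :
    ∃ z : κ → ℂ, z ≠ 0 ∧ A *ᵥ z = 0 ∧ ∑ k, l k * z k = 0 := by
  have hdet : A.det = 0 := by
    have h1 := Matrix.mul_adjugate A
    rw [h0, Matrix.mul_zero] at h1
    obtain ⟨k⟩ := ‹Nonempty κ›
    have h2 := congrFun (congrFun h1 k) k
    rw [Matrix.zero_apply, Matrix.smul_apply, Matrix.one_apply_eq, smul_eq_mul, mul_one] at h2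
    exact h2.symm
  obtain ⟨c, hc, hcA⟩ := Matrix.exists_vecMul_eq_zero_iff.2 hdet
  obtain ⟨i, hi⟩ := Function.ne_iff.1 hc
  have hB : (A.updateRow i l).det = 0 := by
    rw [← Matrix.cramer_transpose_apply, Matrix.cramer_eq_adjugate_mulVec, ← Matrix.adjugate_transpose, h0,
      Matrix.transpose_zero, Matrix.zero_mulVec]
    rfl
  obtain ⟨z, hz, hBz⟩ := Matrix.exists_mulVec_eq_zero_iff.2 hB
  have hj : ∀ j, j ≠ i → (A *ᵥ z) j = 0 := by
    intro j hj
    have h1 := congrFun hBz j
    rw [Matrix.mulVec, Matrix.updateRow_ne hj] at h1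
    exact h1
  have hl : ∑ k, l k * z k = 0 := by
    have h1 := congrFun hBz i
    rw [Matrix.mulVec, Matrix.updateRow_self] at h1
    exact h1
  refine ⟨z, hz, ?_, hl⟩
  funext j
  by_cases hji : j = i
  · have h1 : c ⬝ᵥ (A *ᵥ z) = 0 := by
      rw [Matrix.dotProduct_mulVec, hcA, zero_dotProduct]
    rw [dotProduct, Finset.sum_eq_single i] at h1
    · rw [hji]
      exact (mul_eq_zero.1 h1).resolve_left hi
    · intro k _ hk
      rw [hj k hk, mul_zero]
    · intro h2
      exact absurd (Finset.mem_univ i) h2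
  · exact hj j hji

end

end Pool.Agent.MP_cfacaa_ag.K
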