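import Pool.Agent.Lib.MP_cfacaa_ag.K.DetB
import Pool.Agent.Lib.MP_cfacaa_ag.K.LinD

/-! Row cgn-DetC: the map to the transposed system. -/

namespace Pool.Agent.MP_cfacaa_ag.K

open MvPolynomial Matrix Pool.Agent.MP_cfacaa_ag.G

section

variable {V I E : Type} [Fintype V] [Fintype I] [Fintype E]

/-- `det_mem_iff` and `glue_self` -/
theorem det_self {S : Sys V I E} {a : E} (hd : Dt S a) (τ : Bl S.fac a ≃ Rw S a) {F : V → MvPolynomial I ℂ}
    (hF : ∀ v, IsMH S.fac (S.e v) (F v)) {x : I → ℂ} (hx : x ∈ (wF S F hF).cone) :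
    Mt τ F x *ᵥ (fun k => x k.1) = 0 := by
  have h := det_mem_iff hd τ hF hx (fun k => x k.1)
  rw [glue_self] at h
  exact (h.1 hx).2

omit [Fintype V] [Fintype E] in
private theorem DetC_row {fac : I → E} {a : E} (A : Matrix (Bl fac a) (Bl fac a) ℂ) {x : I → ℂ}
    (hA : A *ᵥ (fun k => x k.1) = 0) {h h' : Bl fac a} (hh : x h.1 ≠ 0) (hh' : x h'.1 ≠ 0) (k : Bl fac a) :
    A.adjugate h' k / x h'.1 = A.adjugate h k / x h.1 := by
  rw [div_eq_div_iff hh' hh]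
  exact adj_wedge A hA k h' h

/-- `adj_wedge`, `det_self` -/
theorem detMap_eq {S : Sys V I E} {a : E} (hd : Dt S a) (τ : Bl S.fac a ≃ Rw S a) {F : V → MvPolynomial I ℂ}
    (hF : ∀ v, IsMH S.fac (S.e v) (F v)) {x : I → ℂ} (hx : x ∈ (wF S F hF).cone) {h : Bl S.fac a} (hh : x h.1 ≠ 0) :
    detMap τ F x = glue S.fac a x (fun k => (Mt τ F x).adjugate h k / x h.1) := by
  have he : ∃ k : Bl S.fac a, x k.1 ≠ 0 := ⟨h, hh⟩
  unfold detMap
  rw [dif_pos he]
  congr 1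
  funext k
  exact DetC_row _ (det_self hd τ hF hx) hh he.choose_spec k

/-- `glue_mem_transposed`. The determinant is `0` (`det_self`), so the row `h` of the adjugate is in the kernel of the transposed matrix (`adjugate_mul`). If the row `h` is zero, the
adjugate is zero by `adj_wedge`. -/
theorem detMap_mem {S : Sys V I E} {a : E} (hd : Dt S a) (τ : Bl S.fac a ≃ Rw S a) {F₁ F₂ : V → MvPolynomial I ℂ}
    (hF₁ : ∀ v, IsMH S.fac (S.e v) (F₁ v)) (hF₂ : ∀ v, IsMH S.fac (S.e v) (F₂ v)) (h : Tr S a τ F₁ F₂)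
    (hr : DetReg τ hF₁) {x : I → ℂ} (hx : x ∈ (wF S F₁ hF₁).cone) : detMap τ F₁ x ∈ (wF S F₂ hF₂).cone := by
  have hself := det_self hd τ hF₁ hx
  obtain ⟨l, hne⟩ : ∃ l : Bl S.fac a, x l.1 ≠ 0 := by
    obtain ⟨k, hk, hk'⟩ := hx.1 a
    exact ⟨⟨k, hk⟩, hk'⟩
  rw [detMap_eq hd τ hF₁ hx hne]
  have hdet : (Mt τ F₁ x).det = 0 := by
    refine Matrix.exists_mulVec_eq_zero_iff.1 ⟨fun k => x k.1, ?_, hself⟩
    intro h0
    exact hne (congrFun h0 l)
  refine glue_mem_transposed hd τ hF₁ hF₂ h hx ?_ ?_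
  · intro h0
    refine hr x hx ?_
    ext i j
    have h1 : (Mt τ F₁ x).adjugate l j / x l.1 = 0 := congrFun h0 j
    have h2 : (Mt τ F₁ x).adjugate l j = 0 := by
      rcases div_eq_zero_iff.1 h1 with h3 | h3
      · exact h3
      · exact absurd h3 hne
    have h3 := adj_wedge (Mt τ F₁ x) hself j i l
    rw [h2, zero_mul] at h3
    rcases mul_eq_zero.1 h3 with h4 | h4
    · exact h4
    · exact absurd h4 hne
  · funext j
    have h1 := congrFun (congrFun (Matrix.adjugate_mul (Mt τ F₁ x)) l) j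
    rw [hdet, zero_smul, Matrix.mul_apply] at h1
    have h2 : ∑ k, (Mt τ F₁ x) k j * ((Mt τ F₁ x).adjugate l k / x l.1) =
        (∑ k, (Mt τ F₁ x).adjugate l k * (Mt τ F₁ x) k j) / x l.1 := by
      rw [Finset.sum_div]
      refine Finset.sum_congr rfl fun k _ => ?_
      ring
    have h3 : ((Mt τ F₁ x)ᵀ *ᵥ fun k => (Mt τ F₁ x).adjugate l k / x l.1) j =
        ∑ k, (Mt τ F₁ x) k j * ((Mt τ F₁ x).adjugate l k / x l.1) := rfl
    rw [h3, h2, h1, Matrix.zero_apply, zero_div]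
    rfl

/-- If `x` is in the cone of `F₂` and the adjugate of `Mt τ F₂ x` is zero, so is that of `Mt τ F₁ x` (`Mt_transpose`, `adjugate_transpose`); a vector `z ≠ 0` in the kernel of `Mt τ F₁ x` (`exists_of_adj_eq_zero`) gives
a point of the cone of `F₁` (`glue_mem_transposed` for `h.symm`), with the same matrix (`Mt_glue`). -/
theorem detReg_transposed {S : Sys V I E} {a : E} (hd : Dt S a) (τ : Bl S.fac a ≃ Rw S a) {F₁ F₂ : V → MvPolynomial I ℂ}
    (hF₁ : ∀ v, IsMH S.fac (S.e v) (F₁ v)) (hF₂ : ∀ v, IsMH S.fac (S.e v) (F₂ v)) (h : Tr S a τ F₁ F₂)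
    (hr : DetReg τ hF₁) : DetReg τ hF₂ := by
  intro x hx h0
  have : Nonempty (Bl S.fac a) := Bl_nonempty S a
  have h1 : (Mt τ F₁ x).adjugate = 0 := by
    rw [Mt_transpose h, ← Matrix.adjugate_transpose] at h0
    rw [← Matrix.transpose_transpose (Mt τ F₁ x).adjugate, h0, Matrix.transpose_zero]
  obtain ⟨z, hz, hz', -⟩ := exists_of_adj_eq_zero (Mt τ F₁ x) h1 0
  have h2 : (Mt τ F₂ x)ᵀ *ᵥ z = 0 := by
    rw [Mt_transpose h, Matrix.transpose_transpose]
    exact hz'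
  have h3 := glue_mem_transposed hd τ hF₂ hF₁ h.symm hx hz h2
  refine hr _ h3 ?_
  rw [Mt_glue hd τ hF₁]
  exact h1

end

end Pool.Agent.MP_cfacaa_ag.K
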