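import Pool.Agent.Lib.MP_cfacaa_ag.K.DetC
import Pool.Agent.Lib.MP_cfacaa_ag.K.DetMH

/-! Row cgn-DetD: the map to the transposed system, degrees. -/

namespace Pool.Agent.MP_cfacaa_ag.K

open MvPolynomial Matrix Pool.Agent.MP_cfacaa_ag.G

section

variable {V I E : Type} [Fintype V] [Fintype I] [Fintype E]

/-- `isMH_adjugate` for the matrix of the polynomials `pderiv k (F (τ i))` (rows of multidegree `up a 0 (S.e v₀)`, by `isMH_pd1`, `hd.same`), `card_Bl_eq`. -/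
theorem isMH_adjP {S : Sys V I E} {a : E} (hd : Dt S a) (τ : Bl S.fac a ≃ Rw S a) {F : V → MvPolynomial I ℂ}
    (hF : ∀ v, IsMH S.fac (S.e v) (F v)) {v₀ : V} (hv₀ : S.e v₀ a ≠ 0) (h k : Bl S.fac a) :
    IsMH S.fac (up a 0 fun j => dim S.fac a * S.e v₀ j)
      ((Matrix.of fun i k : Bl S.fac a => pderiv k.1 (F (τ i).1)).adjugate h k) := by
  have h1 := isMH_adjugate (fac := S.fac) (Matrix.of fun i k : Bl S.fac a => pderiv k.1 (F (τ i).1))
    (fun _ => up a 0 (S.e v₀)) k (by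
      intro i j _
      have h2 := isMH_pd1 (hF (τ i).1) (hd.one (τ i).1 (τ i).2) j.2
      rw [hd.same (τ i).1 v₀ (τ i).2 hv₀] at h2
      exact h2) h
  have h2 : (fun j => ∑ _i ∈ Finset.univ.erase k, up a 0 (S.e v₀) j) = up a 0 fun j => dim S.fac a * S.e v₀ j := by
    funext j
    rw [Finset.sum_const, Finset.card_erase_of_mem (Finset.mem_univ k), Finset.card_univ, card_Bl_eq,
      Nat.add_sub_cancel, smul_eq_mul]
    unfold up
    by_cases hj : j = a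
    · rw [if_pos hj, if_pos hj, mul_zero]
    · rw [if_neg hj, if_neg hj]
  rw [h2] at h1
  exact h1

theorem DetD_val {S : Sys V I E} {a : E} (τ : Bl S.fac a ≃ Rw S a) (F : V → MvPolynomial I ℂ) (y : I → ℂ)
    (h k : Bl S.fac a) :
    aeval y ((Matrix.of fun i k : Bl S.fac a => pderiv k.1 (F (τ i).1)).adjugate h k) = (Mt τ F y).adjugate h k := by
  have h1 := congrFun (congrFun (RingHom.map_adjugate (aeval y : MvPolynomial I ℂ →ₐ[ℂ] ℂ).toRingHom
    (Matrix.of fun i k : Bl S.fac a => pderiv k.1 (F (τ i).1))) h) k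
  exact h1

/-- `map = detMap τ F₁`; `mem` is `detMap_mem`; `off`: `detMap_eq`, `glue_of_ne`; `loc`: choose `h` with `x h.1 ≠ 0`, `D = X h.1`, `q = up a 1 0`, `p = up a 0 c`, `φ k` the entry `(h, ⟨k, _⟩)` of the adjugate of the matrix of
polynomials (`isMH_adjP`; its value is the entry of `(Mt τ F₁ y).adjugate` by `RingHom.map_adjugate`); `detMap_eq`. -/
theorem exists_detTrans {S : Sys V I E} {a : E} (hd : Dt S a) (τ : Bl S.fac a ≃ Rw S a) {F₁ F₂ : V → MvPolynomial I ℂ}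
    (hF₁ : ∀ v, IsMH S.fac (S.e v) (F₁ v)) (hF₂ : ∀ v, IsMH S.fac (S.e v) (F₂ v)) (h : Tr S a τ F₁ F₂)
    (hr : DetReg τ hF₁) {v₀ : V} (hv₀ : S.e v₀ a ≠ 0) :
    Nonempty (Trans (wF S F₁ hF₁) (wF S F₂ hF₂) a fun j => dim S.fac a * S.e v₀ j) := by
  refine ⟨⟨detMap τ F₁, rfl, fun x hx => detMap_mem hd τ hF₁ hF₂ h hr hx, fun x hx k hk => ?_, fun x hx => ?_⟩⟩
  · obtain ⟨k', hk', hk0⟩ := hx.1 a
    rw [detMap_eq hd τ hF₁ hx (h := ⟨k', hk'⟩) hk0]
    exact glue_of_ne _ _ hk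
  · obtain ⟨k', hk', hk0⟩ := hx.1 a
    obtain ⟨φ, hφ⟩ : ∃ φ : I → MvPolynomial I ℂ, ∀ k (hk : S.fac k = a), φ k =
        (Matrix.of fun i k : Bl S.fac a => pderiv k.1 (F₁ (τ i).1)).adjugate ⟨k', hk'⟩ ⟨k, hk⟩ :=
      ⟨glue S.fac a (fun _ => 0) fun k =>
          (Matrix.of fun i k : Bl S.fac a => pderiv k.1 (F₁ (τ i).1)).adjugate ⟨k', hk'⟩ k,
        fun k hk => glue_of_eq _ _ hk⟩
    have hX : IsMH S.fac (up a 1 fun _ => 0) (X k' : MvPolynomial I ℂ) := by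
      classical
      have h1 := isMH_X (K := ℂ) S.fac k'
      have h2 : (Pi.single (S.fac k') 1 : E → ℕ) = up a 1 fun _ => 0 := by
        have hk'' : S.fac k' = a := hk'
        funext j
        unfold up
        rw [hk'']
        by_cases hj : j = a
        · subst hj
          simp
        · simp [hj]
      rw [h2] at h1
      exact h1
    refine ⟨up a 0 fun j => dim S.fac a * S.e v₀ j, up a 1 fun _ => 0, X k', φ, hX, ?_, ?_, ?_, ?_, ?_⟩
    · intro k hk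
      rw [hφ k hk]
      exact isMH_adjP hd τ hF₁ hv₀ ⟨k', hk'⟩ ⟨k, hk⟩
    · simp [up]
    · intro j hj
      simp [up, hj]
    · rw [aeval_X]
      exact hk0
    · intro y hy hy0 k hk
      rw [aeval_X] at hy0 ⊢
      have hk1 : S.fac k = a := hk
      rw [detMap_eq hd τ hF₁ hy (h := ⟨k', hk'⟩) hy0, glue_of_eq _ _ hk1, hφ k hk1]
      exact (div_mul_cancel₀ _ hy0).trans (DetD_val τ F₁ y ⟨k', hk'⟩ ⟨k, hk⟩).symm

end

end Pool.Agent.MP_cfacaa_ag.K
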