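import Pool.Agent.Lib.MP_cfacaa_ag.K.DetA
import Pool.Agent.Lib.MP_cfacaa_ag.K.DetD
import Pool.Agent.Lib.MP_cfacaa_ag.K.NN

/-! Row cgn-DetE: square systems, the dichotomy. -/

namespace Pool.Agent.MP_cfacaa_ag.K

open MvPolynomial Matrix Pool.Agent.MP_cfacaa_ag.G

section

variable {V I E : Type} [Fintype V] [Fintype I] [Fintype E]

/-- `nonneg_of_hyperplanes`, `exists_of_adj_eq_zero`, `det_mem_iff` (`S = wF S S.F S.hF` by `rfl`) -/
theorem nonneg_of_not_detReg {S : Sys V I E} {a : E} (hd : Dt S a) (τ : Bl S.fac a ≃ Rw S a)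
    (hr : ¬ DetReg τ S.hF) {δ : E → ℤ} (h : GloballyGenerated S δ) : 0 ≤ δ a := by
  obtain ⟨x, hr1⟩ := not_forall.1 hr
  obtain ⟨hx, hr2⟩ := Classical.not_imp.1 hr1
  have h0 : (Mt τ S.F x).adjugate = 0 := not_not.1 hr2
  have hne : Nonempty (Bl S.fac a) := Bl_nonempty S a
  have hx' : x ∈ S.cone := hx
  refine nonneg_of_hyperplanes S a hx' (fun l => ?_) h
  obtain ⟨z, hz, hMz, hlz⟩ := exists_of_adj_eq_zero (Mt τ S.F x) h0 l
  exact ⟨z, (det_mem_iff hd τ S.hF hx z).2 ⟨hz, hMz⟩, hlz⟩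

/-- `exists_det`, `exists_transposed`, `nonneg_of_not_detReg`, `exists_detTrans` for `F₁ = S.F` and for the transposed system (`detReg_transposed`, `Tr.symm`). `v₀ = τ k` for any `k`; `c j = dim S.fac a * S.e v₀ j ≥ 1` if
`S.e v j ≠ 0` because `S.e v = S.e v₀`. -/
theorem det_dichotomy (S : Sys V I E) {a : E} (h1 : (eqs S a).card = dim S.fac a + 1)
    (h2 : ∀ v w, S.e v a ≠ 0 → S.e w a ≠ 0 → S.e v = S.e w) :
    (∀ δ, GloballyGenerated S δ → 0 ≤ δ a) ∨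
      ∃ (S' : Sys V I E) (c : E → ℕ), S'.fac = S.fac ∧ S'.e = S.e ∧ (∀ v j, S.e v a ≠ 0 → S.e v j ≠ 0 → 1 ≤ c j) ∧
        Nonempty (Trans S S' a c) ∧ Nonempty (Trans S' S a c) := by
  obtain ⟨hone, ⟨τ⟩⟩ := exists_det S h1
  have hd : Dt S a := ⟨hone, h2⟩
  by_cases hr : DetReg τ S.hF
  · right
    obtain ⟨F₂, hF₂, hTr⟩ := exists_transposed hd τ
    obtain ⟨k⟩ := Bl_nonempty S a
    have hv₀ : S.e (τ k).1 a ≠ 0 := (τ k).2
    have hdim : 1 ≤ dim S.fac a := by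
      have := S.two a
      unfold dim
      omega
    refine ⟨wF S F₂ hF₂, fun j => dim S.fac a * S.e (τ k).1 j, rfl, rfl, fun v j hv hj => ?_, ?_, ?_⟩
    · rw [h2 (τ k).1 v hv₀ hv]
      exact Nat.mul_pos hdim (Nat.pos_of_ne_zero hj)
    · exact exists_detTrans hd τ S.hF hF₂ hTr hr hv₀
    · exact exists_detTrans hd τ hF₂ S.hF hTr.symm (detReg_transposed hd τ S.hF hF₂ hTr hr) hv₀
  · left
    intro δ h
    exact nonneg_of_not_detReg hd τ hr h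

end

end Pool.Agent.MP_cfacaa_ag.K
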