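import Pool.Agent.Lib.MP_cfacaa_ag.K.Base
import Pool.Agent.Lib.MP_cfacaa_ag.G.Sub

/-! Row cgn-EulA: Euler formula for a factor. -/

namespace Pool.Agent.MP_cfacaa_ag.K

open MvPolynomial Pool.Agent.MP_cfacaa_ag.G

section

variable {I E : Type} [Fintype I] [Fintype E] {fac : I → E} {e : E → ℕ} {P : MvPolynomial I ℂ} {a : E}

/-- `IsMH.pderiv`. -/
theorem isMH_pd (hP : IsMH fac e P) {n : ℕ} (h : e a = n + 1) {k : I} (hk : fac k = a) :
    IsMH fac (up a n e) (pderiv k P) := by
  classical
  refine IsMH.pderiv hP k (fun i hi => ?_) ?_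
  · rw [hk] at hi
    unfold up
    exact if_neg hi
  · rw [hk, h]
    unfold up
    rw [if_pos rfl]

omit [Fintype E] in
/-- Euler's formula, for every value of the factor `a`. (Adapt `Sing_euler` in `Pool/Agent/Lib/MP_cfacaa_ag/G/Sing.lean`.) -/
theorem euler (hP : IsMH fac e P) (a : E) : ∑ k : Bl fac a, X k.1 * pderiv k.1 P = C (e a : ℂ) * P := by
  classical
  have hw : P.IsWeightedHomogeneous (fun k => if fac k = a then 1 else 0) (e a) := by
    intro m hm
    rw [Finsupp.weight_apply, Finsupp.sum_fintype _ _ (fun i => by simp)]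
    rw [← hP m (mem_support_iff.2 hm) a]
    unfold coords
    rw [Finset.sum_filter]
    refine Finset.sum_congr (by ext; simp) fun k _ => ?_
    by_cases hk : fac k = a
    · rw [if_pos hk, if_pos hk, smul_eq_mul, mul_one]
    · rw [if_neg hk, if_neg hk, smul_zero]
  have h1 := hw.sum_weight_X_mul_pderiv
  have h2 : C (e a : ℂ) * P = e a • P := by
    rw [nsmul_eq_mul]
    simp
  rw [h2, ← h1]
  have h3 : ∀ k : I, (if fac k = a then 1 else 0 : ℕ) • (X k * pderiv k P) =
      if fac k = a then X k * pderiv k P else 0 := by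
    intro k
    by_cases hk : fac k = a
    · rw [if_pos hk, if_pos hk, one_smul]
    · rw [if_neg hk, if_neg hk, zero_smul]
  rw [Finset.sum_congr rfl fun k _ => h3 k, ← Finset.sum_filter]
  refine Finset.sum_bij (fun (k : Bl fac a) _ => k.1) (fun k _ => ?_) (fun k _ l _ hkl => Subtype.ext hkl)
    (fun k hk => ?_) (fun k _ => rfl)
  · exact Finset.mem_filter.2 ⟨Finset.mem_univ _, k.2⟩
  · exact ⟨⟨k, (Finset.mem_filter.1 hk).2⟩, Finset.mem_univ _, rfl⟩

end

end Pool.Agent.MP_cfacaa_ag.K
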