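import Pool.Agent.Lib.MP_cfacaa_ag.K.NN
import Pool.Agent.Lib.MP_cfacaa_ag.G.Plain

/-! Row cgn-Few: few equations. -/

namespace Pool.Agent.MP_cfacaa_ag.K

open MvPolynomial Pool.Agent.MP_cfacaa_ag.G

section

variable {V I E : Type} [Fintype V] [Fintype I] [Fintype E]

/-- `n` forms of positive degrees in `n + 1` variables have a nontrivial common zero: `exists_zero_of_match` with one factor (`E' = Unit`) for the variables
`κ`, `f` any injection of `Q` to the complement of one element of `κ`. -/
theorem exists_common_zero {Q κ : Type} [Fintype Q] [Fintype κ] (hc : Fintype.card Q < Fintype.card κ)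
    (G : Q → MvPolynomial κ ℂ) (e : Q → ℕ) (he : ∀ q, 1 ≤ e q) (hG : ∀ q, (G q).IsHomogeneous (e q)) :
    ∃ z : κ → ℂ, z ≠ 0 ∧ ∀ q, aeval z (G q) = 0 := by
  classical
  have hκ : 0 < Fintype.card κ := lt_of_le_of_lt (Nat.zero_le _) hc
  obtain ⟨k₀⟩ := Fintype.card_pos_iff.1 hκ
  have hcard : Fintype.card Q ≤ Fintype.card {k : κ // k ≠ k₀} := by
    have h1 : Fintype.card {k : κ // k ≠ k₀} = Fintype.card κ - 1 := by
      rw [Fintype.card_subtype_compl, Fintype.card_subtype_eq]
    omega
  obtain ⟨f⟩ := Function.Embedding.nonempty_of_card_le hcard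
  obtain ⟨x, hx, hx'⟩ := exists_zero_of_match (fun _ : κ => ()) (fun _ => k₀) (fun _ => rfl)
    (fun q _ => e q) G (fun q m hm i => by
      have h1 := hG q (mem_support_iff.1 hm)
      rw [Finsupp.weight_apply, Finsupp.sum_fintype _ _ (by simp)] at h1
      rw [← h1]
      refine Finset.sum_congr ?_ fun k _ => ?_
      · ext k
        simp [coords]
      · simp) (fun q => (f q).1) (fun q q' h => f.injective (Subtype.ext h))
    (fun q => (f q).2) (fun q => Nat.one_le_iff_ne_zero.1 (he q))
  refine ⟨x, ?_, hx'⟩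
  rintro rfl
  obtain ⟨k, _, hk⟩ := hx ()
  exact hk rfl

/-- If the number of the equations which involve the factor `a` is smaller than the dimension of `a` then the fibres are infinite: the equations of the fibre and a
linear form `l` which does not vanish at the vectors of `T` have a common zero. -/
theorem free_of_few (S₀ : Sys V I E) {a : E} (ha : (eqs S₀ a).card < dim S₀.fac a) : Free S₀ a := by
  classical
  rintro S hf he ⟨x, hx⟩
  have ha' : (eqs S a).card < dim S.fac a := by
    have h1 : eqs S a = eqs S₀ a := by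
      unfold eqs
      rw [he]
    rw [h1, hf]
    exact ha
  refine ⟨x, hx, fun T => ?_⟩
  obtain ⟨l, hl⟩ := exists_form ((T.image fun t => fun k : Bl S.fac a => t k.1).filter fun w => w ≠ 0) (by simp)
  have hc : Fintype.card (Option {v // v ∈ eqs S a}) < Fintype.card (Bl S.fac a) := by
    rw [Fintype.card_option, Fintype.card_coe, card_Bl_eq]
    omega
  obtain ⟨z, hz, hz'⟩ := exists_common_zero hc
    (fun q => q.elim (∑ k, C (l k) * X k) fun v => resP S.fac a x (S.F v.1))
    (fun q => q.elim 1 fun v => S.e v.1 a) (by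
      rintro (_ | ⟨v, hv⟩)
      · exact le_refl 1
      · exact Nat.one_le_iff_ne_zero.2 (Finset.mem_filter.1 hv).2) (by
      rintro (_ | ⟨v, hv⟩)
      · refine IsHomogeneous.sum _ _ _ fun k _ => ?_
        have h1 := (isHomogeneous_C (Bl S.fac a) (l k)).mul (isHomogeneous_X ℂ k)
        rw [zero_add] at h1
        exact h1
      · exact isHomogeneous_resP (S.hF v) a x)
  have hl0 : ∑ k, l k * z k = 0 := by
    have h1 := hz' none
    change aeval z (∑ k, C (l k) * X k) = 0 at h1
    rw [map_sum] at h1
    rw [← h1]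
    refine Finset.sum_congr rfl fun k _ => ?_
    rw [map_mul, aeval_C, aeval_X]
    rfl
  refine ⟨glue S.fac a x z, (glue_mem_cone_iff S a hx z).2 ⟨hz, fun v hv => ?_⟩, fun k hk => glue_of_ne _ _ hk,
    fun t ht c => ?_⟩
  · have h1 := hz' (some ⟨v, Finset.mem_filter.2 ⟨Finset.mem_univ _, hv⟩⟩)
    change aeval z (resP S.fac a x (S.F v)) = 0 at h1
    rwa [aeval_resP] at h1
  · by_contra hcon
    push Not at hcon
    have hzt : ∀ k : Bl S.fac a, z k = c * t k.1 := by
      intro k
      rw [← hcon k.1 k.2, glue_coe]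
    have hc0 : c ≠ 0 := by
      rintro rfl
      apply hz
      funext k
      rw [hzt, zero_mul]
      rfl
    have hw : (fun k : Bl S.fac a => t k.1) ≠ 0 := by
      intro h
      apply hz
      funext k
      rw [hzt, show t k.1 = 0 from congrFun h k, mul_zero]
      rfl
    refine hl _ (Finset.mem_filter.2 ⟨Finset.mem_image.2 ⟨t, ht, rfl⟩, hw⟩) ?_
    have h1 : ∑ k, l k * z k = c * ∑ k : Bl S.fac a, l k * t k.1 := by
      rw [Finset.mul_sum]
      refine Finset.sum_congr rfl fun k _ => ?_
      rw [hzt]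
      ring
    rw [hl0] at h1
    exact (mul_eq_zero.1 h1.symm).resolve_left hc0

end

end Pool.Agent.MP_cfacaa_ag.K
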