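import Pool.Agent.Lib.MP_cfacaa_ag.K.NN

/-! Infinite fibres. -/

namespace Pool.Agent.MP_cfacaa_ag.K

open MvPolynomial Pool.Agent.MP_cfacaa_ag.G

section

variable {V I E : Type} [Fintype V] [Fintype I] [Fintype E]

/-- An infinite fibre meets every hyperplane of the factor: otherwise the functions `z c / l z` would be regular, so they would have finitely many values. -/
theorem hyperplanes_of_infFibre (S : Sys V I E) {a : E} {x : I → ℂ} (hx : x ∈ S.cone)
    (H : ∀ T : Finset (I → ℂ), ∃ y ∈ S.cone, (∀ k, S.fac k ≠ a → y k = x k) ∧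
      ∀ t ∈ T, ∀ c : ℂ, ∃ k, S.fac k = a ∧ y k ≠ c * t k) (l : Bl S.fac a → ℂ) :
    ∃ z : Bl S.fac a → ℂ, glue S.fac a x z ∈ S.cone ∧ ∑ k, l k * z k = 0 := by
  classical
  by_contra hcon
  push Not at hcon
  set A : Set (MvPolynomial (Bl S.fac a) ℂ) := Set.range fun v => resP S.fac a x (S.F v) with hA
  have hZ : ∀ z, z ∈ Zs A ↔ glue S.fac a x z ∈ S.cone := by
    intro z
    rw [glue_mem_cone_iff S a hx]
    constructor
    · rintro ⟨hz, h⟩
      refine ⟨hz, fun v _ => ?_⟩
      rw [← aeval_resP]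
      exact h _ ⟨v, rfl⟩
    · intro hz
      have hc := (glue_mem_cone_iff S a hx z).2 hz
      refine ⟨hz.1, ?_⟩
      rintro _ ⟨v, rfl⟩
      simp only
      rw [aeval_resP]
      exact hc.2 v
  have hAh : ∀ p ∈ A, ∃ n, p.IsHomogeneous n := by
    rintro _ ⟨v, rfl⟩
    exact ⟨_, isHomogeneous_resP (S.hF v) a x⟩
  have hne : ∀ z ∈ Zs A, ∑ k, l k * z k ≠ 0 := fun z hz => hcon z ((hZ z).1 hz)
  have hval : ∀ z : Bl S.fac a → ℂ, aeval z (∑ k, C (l k) * X k : MvPolynomial (Bl S.fac a) ℂ) = ∑ k, l k * z k := by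
    intro z
    rw [map_sum]
    refine Finset.sum_congr rfl fun k _ => ?_
    rw [map_mul, aeval_C, aeval_X]
    rfl
  have hfin : ∀ c : Bl S.fac a, ∃ Λ : Finset ℂ, ∀ z ∈ Zs A, z c / (∑ k, l k * z k) ∈ Λ := by
    intro c
    refine finite_values A hAh (f := fun z => z c / (∑ k, l k * z k)) ?_
    intro z hz
    refine ⟨1, X c, ∑ k, C (l k) * X k, isHomogeneous_X _ _, ?_, ?_, fun y hy _ => ?_⟩
    · rw [add_zero]
      refine IsHomogeneous.sum _ _ _ fun k _ => ?_
      have h1 := (isHomogeneous_C (Bl S.fac a) (l k)).mul (isHomogeneous_X ℂ k)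
      rw [zero_add] at h1
      exact h1
    · rw [hval]
      exact hne z hz
    · rw [hval, aeval_X]
      exact div_mul_cancel₀ _ (hne y hy)
  choose Λ hΛ using hfin
  obtain ⟨y, hy, hyx, hyT⟩ := H ((Fintype.piFinset fun c => Λ c).image fun w => glue S.fac a x w)
  have hyg : glue S.fac a x (fun k => y k.1) = y := by
    funext k
    by_cases h : S.fac k = a
    · rw [glue_of_eq _ _ h]
    · rw [glue_of_ne _ _ h, hyx k h]
  have hz : (fun k : Bl S.fac a => y k.1) ∈ Zs A := (hZ _).2 (by rw [hyg]; exact hy)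
  obtain ⟨k, hk, hk'⟩ := hyT (glue S.fac a x fun c => y c.1 / (∑ k, l k * y k.1))
    (Finset.mem_image.2 ⟨_, Fintype.mem_piFinset.2 fun c => hΛ c _ hz, rfl⟩) (∑ k, l k * y k.1)
  apply hk'
  rw [glue_of_eq _ _ hk]
  change y k = (∑ k, l k * y k.1) * (y k / (∑ k, l k * y k.1))
  rw [mul_div_cancel₀ _ (hne _ hz)]

/-- If the projection which forgets the factor `a` has an infinite fibre then globally generated classes have nonnegative degree in `a`. -/
theorem nonneg_of_infFibre (S : Sys V I E) {a : E} (ha : InfFibre S a) {δ : E → ℤ} (h : GloballyGenerated S δ) :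
    0 ≤ δ a := by
  obtain ⟨x, hx, H⟩ := ha
  exact nonneg_of_hyperplanes S a hx (hyperplanes_of_infFibre S hx H) h

end

end Pool.Agent.MP_cfacaa_ag.K
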