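import Pool.Agent.Lib.MP_cfacaa_ag.K.Base

/-! Row cgn-LinA: linear algebra, the vector `rv`. -/

namespace Pool.Agent.MP_cfacaa_ag.K

section

variable {κ L : Type} [Fintype κ] [DecidableEq κ] (σ : κ ≃ L ⊕ Bool) (M : L → κ → ℂ)

private theorem LinA_bm_inl (h : κ) (w : L) (k : κ) : bm σ M h (σ.symm (Sum.inl w)) k = M w k := by
  simp [bm]

private theorem LinA_bm_false (h : κ) (k : κ) :
    bm σ M h (σ.symm (Sum.inr false)) k = if k = h then 1 else 0 := by
  simp [bm]

/-- `Matrix.mul_adjugate`, the entry at `(σ.symm (inl w), σ.symm (inr true))`. -/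
theorem rv_ker (h : κ) (w : L) : ∑ l, M w l * rv σ M h l = 0 := by
  have h1 := congrFun (congrFun (Matrix.mul_adjugate (bm σ M h)) (σ.symm (Sum.inl w))) (σ.symm (Sum.inr true))
  rw [Matrix.mul_apply, Matrix.smul_apply, Matrix.one_apply_ne (by simp), smul_zero] at h1
  rw [← h1]
  refine Finset.sum_congr rfl fun l _ => ?_
  rw [LinA_bm_inl]
  rfl

/-- `Matrix.mul_adjugate`, the entry at `(σ.symm (inr false), σ.symm (inr true))`. -/
theorem rv_self (h : κ) : rv σ M h h = 0 := by
  have h1 := congrFun (congrFun (Matrix.mul_adjugate (bm σ M h)) (σ.symm (Sum.inr false))) (σ.symm (Sum.inr true))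
  rw [Matrix.mul_apply, Matrix.smul_apply, Matrix.one_apply_ne (by simp), smul_zero] at h1
  rw [← h1, Finset.sum_eq_single h]
  · rw [LinA_bm_false, if_pos rfl, one_mul]
    rfl
  · intro k _ hk
    rw [LinA_bm_false, if_neg hk, zero_mul]
  · intro hh
    exact absurd (Finset.mem_univ h) hh

private def LinA_D (p q : κ → ℂ) : Matrix κ κ ℂ :=
  Matrix.of fun i k => Sum.elim (fun w => M w k) (fun b => if b then q k else p k) (σ i)

private theorem LinA_D_true (p q : κ → ℂ) :
    LinA_D σ M p q = (LinA_D σ M p 0).updateRow (σ.symm (Sum.inr true)) q := by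
  ext i k
  by_cases hi : i = σ.symm (Sum.inr true)
  · subst hi
    rw [Matrix.updateRow_self]
    simp [LinA_D]
  · rw [Matrix.updateRow_ne hi]
    rcases hs : σ i with w | b
    · simp [LinA_D, hs]
    · cases b
      · simp [LinA_D, hs]
      · exact absurd (by rw [← hs, Equiv.symm_apply_apply]) hi

private theorem LinA_D_false (p q : κ → ℂ) :
    LinA_D σ M p q = (LinA_D σ M 0 q).updateRow (σ.symm (Sum.inr false)) p := by
  ext i k
  by_cases hi : i = σ.symm (Sum.inr false)
  · subst hi
    rw [Matrix.updateRow_self]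
    simp [LinA_D]
  · rw [Matrix.updateRow_ne hi]
    rcases hs : σ i with w | b
    · simp [LinA_D, hs]
    · cases b
      · exact absurd (by rw [← hs, Equiv.symm_apply_apply]) hi
      · simp [LinA_D, hs]

private theorem LinA_lin_true (p q q' : κ → ℂ) (a b : ℂ) :
    (LinA_D σ M p (a • q + b • q')).det = a * (LinA_D σ M p q).det + b * (LinA_D σ M p q').det := by
  rw [LinA_D_true σ M p (a • q + b • q'), LinA_D_true σ M p q, LinA_D_true σ M p q', Matrix.det_updateRow_add,
    Matrix.det_updateRow_smul, Matrix.det_updateRow_smul]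

private theorem LinA_lin_false (p p' q : κ → ℂ) (a b : ℂ) :
    (LinA_D σ M (a • p + b • p') q).det = a * (LinA_D σ M p q).det + b * (LinA_D σ M p' q).det := by
  rw [LinA_D_false σ M (a • p + b • p') q, LinA_D_false σ M p q, LinA_D_false σ M p' q, Matrix.det_updateRow_add,
    Matrix.det_updateRow_smul, Matrix.det_updateRow_smul]

private theorem LinA_rv_eq (h l : κ) :
    rv σ M h l = (LinA_D σ M (Pi.single h 1) (Pi.single l 1)).det := by
  unfold rv
  rw [Matrix.adjugate_apply, LinA_D_true]
  congr 2
  ext i k
  unfold bm LinA_D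
  rcases hs : σ i with w | b
  · simp [hs]
  · cases b <;> simp [hs, Pi.single_apply]

/-- `rv σ M h l` is the determinant of the matrix with the rows `M w`, `e h`, `e l` (`Matrix.adjugate_apply`). It is linear in the row `e h` and in the row `e l`: the difference of the two sides is the determinant of the matrix with the rows
`M w`, `x h' • e h - x h • e h'`, `x l' • e l - x l • e l'`, which maps `x` to `0` (`Matrix.exists_mulVec_eq_zero_iff`; the claim is trivial if `x = 0`). -/
theorem rv_wedge {x : κ → ℂ} (hx : ∀ w, ∑ k, M w k * x k = 0) (h h' l l' : κ) :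
    (x h' * rv σ M h l - x h * rv σ M h' l) * x l' = (x h' * rv σ M h l' - x h * rv σ M h' l') * x l := by
  by_cases hx0 : x = 0
  · subst hx0
    simp
  have hdet : (LinA_D σ M (x h' • Pi.single h 1 + (- x h) • Pi.single h' 1)
      (x l' • Pi.single l 1 + (- x l) • Pi.single l' 1)).det = 0 := by
    rw [← Matrix.exists_mulVec_eq_zero_iff]
    refine ⟨x, hx0, ?_⟩
    funext i
    rw [Matrix.mulVec, dotProduct]
    rcases hs : σ i with w | b
    · have : ∀ k, LinA_D σ M (x h' • Pi.single h 1 + (- x h) • Pi.single h' 1)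
          (x l' • Pi.single l 1 + (- x l) • Pi.single l' 1) i k = M w k := by
        intro k
        simp [LinA_D, hs]
      simp only [this]
      exact hx w
    · cases b
      · have : ∀ k, LinA_D σ M (x h' • Pi.single h 1 + (- x h) • Pi.single h' 1)
            (x l' • Pi.single l 1 + (- x l) • Pi.single l' 1) i k
            = x h' * (Pi.single h 1 : κ → ℂ) k + (- x h) * (Pi.single h' 1 : κ → ℂ) k := by
          intro k
          simp [LinA_D, hs]
        simp only [this, add_mul, Finset.sum_add_distrib, mul_assoc, ← Finset.mul_sum, Pi.single_apply, ite_mul,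
          one_mul, zero_mul, Finset.sum_ite_eq', Finset.mem_univ, if_true]
        simp only [Pi.zero_apply]
        ring
      · have : ∀ k, LinA_D σ M (x h' • Pi.single h 1 + (- x h) • Pi.single h' 1)
            (x l' • Pi.single l 1 + (- x l) • Pi.single l' 1) i k
            = x l' * (Pi.single l 1 : κ → ℂ) k + (- x l) * (Pi.single l' 1 : κ → ℂ) k := by
          intro k
          simp [LinA_D, hs]
        simp only [this, add_mul, Finset.sum_add_distrib, mul_assoc, ← Finset.mul_sum, Pi.single_apply, ite_mul,
          one_mul, zero_mul, Finset.sum_ite_eq', Finset.mem_univ, if_true]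
        simp only [Pi.zero_apply]
        ring
  rw [LinA_lin_false, LinA_lin_true, LinA_lin_true, ← LinA_rv_eq, ← LinA_rv_eq, ← LinA_rv_eq, ← LinA_rv_eq] at hdet
  linear_combination hdet

end

end Pool.Agent.MP_cfacaa_ag.K
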