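import Pool.Agent.Lib.MP_cfacaa_ag.K.LinA

/-! Row cgn-LinB: linear algebra, the vector `xv`. -/

namespace Pool.Agent.MP_cfacaa_ag.K

section

variable {κ L : Type} [Fintype κ] [DecidableEq κ]

theorem qf_lin (A : κ → κ → ℂ) (x r : κ → ℂ) (α β : ℂ) :
    qf A (fun k => α * x k + β * r k) = α ^ 2 * qf A x + α * β * pf A x r + β ^ 2 * qf A r := by
  unfold qf pf
  simp only [Finset.mul_sum, ← Finset.sum_add_distrib]
  refine Finset.sum_congr rfl fun i _ => Finset.sum_congr rfl fun j _ => ?_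
  ring

omit [DecidableEq κ] in
private theorem LinB_pf_lin (A : κ → κ → ℂ) (x r : κ → ℂ) (α β : ℂ) :
    pf A x (fun k => α * x k + β * r k) = α * (2 * qf A x) + β * pf A x r := by
  unfold qf pf
  simp only [Finset.mul_sum, ← Finset.sum_add_distrib]
  refine Finset.sum_congr rfl fun i _ => Finset.sum_congr rfl fun j _ => ?_
  ring

theorem xv_ker (σ : κ ≃ L ⊕ Bool) (M : L → κ → ℂ) (A : κ → κ → ℂ) {x : κ → ℂ} (hx : ∀ w, ∑ k, M w k * x k = 0)
    (h : κ) (w : L) : ∑ k, M w k * xv σ M A x h k = 0 := by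
  have h1 : ∀ k, M w k * xv σ M A x h k =
      qf A (rv σ M h) * (M w k * x k) - pf A x (rv σ M h) * (M w k * rv σ M h k) := by
    intro k
    unfold xv
    ring
  rw [Finset.sum_congr rfl fun k _ => h1 k, Finset.sum_sub_distrib, ← Finset.mul_sum, ← Finset.mul_sum, hx w,
    rv_ker σ M h w]
  ring

theorem qf_xv (σ : κ ≃ L ⊕ Bool) (M : L → κ → ℂ) (A : κ → κ → ℂ) {x : κ → ℂ} (hq : qf A x = 0) (h : κ) :
    qf A (xv σ M A x h) = 0 := by
  have h1 : xv σ M A x h = fun k => qf A (rv σ M h) * x k + (- pf A x (rv σ M h)) * rv σ M h k := by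
    funext k
    unfold xv
    ring
  rw [h1, qf_lin, hq]
  ring

/-- By `rv_wedge` with `l' = h`: `R = R' + ν x` with `R = x h' • rv h`, `R' = x h • rv h'` and a number `ν`. Then
`qf A R • x - pf A x R • R = qf A R' • x - pf A x R' • R'` because `qf A R = qf A R' + ν * pf A x R'` and `pf A x R = pf A x R'` (`qf A x = 0`, `pf A x x = 2 * qf A x`). -/
theorem xv_indep (σ : κ ≃ L ⊕ Bool) (M : L → κ → ℂ) (A : κ → κ → ℂ) {x : κ → ℂ} (hx : ∀ w, ∑ k, M w k * x k = 0)
    (hq : qf A x = 0) {h h' : κ} (hh : x h ≠ 0) (k : κ) :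
    x h' ^ 2 * xv σ M A x h k = x h ^ 2 * xv σ M A x h' k := by
  have h0 : ∀ l, x h' * rv σ M h l = (- rv σ M h' h) * x l + x h * rv σ M h' l := by
    intro l
    have h1 := rv_wedge σ M hx h h' l h
    rw [rv_self σ M h] at h1
    have h2 : x h * (x h' * rv σ M h l - ((- rv σ M h' h) * x l + x h * rv σ M h' l)) = 0 := by
      linear_combination h1
    rcases mul_eq_zero.1 h2 with h3 | h3
    · exact absurd h3 hh
    · exact sub_eq_zero.1 h3
  have e1 : (fun l => (0 : ℂ) * x l + x h' * rv σ M h l) =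
      fun l => (- rv σ M h' h) * x l + x h * rv σ M h' l := by
    funext l
    rw [zero_mul, zero_add, h0]
  have e2 := qf_lin A x (rv σ M h) 0 (x h')
  have e3 := qf_lin A x (rv σ M h') (- rv σ M h' h) (x h)
  rw [← e1, e2, hq] at e3
  have e4 := LinB_pf_lin A x (rv σ M h) 0 (x h')
  have e5 := LinB_pf_lin A x (rv σ M h') (- rv σ M h' h) (x h)
  rw [← e1, e4, hq] at e5
  have e6 := h0 k
  unfold xv
  have e7 : x h' * pf A x (rv σ M h) = x h * pf A x (rv σ M h') := by linear_combination e5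
  have e8 : x h' ^ 2 * qf A (rv σ M h) =
      - rv σ M h' h * x h * pf A x (rv σ M h') + x h ^ 2 * qf A (rv σ M h') := by linear_combination e3
  linear_combination x k * e8 - pf A x (rv σ M h) * x h' * e6 -
    ((- rv σ M h' h) * x k + x h * rv σ M h' k) * e7

end

end Pool.Agent.MP_cfacaa_ag.K
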