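import Pool.Agent.Lib.MP_cfacaa_ag.K.Num

/-! The numerical lemma, second part. -/

set_option linter.unusedSectionVars false

namespace Pool.Agent.MP_cfacaa_ag.K

open Pool.Agent.MP_cfacaa_ag.G Finset

section

variable {V E : Type} [Fintype V] [Fintype E] {e : V → E → ℕ} {n : E → ℕ}

/-- The numerical condition for lines in the direction of the factor `i` (for the equations of the part of `i`). -/
def Lines (e : V → E → ℕ) (n : E → ℕ) (i : E) : Prop :=
  (∀ W ⊆ eqsOf e (part e i), W.card ≤ ∑ j ∈ factors e W, n j) ∧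
  ∀ W ⊆ eqsOf e (part e i), i ∈ factors e W → W.card + 1 ≤ ∑ j ∈ factors e W, n j ∧
    W.card + ∑ w ∈ W, e w i + 2 ≤ ∑ j ∈ factors e W, n j + n i

theorem mem_part {i j : E} : j ∈ part e i ↔ Relation.ReflTransGen (Joined e) i j := by
  classical
  unfold part
  rw [mem_filter]
  exact ⟨fun h => h.2, fun h => ⟨mem_univ _, h⟩⟩

theorem mem_eqsOf {C : Finset E} {v : V} : v ∈ eqsOf e C ↔ ∃ j ∈ C, e v j ≠ 0 := by
  unfold eqsOf
  rw [mem_filter]
  exact ⟨fun h => h.2, fun h => ⟨mem_univ _, h⟩⟩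

theorem self_mem_part (i : E) : i ∈ part e i := mem_part.2 Relation.ReflTransGen.refl

theorem joined_symm {i j : E} (h : Joined e i j) : Joined e j i := by
  obtain ⟨v, h1, h2⟩ := h
  exact ⟨v, h2, h1⟩

theorem part_eq {i j : E} (h : j ∈ part e i) : part e j = part e i := by
  have h1 := mem_part.1 h
  have h2 : Relation.ReflTransGen (Joined e) j i := by
    clear h
    induction h1 with
    | refl => exact Relation.ReflTransGen.refl
    | tail _ h ih => exact (Relation.ReflTransGen.single (joined_symm h)).trans ih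
  ext k
  rw [mem_part, mem_part]
  exact ⟨fun h => h1.trans h, fun h => h2.trans h⟩

theorem part_closed {i j k : E} {v : V} (hj : j ∈ part e i) (h1 : e v j ≠ 0) (h2 : e v k ≠ 0) : k ∈ part e i :=
  mem_part.2 ((mem_part.1 hj).tail ⟨v, h1, h2⟩)

theorem eqsOf_closed {i k : E} {v : V} (hv : v ∈ eqsOf e (part e i)) (h2 : e v k ≠ 0) : k ∈ part e i := by
  obtain ⟨j, hj, h1⟩ := mem_eqsOf.1 hv
  exact part_closed hj h1 h2

theorem mem_eqsOf_self {i : E} {v : V} (hv : e v i ≠ 0) : v ∈ eqsOf e (part e i) :=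
  mem_eqsOf.2 ⟨i, self_mem_part i, hv⟩

theorem fac_sub_part {i : E} {W : Finset V} (hW : W ⊆ eqsOf e (part e i)) {j : E} (hj : j ∈ factors e W) :
    j ∈ part e i := by
  obtain ⟨v, hv, hvj⟩ := mem_fac.1 hj
  exact eqsOf_closed (hW hv) hvj

theorem part_sub_factors {i : E} (h1 : ∀ j ∈ part e i, ∑ v, e v j = n j + 1) :
    part e i ⊆ factors e (eqsOf e (part e i)) := by
  intro j hj
  obtain ⟨v, hv⟩ := exists_vs (h1 j hj)
  exact mem_fac.2 ⟨v, mem_eqsOf.2 ⟨j, hj, hv⟩, hv⟩

theorem card_add_three {i : E} (h1 : ∀ j ∈ part e i, ∑ v, e v j = n j + 1)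
    (hdim : (eqsOf e (part e i)).card + 3 ≤ ∑ j ∈ part e i, n j) :
    (eqsOf e (part e i)).card + 3 ≤ ∑ j ∈ factors e (eqsOf e (part e i)), n j :=
  hdim.trans (sum_le_sum_of_subset (part_sub_factors h1))

theorem sum_le_dim {i : E} (h1 : ∑ v, e v i = n i + 1) (W : Finset V) : ∑ w ∈ W, e w i ≤ n i + 1 := by
  rw [← h1]
  exact sum_le_sum_of_subset (subset_univ _)

theorem card_le {i : E} (hn : ∀ j, 1 ≤ n j) (h1 : ∀ j ∈ part e i, ∑ v, e v j = n j + 1)
    (h2 : ∀ v ∈ eqsOf e (part e i), 2 ≤ ∑ j, e v j) {W : Finset V} (hW : W ⊆ eqsOf e (part e i)) :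
    W.card ≤ ∑ j ∈ factors e W, n j := by
  classical
  have h := main_ineq (e := e) (n := n) W (fun _ => 0) (fun _ => 0)
    (fun v hv => two_le_wt (fun j hj => h1 j (eqsOf_closed (hW hv) hj)) (h2 v (hW hv)))
    (fun j hj => hh_le (hn j) (h1 j (fac_sub_part hW hj)) W)
  simp only [sum_const_zero] at h
  omega

/-- a part with one equation -/
theorem lines_of_single (hn : ∀ j, 1 ≤ n j) {i : E} (h1 : ∀ j ∈ part e i, ∑ v, e v j = n j + 1)
    (h2 : ∀ v ∈ eqsOf e (part e i), 2 ≤ ∑ j, e v j)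
    {v₀ : V} (hi : e v₀ i ≠ 0) (hs : ∀ j v, e v₀ j ≠ 0 → e v j ≠ 0 → v = v₀)
    (hdim : (eqsOf e (part e i)).card + 3 ≤ ∑ j ∈ part e i, n j) : Lines e n i := by
  have hC : ∀ j, Relation.ReflTransGen (Joined e) i j → e v₀ j ≠ 0 := by
    intro j hj
    induction hj with
    | refl => exact hi
    | tail _ h ih =>
      obtain ⟨v, hv, hv'⟩ := h
      rw [hs _ v ih hv] at hv'
      exact hv'
  refine ⟨fun W => card_le hn h1 h2, fun W hWC hW => ?_⟩
  have hv₀ : v₀ ∈ W := by
    obtain ⟨w, hw, hwi⟩ := mem_fac.1 hW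
    rw [hs i w hi hwi] at hw
    exact hw
  have h3 : eqsOf e (part e i) ⊆ W := by
    intro v hv
    obtain ⟨j, hj, hvj⟩ := mem_eqsOf.1 hv
    rw [hs j v (hC j (mem_part.1 hj)) hvj]
    exact hv₀
  have h4 := card_add_three h1 hdim
  rw [← Subset.antisymm hWC h3] at h4
  have h5 := sum_le_dim (h1 i (self_mem_part i)) W
  omega

/-- a part with a square system -/
theorem lines_of_block (hn : ∀ j, 1 ≤ n j) {i : E} (h1 : ∀ j ∈ part e i, ∑ v, e v j = n j + 1)
    (h2 : ∀ v ∈ eqsOf e (part e i), 2 ≤ ∑ j, e v j)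
    {v₀ : V} (hi : e v₀ i ≠ 0) (hs : ∀ j v, e v₀ j ≠ 0 → e v j ≠ 0 → e v = e v₀)
    (ht : ∀ j, e v₀ j ≠ 0 → (vs e j).card = n j + 1)
    (hdim : (eqsOf e (part e i)).card + 3 ≤ ∑ j ∈ part e i, n j) : Lines e n i := by
  classical
  have hC : ∀ j, Relation.ReflTransGen (Joined e) i j → e v₀ j ≠ 0 := by
    intro j hj
    induction hj with
    | refl => exact hi
    | tail _ h ih =>
      obtain ⟨v, hv, hv'⟩ := h
      rw [hs _ v ih hv] at hv'
      exact hv'
  have hB : eqsOf e (part e i) = vs e i := by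
    ext v
    rw [mem_eqsOf, mem_vs]
    constructor
    · rintro ⟨j, hj, hvj⟩
      rw [hs j v (hC j (mem_part.1 hj)) hvj]
      exact hi
    · intro hv
      exact ⟨i, self_mem_part i, hv⟩
  refine ⟨fun W => card_le hn h1 h2, fun W hWC hW => ?_⟩
  obtain ⟨w, hw, hwi⟩ := mem_fac.1 hW
  have h6 : part e i ⊆ factors e W := by
    intro j hj
    refine mem_fac.2 ⟨w, hw, ?_⟩
    rw [hs i w hi hwi]
    exact hC j (mem_part.1 hj)
  have h7 : ∑ j ∈ part e i, n j ≤ ∑ j ∈ factors e W, n j := sum_le_sum_of_subset h6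
  have h8 : W.card ≤ (vs e i).card := by
    rw [← hB]
    exact card_le_card hWC
  have h9 : ∑ w ∈ W, e w i ≤ W.card := by
    rw [card_eq_sum_ones]
    refine sum_le_sum fun w hw => ?_
    have hwi := hWC hw
    rw [hB, mem_vs] at hwi
    have h11 := card_add_le (h1 i (self_mem_part i)) hwi
    rw [ht i hi] at h11
    omega
  have h12 := ht i hi
  rw [hB] at hdim
  omega

/-- the weight of an equation in a factor whose equations are as many as its dimension -/
theorem three_le_wt {i : E} (hi : (vs e i).card = n i) {v : V} (hv : e v i ≠ 0) (hv2 : 2 ≤ (fs e v).card) :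
    3 ≤ ∑ j ∈ fs e v, hh e n j := by
  classical
  rw [← add_sum_erase _ _ (mem_fs.2 hv), hh_two (by omega)]
  have h4 : ((fs e v).erase i).card ≤ ∑ k ∈ (fs e v).erase i, hh e n k := by
    rw [card_eq_sum_ones]
    exact sum_le_sum fun k _ => hh_pos k
  rw [card_erase_of_mem (mem_fs.2 hv)] at h4
  omega

/-- a single factor -/
theorem two_le_of_single {v : V} (h2 : 2 ≤ ∑ j, e v j) {i : E} (hv : e v i ≠ 0) (hv2 : ¬ 2 ≤ (fs e v).card) :
    2 ≤ e v i ∧ fs e v = {i} := by
  have h3 : fs e v = {i} := by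
    have h4 : (fs e v).card ≤ 1 := by omega
    ext j
    rw [mem_singleton]
    refine ⟨fun hj => card_le_one.1 h4 j hj i (mem_fs.2 hv), fun hj => ?_⟩
    rw [hj]
    exact mem_fs.2 hv
  refine ⟨?_, h3⟩
  have h4 : ∑ j ∈ fs e v, e v j = ∑ j, e v j := by
    refine sum_subset (subset_univ _) fun j _ hj => ?_
    by_contra h
    exact hj (mem_fs.2 h)
  rw [h3, sum_singleton] at h4
  rw [h4]
  exact h2

/-- the total weight of the equations of a factor whose equations are as many as its dimension -/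
theorem quad_weight (hn : ∀ j, 1 ≤ n j) {i : E} (h1 : ∀ j ∈ part e i, ∑ v, e v j = n j + 1)
    (h2 : ∀ v ∈ eqsOf e (part e i), 2 ≤ ∑ j, e v j)
    (hi : (vs e i).card = n i) (hi2 : 2 ≤ n i)
    (hcol : ∀ v ∈ eqsOf e (part e i), 3 ≤ ∑ j ∈ fs e v, n j)
    (htyp : ∀ j ∈ part e i, (vs e j).card = n j + 1 → ∀ v w, e v j ≠ 0 → e w j ≠ 0 → e v = e w)
    (hC : ¬ eqsOf e (part e i) ⊆ vs e i) :
    3 ≤ ∑ v ∈ vs e i, (∑ j ∈ fs e v, hh e n j - 2) := by
  classical
  have h1i := h1 i (self_mem_part i)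
  obtain ⟨u, hu, hu2⟩ : ∃ u ∈ vs e i, 2 ≤ e u i := by
    by_contra hcon
    push Not at hcon
    have h3 : ∑ v, e v i = ∑ v ∈ vs e i, e v i := by
      symm
      refine sum_subset (subset_univ _) fun v _ hv => ?_
      by_contra h
      exact hv (mem_vs.2 h)
    have h4 : ∑ v ∈ vs e i, e v i ≤ (vs e i).card := by
      rw [card_eq_sum_ones]
      refine sum_le_sum fun v hv => ?_
      have := hcon v hv
      omega
    omega
  have hu0 : e u i ≠ 0 := by omega
  have huE : u ∈ eqsOf e (part e i) := mem_eqsOf_self hu0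
  have hcard : ((vs e i).erase u).card = n i - 1 := by rw [card_erase_of_mem hu, hi]
  have hother : ∀ v ∈ (vs e i).erase u, 2 ≤ (fs e v).card := by
    intro v hv
    rw [mem_erase, mem_vs] at hv
    by_contra h
    have h3 := (two_le_of_single (h2 v (mem_eqsOf_self hv.2)) hv.2 h).1
    have h4 := card_add_add_le h1i hu0 hv.2 hv.1
    omega
  have hwo : ∀ v ∈ (vs e i).erase u, 3 ≤ ∑ j ∈ fs e v, hh e n j := by
    intro v hv
    exact three_le_wt hi (mem_vs.1 (mem_of_mem_erase hv)) (hother v hv)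
  rw [← add_sum_erase _ _ hu]
  by_cases huf : 2 ≤ (fs e u).card
  · have hut : ∀ k ∈ fs e u, (vs e k).card ≠ n k + 1 := by
      intro k hk hkt
      have hkC : k ∈ part e i := eqsOf_closed huE (mem_fs.1 hk)
      obtain ⟨w, hw, hwu⟩ := exists_mem_ne (show 1 < (vs e k).card by
        have := hn k
        omega) u
      have h3 := htyp k hkC hkt w u (mem_vs.1 hw) (mem_fs.1 hk)
      have h4 := card_add_add_le h1i hu0 (w := w) (by rw [h3]; exact hu0) hwu
      rw [h3] at h4
      omega
    have huw : 4 ≤ ∑ k ∈ fs e u, hh e n k := by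
      rw [sum_congr rfl fun k hk => hh_two (hut k hk), sum_const, smul_eq_mul]
      omega
    obtain ⟨v₂, hv₂⟩ := card_pos.1 (show 0 < ((vs e i).erase u).card by omega)
    have h3 : ∑ j ∈ fs e v₂, hh e n j - 2 ≤ ∑ v ∈ (vs e i).erase u, (∑ j ∈ fs e v, hh e n j - 2) :=
      single_le_sum (f := fun v => ∑ j ∈ fs e v, hh e n j - 2) (fun _ _ => Nat.zero_le _) hv₂
    have h4 := hwo v₂ hv₂
    omega
  · obtain ⟨-, hfu⟩ := two_le_of_single (h2 u huE) hu0 huf
    have h3 := hcol u huE
    rw [hfu, sum_singleton] at h3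
    refine le_trans ?_ (Nat.le_add_left _ _)
    by_contra hcon
    push Not at hcon
    have h5 : ((vs e i).erase u).card ≤ ∑ v ∈ (vs e i).erase u, (∑ j ∈ fs e v, hh e n j - 2) := by
      rw [card_eq_sum_ones]
      refine sum_le_sum fun v hv => ?_
      have := hwo v hv
      omega
    have h6 : ((vs e i).erase u).card = 2 := by omega
    have hone : ∀ v ∈ (vs e i).erase u, ∑ j ∈ fs e v, hh e n j = 3 := by
      intro v hv
      by_contra hne
      have h7 := hwo v hv
      rw [← add_sum_erase _ _ hv] at hcon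
      have h8 : (((vs e i).erase u).erase v).card ≤
          ∑ v ∈ ((vs e i).erase u).erase v, (∑ j ∈ fs e v, hh e n j - 2) := by
        rw [card_eq_sum_ones]
        refine sum_le_sum fun v hv => ?_
        have := hwo v (mem_of_mem_erase hv)
        omega
      rw [card_erase_of_mem hv] at h8
      omega
    have hsq : ∀ v ∈ (vs e i).erase u, ∀ a, a ≠ i → e v a ≠ 0 → (vs e a).card = n a + 1 := by
      intro v hv a hai hva
      have hvi : e v i ≠ 0 := mem_vs.1 (mem_of_mem_erase hv)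
      by_contra hat
      have h7 := hone v hv
      rw [← add_sum_erase _ _ (mem_fs.2 hvi), hh_two (by omega),
        ← add_sum_erase _ _ (mem_erase.2 ⟨hai, mem_fs.2 hva⟩), hh_two hat] at h7
      omega
    have hadj : ∀ v ∈ (vs e i).erase u, ∀ a, a ≠ i → e v a ≠ 0 → ∀ w, e w a ≠ 0 → e w = e v := by
      intro v hv a hai hva w hw
      have hvi : e v i ≠ 0 := mem_vs.1 (mem_of_mem_erase hv)
      exact htyp a (eqsOf_closed (mem_eqsOf_self hvi) hva) (hsq v hv a hai hva) w v hw hva
    apply hC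
    have hall : ∀ j, Relation.ReflTransGen (Joined e) i j → vs e j ⊆ vs e i := by
      intro j hj
      induction hj with
      | refl => exact le_refl _
      | @tail b c hb h ih =>
        obtain ⟨x, hxb, hxc⟩ := h
        have hxi : x ∈ vs e i := ih (mem_vs.2 hxb)
        by_cases hci : c = i
        · subst hci
          exact le_refl _
        · have hxu : x ∈ (vs e i).erase u := by
            refine mem_erase.2 ⟨?_, hxi⟩
            rintro rfl
            have h9 : c ∈ fs e x := mem_fs.2 hxc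
            rw [hfu, mem_singleton] at h9
            exact hci h9
          intro w hw
          rw [mem_vs, hadj x hxu c hci hxc w (mem_vs.1 hw)]
          exact mem_vs.1 hxi
    intro v hv
    obtain ⟨j, hj, hvj⟩ := mem_eqsOf.1 hv
    exact hall j (mem_part.1 hj) (mem_vs.2 hvj)

/-- a factor whose equations are as many as its dimension, at least two -/
theorem lines_of_quad (hn : ∀ j, 1 ≤ n j) {i : E} (h1 : ∀ j ∈ part e i, ∑ v, e v j = n j + 1)
    (h2 : ∀ v ∈ eqsOf e (part e i), 2 ≤ ∑ j, e v j)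
    (hi : (vs e i).card = n i) (hi2 : 2 ≤ n i)
    (hcol : ∀ v ∈ eqsOf e (part e i), 3 ≤ ∑ j ∈ fs e v, n j)
    (hnt : ∀ v ∈ eqsOf e (part e i), ∃ j, e v j ≠ 0 ∧ (vs e j).card ≠ n j + 1)
    (htyp : ∀ j ∈ part e i, (vs e j).card = n j + 1 → ∀ v w, e v j ≠ 0 → e w j ≠ 0 → e v = e w)
    (hdim : (eqsOf e (part e i)).card + 3 ≤ ∑ j ∈ part e i, n j) : Lines e n i := by
  classical
  refine ⟨fun W => card_le hn h1 h2, fun W hWC hW => ?_⟩
  have h1i := h1 i (self_mem_part i)
  have hS := sum_le_dim h1i W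
  have hwW : ∀ v ∈ W, 2 ≤ ∑ j ∈ fs e v, hh e n j := fun v hv =>
    two_le_wt (fun j hj => h1 j (eqsOf_closed (hWC hv) hj)) (h2 v (hWC hv))
  by_cases hm : vs e i ⊆ W
  · suffices h : W.card + 3 ≤ ∑ j ∈ factors e W, n j by omega
    by_cases hC : eqsOf e (part e i) ⊆ W
    · have h4 := card_add_three h1 hdim
      rw [← Subset.antisymm hWC hC] at h4
      exact h4
    · obtain ⟨j, hjW, hjt, hjV⟩ : ∃ j ∈ factors e W, (vs e j).card ≠ n j + 1 ∧ ¬ vs e j ⊆ W := by
        by_contra hcon
        push Not at hcon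
        apply hC
        have hall : ∀ j, Relation.ReflTransGen (Joined e) i j → vs e j ⊆ W := by
          intro j hj
          induction hj with
          | refl => exact hm
          | @tail b c hb h ih =>
            obtain ⟨v, hvb, hvc⟩ := h
            have hvW : v ∈ W := ih (mem_vs.2 hvb)
            have hcW : c ∈ factors e W := mem_fac.2 ⟨v, hvW, hvc⟩
            by_cases hct : (vs e c).card = n c + 1
            · intro w hw
              have hbC : b ∈ part e i := mem_part.2 hb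
              have hcC : c ∈ part e i := part_closed hbC hvb hvc
              have hvE : v ∈ eqsOf e (part e i) := mem_eqsOf.2 ⟨b, hbC, hvb⟩
              obtain ⟨k, hk, hkt⟩ := hnt v hvE
              have hwv := htyp c hcC hct w v (mem_vs.1 hw) hvc
              refine hcon k (mem_fac.2 ⟨v, hvW, hk⟩) hkt (mem_vs.2 ?_)
              rw [hwv]
              exact hk
            · exact hcon c hcW hct
        intro v hv
        obtain ⟨j, hj, hvj⟩ := mem_eqsOf.1 hv
        exact hall j (mem_part.1 hj) (mem_vs.2 hvj)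
      have hwt := quad_weight hn h1 h2 hi hi2 hcol htyp (fun h => hC (h.trans hm))
      have hwt2 : ∑ v ∈ vs e i, (∑ j ∈ fs e v, hh e n j - 2) ≤ ∑ v ∈ W, (∑ j ∈ fs e v, hh e n j - 2) :=
        sum_le_sum_of_subset hm
      have h6 := main_ineq (e := e) (n := n) W (fun v => ∑ j ∈ fs e v, hh e n j - 2)
        (fun k => if k = j then 2 else 0) (by
          intro v hv
          have := hwW v hv
          omega) (by
          intro k hk
          by_cases hkj : k = j
          · subst hkj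
            rw [if_pos rfl]
            have h7 := hh_le' (h1 k (fac_sub_part hWC hk)) W hjt
            have h8 : 1 ≤ (vs e k \ W).card := by
              rw [Nat.one_le_iff_ne_zero]
              intro h
              exact hjV (sdiff_eq_empty_iff_subset.1 (card_eq_zero.1 h))
            omega
          · rw [if_neg hkj]
            exact hh_le (hn k) (h1 k (fac_sub_part hWC hk)) W)
      rw [sum_ite_eq' _ j, if_pos hjW] at h6
      omega
  · have hm1 : 1 ≤ (vs e i \ W).card := by
      rw [Nat.one_le_iff_ne_zero]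
      intro h
      exact hm (sdiff_eq_empty_iff_subset.1 (card_eq_zero.1 h))
    have hmc : (vs e i \ W).card + (vs e i ∩ W).card = (vs e i).card := card_sdiff_add_card_inter _ _
    have h7 : ∑ w ∈ W, e w i + (vs e i \ W).card ≤ n i + 1 := by
      rw [← h1i, ← sum_sdiff (subset_univ W), add_comm (∑ w ∈ univ \ W, e w i)]
      refine Nat.add_le_add_left ?_ _
      calc (vs e i \ W).card = ∑ w ∈ vs e i \ W, 1 := card_eq_sum_ones _
        _ ≤ ∑ w ∈ vs e i \ W, e w i := sum_le_sum fun w hw =>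
            Nat.one_le_iff_ne_zero.2 (mem_vs.1 (mem_sdiff.1 hw).1)
        _ ≤ ∑ w ∈ univ \ W, e w i := sum_le_sum_of_subset (sdiff_subset_sdiff (subset_univ _) (le_refl _))
    have h6 := main_ineq (e := e) (n := n) W (fun v => ∑ j ∈ fs e v, hh e n j - 2)
      (fun k => if k = i then 2 * (vs e i \ W).card else 0) (by
        intro v hv
        have := hwW v hv
        omega) (by
        intro k hk
        by_cases hki : k = i
        · subst hki
          rw [if_pos rfl]
          exact hh_le' h1i W (by omega)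
        · rw [if_neg hki]
          exact hh_le (hn k) (h1 k (fac_sub_part hWC hk)) W)
    rw [sum_ite_eq' _ i, if_pos hW] at h6
    by_cases hm2 : 2 ≤ (vs e i \ W).card
    · omega
    · have hex : ∃ v ∈ vs e i ∩ W, 2 ≤ (fs e v).card := by
        by_contra hcon
        push Not at hcon
        obtain ⟨v₁, hv₁, hv₁i⟩ := mem_fac.1 hW
        have h8 : (vs e i ∩ W).card ≤ 1 := by
          refine card_le_one.2 fun a ha b hb => ?_
          by_contra hab
          have hai := mem_vs.1 (mem_inter.1 ha).1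
          have hbi := mem_vs.1 (mem_inter.1 hb).1
          have ha2 := two_le_of_single (h2 a (mem_eqsOf_self hai)) hai (not_le.2 (hcon a ha))
          have hb2 := two_le_of_single (h2 b (mem_eqsOf_self hbi)) hbi (not_le.2 (hcon b hb))
          have h9 := card_add_add_le h1i hai hbi (fun h => hab h.symm)
          omega
        have h9 := two_le_of_single (h2 v₁ (mem_eqsOf_self hv₁i)) hv₁i
          (not_le.2 (hcon v₁ (mem_inter.2 ⟨mem_vs.2 hv₁i, hv₁⟩)))
        have h10 := hcol v₁ (mem_eqsOf_self hv₁i)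
        rw [h9.2, sum_singleton] at h10
        omega
      obtain ⟨v, hv, hv2⟩ := hex
      have h8 := three_le_wt hi (mem_vs.1 (mem_inter.1 hv).1) hv2
      have h9 : ∑ j ∈ fs e v, hh e n j - 2 ≤ ∑ v ∈ W, (∑ j ∈ fs e v, hh e n j - 2) :=
        single_le_sum (f := fun v => ∑ j ∈ fs e v, hh e n j - 2) (fun _ _ => Nat.zero_le _) (mem_inter.1 hv).2
      omega

/-- The numerical lemma. -/
theorem exists_lines (hn : ∀ j, 1 ≤ n j) (i₀ : E) (h1 : ∀ j ∈ part e i₀, ∑ v, e v j = n j + 1)
    (h2 : ∀ v ∈ eqsOf e (part e i₀), 2 ≤ ∑ j, e v j)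
    (hb : ∀ j ∈ part e i₀, n j ≤ (vs e j).card)
    (hcol : ∀ v ∈ eqsOf e (part e i₀), 3 ≤ ∑ j ∈ fs e v, n j)
    (htyp : ∀ j ∈ part e i₀, (vs e j).card = n j + 1 → ∀ v w, e v j ≠ 0 → e w j ≠ 0 → e v = e w)
    (hdim : (eqsOf e (part e i₀)).card + 3 ≤ ∑ j ∈ part e i₀, n j) : ∃ i ∈ part e i₀, Lines e n i := by
  classical
  by_cases hA : ∃ v₀ ∈ eqsOf e (part e i₀), ∀ j, e v₀ j ≠ 0 → (vs e j).card = n j + 1
  · obtain ⟨v₀, hv₀, ht⟩ := hA
    obtain ⟨i, hi, hvi⟩ := mem_eqsOf.1 hv₀
    have hp := part_eq hi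
    rw [← hp] at h1 h2 hdim
    refine ⟨i, hi, lines_of_block hn h1 h2 hvi (fun j v hj hv => ?_) ht hdim⟩
    exact htyp j (eqsOf_closed hv₀ hj) (ht j hj) v v₀ hv hj
  · push Not at hA
    by_cases hB : ∃ i ∈ part e i₀, (vs e i).card ≠ n i + 1 ∧ 2 ≤ n i
    · obtain ⟨i, hi, hit, hi2⟩ := hB
      have h3 := hb i hi
      have h4 := card_vs_le (h1 i hi)
      have hp := part_eq hi
      rw [← hp] at h1 h2 hdim hcol htyp hA
      exact ⟨i, hi, lines_of_quad hn h1 h2 (by omega) hi2 hcol hA htyp hdim⟩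
    · push Not at hB
      obtain ⟨v, hv⟩ := exists_vs (h1 i₀ (self_mem_part i₀))
      have hvC : v ∈ eqsOf e (part e i₀) := mem_eqsOf_self hv
      obtain ⟨i, hi, hit⟩ := hA v hvC
      have hiC : i ∈ part e i₀ := eqsOf_closed hvC hi
      have hone : ∀ j ∈ part e i₀, (vs e j).card ≠ n j + 1 → (vs e j).card ≤ 1 := by
        intro j hj hjt
        have h3 := hB j hj hjt
        have h4 := card_vs_le (h1 j hj)
        omega
      have huniq : ∀ j ∈ part e i₀, (vs e j).card ≠ n j + 1 → ∀ w w', e w j ≠ 0 → e w' j ≠ 0 → w = w' := by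
        intro j hj hjt w w' hw hw'
        exact card_le_one.1 (hone j hj hjt) w (mem_vs.2 hw) w' (mem_vs.2 hw')
      have hs : ∀ j w, e v j ≠ 0 → e w j ≠ 0 → w = v := by
        intro j w hj hw
        have hjC : j ∈ part e i₀ := eqsOf_closed hvC hj
        by_cases hjt : (vs e j).card = n j + 1
        · have h3 := htyp j hjC hjt w v hw hj
          refine huniq i hiC hit w v ?_ hi
          rw [h3]
          exact hi
        · exact huniq j hjC hjt w v hw hj
      have hp := part_eq hiC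
      rw [← hp] at h1 h2 hdim
      exact ⟨i, hiC, lines_of_single hn h1 h2 hi hs hdim⟩

end

end Pool.Agent.MP_cfacaa_ag.K
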