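import Pool.Agent.Lib.MP_cfacaa_ag.K.Base
import Pool.Agent.Lib.MP_cfacaa_ag.K.NumB
import Pool.Agent.Lib.MP_cfacaa_ag.G.Line
import Pool.Agent.Lib.MP_cfacaa_ag.G.Conv

/-! Lines. -/

namespace Pool.Agent.MP_cfacaa_ag.K

open MvPolynomial Pool.Agent.MP_cfacaa_ag.G

section

variable {V I E : Type} [Fintype V] [Fintype I] [Fintype E]

/-- The value of a polynomial depends only on the coordinates of the factors which it involves. -/
theorem aeval_agree {fac : I → E} {e : E → ℕ} {P : MvPolynomial I ℂ} (hP : IsMH fac e P)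
    {x y : I → ℂ} (hxy : ∀ k, e (fac k) ≠ 0 → x k = y k) : aeval x P = aeval y P := by
  rw [aeval_eq_sum fac, aeval_eq_sum fac]
  refine Finset.sum_congr rfl fun m hm => ?_
  congr 1
  refine Finset.prod_congr rfl fun i _ => Finset.prod_congr rfl fun k hk => ?_
  by_cases hi : e i = 0
  · have h1 := hP m hm i
    rw [hi] at h1
    have h2 : m k = 0 := (Finset.sum_eq_zero_iff.1 h1) k hk
    rw [h2, pow_zero, pow_zero]
  · rw [hxy k (by rw [mem_coords.1 hk]; exact hi)]

/-- The numerical condition for lines in the direction of the factor `a` implies that there is such a line on `X`, if `X` is not empty. -/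
theorem infFibre_of_lines (S : Sys V I E) {a : E} (ha : Lines S.e (dim S.fac) a) (hne : ∃ x, x ∈ S.cone) :
    InfFibre S a := by
  classical
  obtain ⟨x₀, hx₀⟩ := hne
  have hb0 : ∀ j, ∃ k, S.fac k = j := by
    intro j
    have h1 := S.two j
    obtain ⟨k, hk⟩ := Finset.card_pos.1 (show 0 < (coords S.fac j).card by omega)
    exact ⟨k, mem_coords.1 hk⟩
  choose b hb using hb0
  obtain ⟨b', hb', hbb⟩ : ∃ b', S.fac b' = a ∧ b' ≠ b a := by
    obtain ⟨k, hk, hk'⟩ := Finset.exists_mem_ne (show 1 < (coords S.fac a).card by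
      have := S.two a
      omega) (b a)
    exact ⟨k, mem_coords.1 hk, hk'⟩
  -- the equations of the part of `a`
  set D : Finset V := eqsOf S.e (part S.e a) with hD
  have hfac : ∀ W : Finset {v // v ∈ D}, factors (fun v : {v // v ∈ D} => S.e v.1) W =
      factors S.e (W.map ⟨Subtype.val, Subtype.val_injective⟩) := by
    intro W
    ext j
    rw [mem_fac, mem_fac]
    constructor
    · rintro ⟨v, hv, h⟩
      exact ⟨v.1, Finset.mem_map.2 ⟨v, hv, rfl⟩, h⟩
    · rintro ⟨v, hv, h⟩
      obtain ⟨w, hw, rfl⟩ := Finset.mem_map.1 hv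
      exact ⟨w, hw, h⟩
  have hsub : ∀ W : Finset {v // v ∈ D}, W.map ⟨Subtype.val, Subtype.val_injective⟩ ⊆ D := by
    intro W v hv
    obtain ⟨w, _, rfl⟩ := Finset.mem_map.1 hv
    exact w.2
  have hmatch : ∃ f : (Σ q : {v // v ∈ D}, Fin (S.e q.1 a + 1)) → I ⊕ I,
      Match S.fac a b b' (fun v : {v // v ∈ D} => S.e v.1) f := by
    refine exists_match_line S.fac a b b' hb hb' hbb (fun v : {v // v ∈ D} => S.e v.1) (fun W => ?_) (fun W hW => ?_)
    · have h1 := ha.1 _ (hsub W)
      rw [Finset.card_map, ← hfac W] at h1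
      exact h1
    · have h1 := ha.2 _ (hsub W) (by rw [← hfac W]; exact hW)
      rw [Finset.card_map, ← hfac W, Finset.sum_map] at h1
      exact h1
  obtain ⟨f, hf⟩ := hmatch
  obtain ⟨P, Q, hN, h0⟩ := exists_line_of_match S.fac a b b' hb hb' hbb (fun v : {v // v ∈ D} => S.e v.1)
    (fun v : {v // v ∈ D} => S.F v.1) (fun v => S.hF v.1) f hf
  obtain ⟨c, c', hc, hc', hP, hQ, hP', hQ'⟩ := hN
  let y : ℂ → I → ℂ := fun t k => if S.fac k ∈ part S.e a then ln S.fac a P Q 1 t k else x₀ k
  have hval : ∀ t : ℂ, y t (c a) = 1 := by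
    intro t
    simp only [y]
    rw [if_pos (by rw [hc]; exact self_mem_part a)]
    unfold ln
    rw [if_pos (hc a), hP, hQ]
    ring
  have hval' : ∀ t : ℂ, y t c' = t := by
    intro t
    simp only [y]
    rw [if_pos (by rw [hc']; exact self_mem_part a)]
    unfold ln
    rw [if_pos hc', hP', hQ']
    ring
  have hmem : ∀ t : ℂ, y t ∈ S.cone := by
    intro t
    refine ⟨fun i => ?_, fun v => ?_⟩
    · by_cases hi : i ∈ part S.e a
      · refine ⟨c i, hc i, ?_⟩
        by_cases hia : i = a
        · subst hia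
          rw [hval]
          exact one_ne_zero
        · simp only [y]
          rw [if_pos (by rw [hc]; exact hi)]
          unfold ln
          rw [if_neg (by rw [hc]; exact hia), hP]
          exact one_ne_zero
      · obtain ⟨k, hk, hk'⟩ := hx₀.1 i
        refine ⟨k, hk, ?_⟩
        simp only [y]
        rw [if_neg (by rw [hk]; exact hi)]
        exact hk'
    · by_cases hv : v ∈ D
      · rw [aeval_agree (S.hF v) (y := ln S.fac a P Q 1 t) (fun k hk => ?_)]
        · exact h0 ⟨v, hv⟩ 1 t
        · simp only [y]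
          rw [if_pos (eqsOf_closed hv hk)]
      · rw [aeval_agree (S.hF v) (y := x₀) (fun k hk => ?_)]
        · exact hx₀.2 v
        · simp only [y]
          rw [if_neg fun h => hv (mem_eqsOf.2 ⟨_, h, hk⟩)]
  refine ⟨y 0, hmem 0, fun T => ?_⟩
  obtain ⟨t, ht⟩ := Infinite.exists_notMem_finset (T.image fun w => w c' / w (c a))
  refine ⟨y t, hmem t, fun k hk => ?_, fun w hw r => ?_⟩
  · simp only [y]
    unfold ln
    rw [if_neg hk, if_neg hk]
  · by_contra hcon
    push Not at hcon
    apply ht
    rw [Finset.mem_image]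
    refine ⟨w, hw, ?_⟩
    have h1 := hcon (c a) (hc a)
    have h2 := hcon c' hc'
    rw [hval] at h1
    rw [hval'] at h2
    have hwa : w (c a) ≠ 0 := by
      intro h
      rw [h, mul_zero] at h1
      exact one_ne_zero h1
    rw [div_eq_iff hwa, h2]
    linear_combination w c' * h1

/-- The numerical condition for lines. -/
theorem free_of_lines (S : Sys V I E) {a : E} (ha : Lines S.e (dim S.fac) a) : Free S a := by
  intro S' hf he hne
  refine infFibre_of_lines S' ?_ hne
  rw [hf, he]
  exact ha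

end

end Pool.Agent.MP_cfacaa_ag.K
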