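import Pool.Agent.Lib.MP_cfacaa_ag.K.TrG

/-! Row cgn-TrH: pulling back sections. -/

namespace Pool.Agent.MP_cfacaa_ag.K

open MvPolynomial Pool.Agent.MP_cfacaa_ag.G

section

variable {V I E : Type} [Fintype V] [Fintype I] [Fintype E]

/-- A section of degree `flp a c d` on `X'` is pulled back to a section of degree `d` on `X`. At `x ∈ S.cone` let `P / Q` be a local fraction of `s` at `T.map x`, of multidegrees `m`, `m'`, and
`D`, `φ`, `p`, `q` from `T.loc`. With `P'`, `Q'` the polynomials `P`, `Q` with `φ k` substituted for the coordinates of the factor `a` (`isMH_glue`, `aeval_glue`), the fraction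
`(P' * D ^ (m' a + 1)) / (Q' * D ^ (m a + 1))` does it: its multidegree is `(m a - m' a) * (p - q) + (m - m')` outside of `a`, … (See `sec_aux` in `Pool/Agent/Lib/MP_cfacaa_ag/G/Sec.lean`.) -/
theorem isSection_comp_map {S S' : Sys V I E} {a : E} {c : E → ℕ} (T : Trans S S' a c) {d : E → ℤ} {s : (I → ℂ) → ℂ}
    (hs : IsSection S' (flp a c d) s) : IsSection S d (fun x => s (T.map x)) := by
  intro x hx
  obtain ⟨m, m', P, Q, hP, hQ, hmm, hQx, hsPQ⟩ := hs _ (T.mem x hx)
  obtain ⟨p, q, D, φ, hD, hφ, hpa, hpj, hDx, hloc⟩ := T.loc x hx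
  rw [T.fac_eq] at hP hQ
  have hval : ∀ {n : E → ℕ} {R : MvPolynomial I ℂ}, IsMH S.fac n R → ∀ y ∈ S.cone, aeval y D ≠ 0 →
      aeval y (aeval (glue S.fac a (fun k => (X k : MvPolynomial I ℂ)) (fun k => φ k.1)) R) =
        (aeval y D) ^ n a * aeval (T.map y) R := by
    intro n R hR y hy hyD
    exact aeval_glue hR (T.off y hy) (hloc y hy hyD)
  have hPm := (isMH_glue hφ hP).mul (hD.pow (m' a + 1))
  have hQm := (isMH_glue hφ hQ).mul (hD.pow (m a + 1))
  refine ⟨_, _, _, _, hPm, hQm, ?_, ?_, ?_⟩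
  · intro j
    have h1 := hmm j
    have h2 := hmm a
    by_cases hj : j = a
    · subst hj
      have h3 : (q j : ℤ) = p j + 1 := by exact_mod_cast hpa.symm
      simp only [flp, up, if_true] at h1 ⊢
      push_cast
      rw [h3]
      linear_combination (-1 : ℤ) * h1
    · have h3 : (p j : ℤ) = q j + c j := by exact_mod_cast hpj j hj
      simp only [flp, up, if_true, if_neg hj] at h1 h2 ⊢
      push_cast
      rw [h3]
      linear_combination h1 + (c j : ℤ) * h2
  · rw [map_mul, map_pow, hval hQ x hx hDx]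
    exact mul_ne_zero (mul_ne_zero (pow_ne_zero _ hDx) hQx) (pow_ne_zero _ hDx)
  · intro y hy hy0
    rw [map_mul, map_pow] at hy0
    have hyD : aeval y D ≠ 0 := by
      intro h
      rw [h, pow_succ, mul_zero, mul_zero] at hy0
      exact hy0 rfl
    rw [hval hQ y hy hyD] at hy0
    have hyQ : aeval (T.map y) Q ≠ 0 := by
      intro h
      rw [h, mul_zero, zero_mul] at hy0
      exact hy0 rfl
    have h4 := hsPQ _ (T.mem y hy) hyQ
    show s (T.map y) * _ = _
    rw [map_mul, map_mul, map_pow, map_pow, hval hQ y hy hyD, hval hP y hy hyD, ← h4]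
    ring

theorem Trans.gg {S S' : Sys V I E} {a : E} {c : E → ℕ} (T : Trans S S' a c) {d : E → ℤ}
    (h : GloballyGenerated S' (flp a c d)) : GloballyGenerated S d := by
  obtain ⟨n, s, hs, hs'⟩ := h
  exact ⟨n, fun k x => s k (T.map x), fun k => isSection_comp_map T (hs k), fun x hx => hs' _ (T.mem x hx)⟩

end

end Pool.Agent.MP_cfacaa_ag.K
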