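import Pool.Agent.Lib.MP_cfacaa_ag.K.Mul
import Pool.Agent.Lib.MP_cfacaa_ag.K.TrH

/-! Row cgn-NefT: nef classes and maps. -/

namespace Pool.Agent.MP_cfacaa_ag.K

open MvPolynomial Pool.Agent.MP_cfacaa_ag.G

section

variable {V I E : Type} [Fintype V] [Fintype I] [Fintype E]

/-- Given `m`, let `K = 1 + ∑ j, c j` and apply the hypothesis to `m * K`: `N • (m K d + 1)` is globally generated on `X`, so by `T.gg` (`flp_flp`) `N • (m K d' + flp a c 1)` is globally generated on `X'`, `d' = flp a c d`. Add the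
class `N • (K - flp a c 1) ≥ 0` (`gg_add`, `globallyGenerated_of_nonneg`): `N K • (m d' + 1)`. -/
theorem nef_flp {S S' : Sys V I E} {a : E} {c : E → ℕ} (T : Trans S' S a c) {d : E → ℤ} (h : Nef S d) :
    Nef S' (flp a c d) := by
  classical
  intro m hm
  obtain ⟨K, hK⟩ : ∃ K : ℕ, K = 1 + ∑ j, c j := ⟨_, rfl⟩
  have hK1 : 1 ≤ K := by omega
  have hKc : ∀ j, c j + 1 ≤ K := by
    intro j
    have h1 : c j ≤ ∑ j, c j := Finset.single_le_sum (f := c) (fun _ _ => Nat.zero_le _) (Finset.mem_univ j)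
    omega
  obtain ⟨N, hN, hG⟩ := h (m * K) (Nat.mul_pos hm hK1)
  refine ⟨N * K, Nat.mul_pos hN hK1, ?_⟩
  have h1 : GloballyGenerated S' (flp a c fun i => (N : ℤ) * (((m * K : ℕ) : ℤ) * d i + 1)) :=
    T.gg (by rw [flp_flp]; exact hG)
  have h2 : GloballyGenerated S' (fun j => (N : ℤ) * ((K : ℤ) - flp a c (fun _ => 1) j)) := by
    apply globallyGenerated_of_nonneg
    intro j
    apply mul_nonneg (Int.natCast_nonneg _)
    have h3 := hKc j
    unfold flp
    by_cases hj : j = a
    · rw [if_pos hj]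
      dsimp only
      omega
    · rw [if_neg hj]
      dsimp only
      rw [one_mul]
      omega
  have h3 := gg_add h1 h2
  convert h3 using 1
  funext j
  unfold flp
  by_cases hj : j = a
  · simp only [hj, if_true]
    push_cast
    ring
  · simp only [hj, if_false]
    push_cast
    ring

/-- Otherwise `2 * d a + 1 < 0`. -/
theorem nonneg_of_nef {S : Sys V I E} {a : E} (ha : ∀ δ : E → ℤ, GloballyGenerated S δ → 0 ≤ δ a) {d : E → ℤ}
    (h : Nef S d) : 0 ≤ d a := by
  obtain ⟨N, hN, hG⟩ := h 2 (by norm_num)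
  have h1 := ha _ hG
  by_contra h2
  have h3 : (2 : ℤ) * d a + 1 < 0 := by omega
  have h4 : (0 : ℤ) < N := by exact_mod_cast hN
  have h5 := mul_neg_of_pos_of_neg h4 h3
  push_cast at h1
  exact absurd h1 (not_le.2 h5)

end

end Pool.Agent.MP_cfacaa_ag.K
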