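import Pool.Agent.Lib.MP_cfacaa_ag.K.Desc
import Pool.Agent.Lib.MP_cfacaa_ag.K.NefT
import Pool.Agent.Lib.MP_cfacaa_ag.K.Few
import Pool.Agent.Lib.MP_cfacaa_ag.K.LineN
import Pool.Agent.Lib.MP_cfacaa_ag.K.Inf
import Pool.Agent.Lib.MP_cfacaa_ag.K.CovF
import Pool.Agent.Lib.MP_cfacaa_ag.K.DetE

/-! The main theorem. -/

namespace Pool.Agent.MP_cfacaa_ag.K

open Pool.Agent.MP_cfacaa_ag.G

section

variable {V I E : Type} [Fintype V] [Fintype I] [Fintype E]

theorem gg_of_empty {S : Sys V I E} (h : ∀ x, x ∉ S.cone) (d : E → ℤ) : GloballyGenerated S d :=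
  ⟨0, fun _ _ => 0, fun k => k.elim0, fun x hx => absurd hx (h x)⟩

theorem flp_le {a : E} {c : E → ℕ} {d : E → ℤ} (ha : d a < 0) {j : E} (hj : j ≠ a) : flp a c d j ≤ d j := by
  unfold flp
  rw [if_neg hj]
  have : (0 : ℤ) ≤ c j := Int.natCast_nonneg _
  nlinarith

theorem flp_lt {a : E} {c : E → ℕ} {d : E → ℤ} (ha : d a < 0) {j : E} (hj : j ≠ a) (hc : 1 ≤ c j) :
    flp a c d j < d j := by
  unfold flp
  rw [if_neg hj]
  have : (1 : ℤ) ≤ c j := by exact_mod_cast hc
  nlinarith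

/-- A level function: the distance to a set which meets all connected parts. -/
theorem exists_level (e : V → E → ℕ) (B : E → Prop) (hB : ∀ i, ∃ j ∈ part e i, B j) :
    ∃ lev : E → ℕ, ∀ i, ¬ B i → ∃ v j, e v i ≠ 0 ∧ e v j ≠ 0 ∧ lev j < lev i := by
  classical
  let R : ℕ → E → Prop := fun k => k.rec B fun _ P i => P i ∨ ∃ j, Joined e i j ∧ P j
  have hR : ∀ i j, Relation.ReflTransGen (Joined e) i j → B j → ∃ k, R k i := by
    intro i j h
    induction h using Relation.ReflTransGen.head_induction_on with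
    | refl => exact fun h => ⟨0, h⟩
    | head h _ ih =>
      intro hj
      obtain ⟨k, hk⟩ := ih hj
      exact ⟨k + 1, Or.inr ⟨_, h, hk⟩⟩
  have hex : ∀ i, ∃ k, R k i := by
    intro i
    obtain ⟨j, hj, hBj⟩ := hB i
    exact hR i j (mem_part.1 hj) hBj
  refine ⟨fun i => sInf {k | R k i}, fun i hi => ?_⟩
  have h1 : R (sInf {k | R k i}) i := Nat.sInf_mem (s := {k | R k i}) (hex i)
  rcases h : sInf {k | R k i} with _ | k
  · rw [h] at h1
    exact absurd h1 hi
  · rw [h] at h1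
    rcases h1 with h1 | ⟨j, ⟨v, hv, hv'⟩, h1⟩
    · have h2 : sInf {k | R k i} ≤ k := Nat.sInf_le h1
      omega
    · refine ⟨v, j, hv, hv', ?_⟩
      have h2 : sInf {k | R k j} ≤ k := Nat.sInf_le h1
      show sInf {k | R k j} < sInf {k | R k i}
      omega

theorem one_le_dim (S : Sys V I E) (j : E) : 1 ≤ dim S.fac j := by
  have := S.two j
  unfold dim
  omega

/-- every connected part contains a free factor -/
theorem exists_free {S : Sys V I E} (h : Tame S) (i : E) : ∃ j ∈ part S.e i, Free S j := by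
  classical
  rcases h.parts i with h1 | ⟨hdim, hcol⟩
  · exact h1
  · by_contra hcon
    push Not at hcon
    have hfs : ∀ v, fs S.e v = factors S.e {v} := by
      intro v
      ext j
      rw [mem_fs, mem_fac]
      simp
    have hvs : ∀ j, vs S.e j = eqs S j := fun j => rfl
    obtain ⟨j, hj, hl⟩ := exists_lines (one_le_dim S) i (fun j _ => h.cy j) (fun v hv => (hcol v hv).1) (fun j hj => by
      by_contra hlt
      exact hcon j hj (free_of_few S (by rw [← hvs]; omega)))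
      (fun v hv => by rw [hfs]; exact (hcol v hv).2)
      (fun j hj hjc => (h.rows j (by rw [← hvs]; exact hjc)).resolve_left (hcon j hj)) hdim
    exact hcon j hj (free_of_lines S hl)

theorem gg_of_nef (S₀ : Sys V I E) (h : Tame S₀) (d : E → ℤ) (hd : Nef S₀ d) : GloballyGenerated S₀ d := by
  classical
  obtain ⟨lev, hlev⟩ := exists_level S₀.e (Free S₀) (exists_free h)
  refine descent lev (fun (S : Sys V I E) d => (S.fac = S₀.fac ∧ S.e = S₀.e) ∧ Nef S d)
    (fun S d => GloballyGenerated S d) (fun S d _ h => globallyGenerated_of_nonneg S h) ?_ S₀ d ⟨⟨rfl, rfl⟩, hd⟩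
  rintro S d i ⟨⟨hf, he⟩, hn⟩ hi
  have hcon : (∀ δ, GloballyGenerated S δ → 0 ≤ δ i) → False := fun h => absurd (nonneg_of_nef h hn) (not_le.2 hi)
  by_cases hne : ∃ x, x ∈ S.cone
  swap
  · left
    exact gg_of_empty (not_exists.1 hne) d
  by_cases hfree : Free S₀ i
  · exact (hcon fun δ hδ => nonneg_of_infFibre S (hfree S hf he hne) hδ).elim
  obtain ⟨v, j, hv, hvj, hj⟩ := hlev i hfree
  rw [← he] at hv hvj
  have hji : j ≠ i := fun h => absurd (h ▸ hj) (lt_irrefl _)
  have e1 : eqs S i = eqs S₀ i := by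
    unfold eqs
    rw [he]
  have hfew : dim S.fac i ≤ (eqs S i).card := by
    by_contra hlt
    push Not at hlt
    rw [e1, hf] at hlt
    exact hfree (free_of_few S₀ hlt)
  have hcy : ∑ v, S.e v i = dim S.fac i + 1 := by
    rw [he, hf]
    exact h.cy i
  have hle : (eqs S i).card ≤ dim S.fac i + 1 := by
    have h1 := card_vs_le (h.cy i)
    rw [e1, hf]
    exact h1
  rcases Nat.lt_or_ge (dim S.fac i) (eqs S i).card with hlt | hge
  · have h1 : (eqs S i).card = dim S.fac i + 1 := le_antisymm hle hlt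
    have h2 : ∀ v w, S.e v i ≠ 0 → S.e w i ≠ 0 → S.e v = S.e w := by
      rw [he]
      exact (h.rows i (by rw [← e1, ← hf]; exact h1)).resolve_left hfree
    rcases det_dichotomy S h1 h2 with h3 | ⟨S', c, hf', he', hc, ⟨T⟩, ⟨T'⟩⟩
    · exact (hcon h3).elim
    · exact Or.inr ⟨S', flp i c d, ⟨⟨hf'.trans hf, he'.trans he⟩, nef_flp T' hn⟩, T.gg, fun j hj => flp_le hi hj, j, hj,
        flp_lt hi hji (hc v j hv hvj)⟩
  · rcases cover_dichotomy S (le_antisymm hge hfew) hcy with h3 | ⟨c, hc, ⟨T⟩⟩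
    · exact (hcon h3).elim
    · exact Or.inr ⟨S, flp i c d, ⟨⟨hf, he⟩, nef_flp T hn⟩, T.gg, fun j hj => flp_le hi hj, j, hj,
        flp_lt hi hji (hc v j hv hvj)⟩

end

end Pool.Agent.MP_cfacaa_ag.K
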