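import Pool.Agent.Lib.MP_cfacaa_ag.K.Base
import Pool.Agent.Lib.MP_cfacaa_ag.G.Gen

/-! Row cgn-Mul: products of sections. -/

namespace Pool.Agent.MP_cfacaa_ag.K

open MvPolynomial Pool.Agent.MP_cfacaa_ag.G

section

variable {V I E : Type} [Fintype V] [Fintype I] [Fintype E]

theorem isSection_mul {S : Sys V I E} {d d' : E → ℤ} {s s' : (I → ℂ) → ℂ} (h : IsSection S d s) (h' : IsSection S d' s') :
    IsSection S (fun i => d i + d' i) (fun x => s x * s' x) := by
  intro x hx
  obtain ⟨p, q, P, Q, hP, hQ, hpq, hQ0, hs⟩ := h x hx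
  obtain ⟨p', q', P', Q', hP', hQ', hpq', hQ0', hs'⟩ := h' x hx
  refine ⟨fun i => p i + p' i, fun i => q i + q' i, P * P', Q * Q', hP.mul hP', hQ.mul hQ', fun i => ?_, ?_, ?_⟩
  · have h1 := hpq i
    have h2 := hpq' i
    simp only
    push_cast
    linarith
  · rw [map_mul]
    exact mul_ne_zero hQ0 hQ0'
  · intro y hy hne
    rw [map_mul] at hne
    have h1 := hs y hy (left_ne_zero_of_mul hne)
    have h2 := hs' y hy (right_ne_zero_of_mul hne)
    rw [map_mul, map_mul, ← h1, ← h2]
    ring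

theorem gg_add {S : Sys V I E} {d d' : E → ℤ} (h : GloballyGenerated S d) (h' : GloballyGenerated S d') :
    GloballyGenerated S (fun i => d i + d' i) := by
  obtain ⟨n, s, hs, h0⟩ := h
  obtain ⟨n', s', hs', h0'⟩ := h'
  refine ⟨n * n', fun k x => s (finProdFinEquiv.symm k).1 x * s' (finProdFinEquiv.symm k).2 x,
    fun k => isSection_mul (hs _) (hs' _), fun x hx => ?_⟩
  obtain ⟨k, hk⟩ := h0 x hx
  obtain ⟨k', hk'⟩ := h0' x hx
  refine ⟨finProdFinEquiv (k, k'), ?_⟩
  simp only [Equiv.symm_apply_apply]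
  exact mul_ne_zero hk hk'

theorem nef_of_gg {S : Sys V I E} {d : E → ℤ} (h : GloballyGenerated S d) : Nef S d := by
  classical
  have h1 : ∀ m : ℕ, GloballyGenerated S fun i => (m : ℤ) * d i + 1 := by
    intro m
    induction m with
    | zero =>
      exact globallyGenerated_of_nonneg S fun i => by simp
    | succ m ih =>
      have h2 := gg_add ih h
      have e : (fun i => (m : ℤ) * d i + 1 + d i) = fun i => ((m + 1 : ℕ) : ℤ) * d i + 1 := by
        funext i
        push_cast
        ring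
      rwa [e] at h2
  intro m _
  refine ⟨1, le_rfl, ?_⟩
  have h2 := h1 m
  simpa using h2

end

end Pool.Agent.MP_cfacaa_ag.K
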