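import Pool.Agent.Lib.MP_cfacaa_ag.K.Defs

/-! The numerical lemma: a connected part of dimension at least three contains a factor of small codimension or with lines. -/

set_option linter.unusedSectionVars false

namespace Pool.Agent.MP_cfacaa_ag.K

open Pool.Agent.MP_cfacaa_ag.G Finset

section

variable {V E : Type} [Fintype V] [Fintype E] {e : V → E → ℕ} {n : E → ℕ}

theorem mem_fac {W : Finset V} {j : E} : j ∈ factors e W ↔ ∃ v ∈ W, e v j ≠ 0 := by
  unfold factors
  rw [mem_filter]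
  exact ⟨fun h => h.2, fun h => ⟨mem_univ _, h⟩⟩

open Classical in
/-- the equations which involve the factor -/
noncomputable def vs (e : V → E → ℕ) (j : E) : Finset V := univ.filter fun v => e v j ≠ 0

open Classical in
/-- the factors which are involved in the equation -/
noncomputable def fs (e : V → E → ℕ) (v : V) : Finset E := univ.filter fun j => e v j ≠ 0

theorem mem_vs {v : V} {j : E} : v ∈ vs e j ↔ e v j ≠ 0 := by
  unfold vs
  rw [mem_filter]
  exact ⟨fun h => h.2, fun h => ⟨mem_univ _, h⟩⟩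

theorem mem_fs {v : V} {j : E} : j ∈ fs e v ↔ e v j ≠ 0 := by
  unfold fs
  rw [mem_filter]
  exact ⟨fun h => h.2, fun h => ⟨mem_univ _, h⟩⟩

open Classical in
/-- the weight of a factor -/
noncomputable def hh (e : V → E → ℕ) (n : E → ℕ) (j : E) : ℕ := if (vs e j).card = n j + 1 then 1 else 2

theorem hh_pos (j : E) : 1 ≤ hh e n j := by
  unfold hh
  split_ifs <;> norm_num

theorem hh_two {j : E} (h : (vs e j).card ≠ n j + 1) : hh e n j = 2 := by
  unfold hh
  rw [if_neg h]

open Classical in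
theorem dc (h : E → ℕ) (W : Finset V) :
    ∑ v ∈ W, ∑ j ∈ fs e v, h j = ∑ j ∈ factors e W, h j * (vs e j ∩ W).card := by
  have h1 : ∑ v ∈ W, ∑ j ∈ fs e v, h j = ∑ v ∈ W, ∑ j, (if e v j ≠ 0 then h j else 0) := by
    refine sum_congr rfl fun v _ => ?_
    unfold fs
    rw [sum_filter]
  have h2 : ∀ j, ∑ v ∈ W, (if e v j ≠ 0 then h j else 0) = h j * (vs e j ∩ W).card := by
    intro j
    rw [← sum_filter, sum_const, smul_eq_mul, mul_comm]
    congr 2
    ext v
    rw [mem_filter, mem_inter, mem_vs]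
    exact ⟨fun h => ⟨h.2, h.1⟩, fun h => ⟨h.2, h.1⟩⟩
  rw [h1, sum_comm, sum_congr rfl fun j _ => h2 j]
  symm
  refine sum_subset (subset_univ _) fun j _ hj => ?_
  have : vs e j ∩ W = ∅ := by
    rw [eq_empty_iff_forall_notMem]
    intro v hv
    rw [mem_inter, mem_vs] at hv
    exact hj (mem_fac.2 ⟨v, hv.2, hv.1⟩)
  rw [this, card_empty, mul_zero]

theorem card_add_le {j : E} (h1 : ∑ v, e v j = n j + 1) {v : V} (hv : e v j ≠ 0) :
    (vs e j).card + e v j ≤ n j + 2 := by
  classical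
  have h2 : ∑ w ∈ vs e j, e w j ≤ n j + 1 := by
    rw [← h1]
    exact sum_le_sum_of_subset (subset_univ _)
  rw [← add_sum_erase _ _ (mem_vs.2 hv)] at h2
  have h3 : ((vs e j).erase v).card ≤ ∑ w ∈ (vs e j).erase v, e w j := by
    rw [card_eq_sum_ones]
    exact sum_le_sum fun w hw => Nat.one_le_iff_ne_zero.2 (mem_vs.1 (mem_of_mem_erase hw))
  rw [card_erase_of_mem (mem_vs.2 hv)] at h3
  omega

theorem card_add_add_le {j : E} (h1 : ∑ v, e v j = n j + 1) {v w : V} (hv : e v j ≠ 0) (hw : e w j ≠ 0)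
    (hvw : w ≠ v) : (vs e j).card + e v j + e w j ≤ n j + 3 := by
  classical
  have h2 : ∑ w ∈ vs e j, e w j ≤ n j + 1 := by
    rw [← h1]
    exact sum_le_sum_of_subset (subset_univ _)
  have hw' : w ∈ (vs e j).erase v := mem_erase.2 ⟨hvw, mem_vs.2 hw⟩
  rw [← add_sum_erase _ _ (mem_vs.2 hv), ← add_sum_erase _ _ hw'] at h2
  have h3 : (((vs e j).erase v).erase w).card ≤ ∑ w ∈ ((vs e j).erase v).erase w, e w j := by
    rw [card_eq_sum_ones]
    exact sum_le_sum fun w hw => Nat.one_le_iff_ne_zero.2 (mem_vs.1 (mem_of_mem_erase (mem_of_mem_erase hw)))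
  rw [card_erase_of_mem hw', card_erase_of_mem (mem_vs.2 hv)] at h3
  omega

theorem card_vs_le {j : E} (h1 : ∑ v, e v j = n j + 1) : (vs e j).card ≤ n j + 1 := by
  rcases (vs e j).eq_empty_or_nonempty with h | ⟨v, hv⟩
  · rw [h, card_empty]
    omega
  · have h2 := card_add_le h1 (mem_vs.1 hv)
    have h3 := Nat.one_le_iff_ne_zero.2 (mem_vs.1 hv)
    omega

theorem exists_vs {j : E} (h1 : ∑ v, e v j = n j + 1) : ∃ v, e v j ≠ 0 := by
  by_contra h
  push Not at h
  rw [sum_congr rfl fun v _ => h v, sum_const_zero] at h1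
  omega

theorem hh_le {j : E} (hn : 1 ≤ n j) (h1 : ∑ v, e v j = n j + 1) (W : Finset V) :
    open Classical in hh e n j * (vs e j ∩ W).card ≤ 2 * n j := by
  classical
  have h2 : (vs e j ∩ W).card ≤ (vs e j).card := card_le_card inter_subset_left
  have h3 := card_vs_le h1
  by_cases ht : (vs e j).card = n j + 1
  · have : hh e n j = 1 := by
      unfold hh
      rw [if_pos ht]
    rw [this]
    omega
  · rw [hh_two ht]
    omega

theorem hh_le' {j : E} (h1 : ∑ v, e v j = n j + 1) (W : Finset V) (ht : (vs e j).card ≠ n j + 1) :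
    open Classical in hh e n j * (vs e j ∩ W).card + 2 * (vs e j \ W).card ≤ 2 * n j := by
  classical
  have h2 : (vs e j \ W).card + (vs e j ∩ W).card = (vs e j).card := card_sdiff_add_card_inter _ _
  have h3 := card_vs_le h1
  rw [hh_two ht]
  omega

/-- every equation has weight at least two -/
theorem two_le_wt {v : V} (h1 : ∀ j, e v j ≠ 0 → ∑ v, e v j = n j + 1) (h2 : 2 ≤ ∑ j, e v j) :
    2 ≤ ∑ j ∈ fs e v, hh e n j := by
  classical
  have h3 : ∑ j ∈ fs e v, e v j = ∑ j, e v j := by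
    refine sum_subset (subset_univ _) fun j _ hj => ?_
    by_contra h
    exact hj (mem_fs.2 h)
  have h4 : (fs e v).card ≤ ∑ j ∈ fs e v, hh e n j := by
    rw [card_eq_sum_ones]
    exact sum_le_sum fun j _ => hh_pos j
  by_contra hcon
  push Not at hcon
  have h5 : (fs e v).card ≤ 1 := by omega
  rcases Nat.le_one_iff_eq_zero_or_eq_one.1 h5 with h6 | h6
  · rw [card_eq_zero.1 h6, sum_empty] at h3
    omega
  · obtain ⟨j, hj⟩ := card_eq_one.1 h6
    rw [hj, sum_singleton] at h3 hcon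
    have h8 : e v j ≠ 0 := by omega
    have h9 := card_add_le (h1 j h8) h8
    rw [hh_two (by omega)] at hcon
    omega

/-- the main inequality -/
theorem main_ineq (W : Finset V) (x : V → ℕ) (y : E → ℕ) (hx : ∀ v ∈ W, 2 + x v ≤ ∑ j ∈ fs e v, hh e n j)
    (hy : open Classical in ∀ j ∈ factors e W, hh e n j * (vs e j ∩ W).card + y j ≤ 2 * n j) :
    2 * W.card + ∑ v ∈ W, x v + ∑ j ∈ factors e W, y j ≤ 2 * ∑ j ∈ factors e W, n j := by
  classical
  have h1 : 2 * W.card + ∑ v ∈ W, x v ≤ ∑ v ∈ W, ∑ j ∈ fs e v, hh e n j := by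
    calc 2 * W.card + ∑ v ∈ W, x v = ∑ v ∈ W, (2 + x v) := by
          rw [sum_add_distrib, sum_const, smul_eq_mul, mul_comm]
      _ ≤ _ := sum_le_sum hx
  rw [dc] at h1
  calc 2 * W.card + ∑ v ∈ W, x v + ∑ j ∈ factors e W, y j
      ≤ ∑ j ∈ factors e W, hh e n j * (vs e j ∩ W).card + ∑ j ∈ factors e W, y j := by
        refine Nat.add_le_add_right ?_ _
        convert h1 using 3
    _ = ∑ j ∈ factors e W, (hh e n j * (vs e j ∩ W).card + y j) := by rw [sum_add_distrib]
    _ ≤ ∑ j ∈ factors e W, 2 * n j := sum_le_sum hy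
    _ = _ := by rw [mul_sum]

end

end Pool.Agent.MP_cfacaa_ag.K
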