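import Pool.Agent.Lib.MP_cfacaa_ag.K.Base

/-! Row cgn-RegA: regular functions on projective sets, step 1. -/

namespace Pool.Agent.MP_cfacaa_ag.K

open MvPolynomial

/-- Hilbert's Nullstellensatz (`MvPolynomial.vanishingIdeal_zeroLocus_eq_radical`): `X c` vanishes at all common zeros, so a
power of `X c` is in the ideal; take the maximum of the exponents. -/
theorem exists_pow_mem {κ : Type} [Fintype κ] (B : Set (MvPolynomial κ ℂ))
    (h : ∀ z : κ → ℂ, (∀ p ∈ B, aeval z p = 0) → z = 0) :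
    ∃ M, ∀ c, (X c : MvPolynomial κ ℂ) ^ M ∈ Ideal.span B := by
  have h1 : ∀ c, ∃ M, (X c : MvPolynomial κ ℂ) ^ M ∈ Ideal.span B := by
    intro c
    have h2 : (X c : MvPolynomial κ ℂ) ∈ (Ideal.span B).radical := by
      rw [← vanishingIdeal_zeroLocus_eq_radical (K := ℂ), mem_vanishingIdeal_iff]
      intro z hz
      have hz0 : z = 0 := h z fun p hp => (mem_zeroLocus_iff.1 hz) p (Ideal.subset_span hp)
      rw [aeval_X, hz0]
      rfl
    exact h2
  choose M hM using h1
  refine ⟨∑ c, M c, fun c => ?_⟩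
  exact (Ideal.span B).pow_mem_of_pow_mem (hM c) (Finset.single_le_sum (f := M) (fun i _ => Nat.zero_le _) (Finset.mem_univ c))

/-- A monomial of degree `≥ card κ * M + 1` contains some `X c ^ M`; a homogeneous polynomial is the sum of its monomials. -/
theorem mem_of_isHomogeneous {κ : Type} [Fintype κ] (J : Ideal (MvPolynomial κ ℂ)) {M : ℕ}
    (h : ∀ c, (X c : MvPolynomial κ ℂ) ^ M ∈ J) {m : MvPolynomial κ ℂ} (hm : m.IsHomogeneous (Fintype.card κ * M + 1)) :
    m ∈ J := by
  classical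
  rw [m.as_sum]
  refine Ideal.sum_mem J fun d hd => ?_
  have hdeg : d.degree = Fintype.card κ * M + 1 := by
    have h3 : Finsupp.weight 1 d = Fintype.card κ * M + 1 := hm (mem_support_iff.1 hd)
    rw [Finsupp.degree_eq_weight_one]
    exact h3
  have hsum : ∑ _c : κ, M < ∑ c : κ, d c := by
    have e1 : ∑ _c : κ, M = Fintype.card κ * M := by simp
    have e2 : d.degree = ∑ c, d c := Finsupp.degree_eq_sum d
    rw [e1, ← e2, hdeg]
    exact Nat.lt_succ_self _
  obtain ⟨c, -, hc⟩ := Finset.exists_lt_of_sum_lt hsum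
  have hdvd : (X c : MvPolynomial κ ℂ) ^ M ∣ monomial d (coeff d m) := by
    rw [X_pow_eq_monomial, monomial_dvd_monomial]
    exact ⟨Or.inr (Finsupp.single_le_iff.2 hc.le), one_dvd _⟩
  exact Ideal.mem_of_dvd J hdvd (h c)

end Pool.Agent.MP_cfacaa_ag.K
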