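import Pool.Agent.Lib.MP_cfacaa_ag.K.RegA

/-! Row cgn-RegB: regular functions on projective sets, step 2. -/

namespace Pool.Agent.MP_cfacaa_ag.K

open MvPolynomial

private theorem RegB_aeval_smul {κ : Type} {p : MvPolynomial κ ℂ} {n : ℕ} (hp : p.IsHomogeneous n)
    (lam : ℂ) (z : κ → ℂ) : aeval (lam • z) p = lam ^ n * aeval z p := by
  rw [aeval_def, aeval_def, eval₂_eq, eval₂_eq, Finset.mul_sum]
  refine Finset.sum_congr rfl fun d hd => ?_
  have h1 : ∏ i ∈ d.support, (lam • z) i ^ d i = lam ^ n * ∏ i ∈ d.support, z i ^ d i := by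
    have h2 : (∏ i ∈ d.support, lam ^ d i) = lam ^ n := by
      rw [Finset.prod_pow_eq_pow_sum]
      congr 1
      have h3 := hp (mem_support_iff.1 hd)
      rw [← h3, Finsupp.weight_apply, Finsupp.sum]
      refine Finset.sum_congr rfl fun i _ => ?_
      simp
    rw [← h2, ← Finset.prod_mul_distrib]
    refine Finset.prod_congr rfl fun i _ => ?_
    rw [Pi.smul_apply, smul_eq_mul, mul_pow]
  rw [h1]
  ring

private theorem RegB_smul_mem {κ : Type} {A : Set (MvPolynomial κ ℂ)} (hA : ∀ p ∈ A, ∃ n, p.IsHomogeneous n)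
    {z : κ → ℂ} (hz : z ∈ Zs A) {lam : ℂ} (hl : lam ≠ 0) : lam • z ∈ Zs A := by
  refine ⟨smul_ne_zero hl hz.1, fun p hp => ?_⟩
  obtain ⟨n, hn⟩ := hA p hp
  rw [RegB_aeval_smul hn, hz.2 p hp, mul_zero]

private theorem RegB_inv {κ : Type} {A : Set (MvPolynomial κ ℂ)} (hA : ∀ p ∈ A, ∃ n, p.IsHomogeneous n)
    {f : (κ → ℂ) → ℂ} (hf : LocFrac A 0 f) {z : κ → ℂ} (hz : z ∈ Zs A) {lam : ℂ} (hl : lam ≠ 0) :
    f (lam • z) = f z := by
  obtain ⟨p, P, Q, hP, hQ, hQz, h⟩ := hf z hz
  rw [add_zero] at hQ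
  have h1 := h z hz hQz
  have h2 : aeval (lam • z) Q ≠ 0 := by
    rw [RegB_aeval_smul hQ]
    exact mul_ne_zero (pow_ne_zero _ hl) hQz
  have h3 := h (lam • z) (RegB_smul_mem hA hz hl) h2
  rw [RegB_aeval_smul hQ, RegB_aeval_smul hP, ← h1] at h3
  have h4 : (f (lam • z) - f z) * (lam ^ p * aeval z Q) = 0 := by linear_combination h3
  rcases mul_eq_zero.1 h4 with h5 | h5
  · exact sub_eq_zero.1 h5
  · exact absurd h5 (mul_ne_zero (pow_ne_zero _ hl) hQz)

/-- The ideal of the polynomials whose product with `f` is a polynomial. -/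
private def RegB_J {κ : Type} (A : Set (MvPolynomial κ ℂ)) (f : (κ → ℂ) → ℂ) : Ideal (MvPolynomial κ ℂ) where
  carrier := {m | ∃ m' : MvPolynomial κ ℂ, ∀ z ∈ Zs A, f z * aeval z m = aeval z m'}
  zero_mem' := ⟨0, fun z _ => by simp⟩
  add_mem' := by
    rintro a b ⟨a', ha⟩ ⟨b', hb⟩
    refine ⟨a' + b', fun z hz => ?_⟩
    rw [map_add, map_add, mul_add, ha z hz, hb z hz]
  smul_mem' := by
    rintro c a ⟨a', ha⟩
    refine ⟨c * a', fun z hz => ?_⟩
    rw [smul_eq_mul, map_mul, map_mul, ← ha z hz]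
    ring

private theorem RegB_mem_J {κ : Type} {A : Set (MvPolynomial κ ℂ)} {f : (κ → ℂ) → ℂ} {m : MvPolynomial κ ℂ} :
    m ∈ RegB_J A f ↔ ∃ m' : MvPolynomial κ ℂ, ∀ z ∈ Zs A, f z * aeval z m = aeval z m' := Iff.rfl

private theorem RegB_comp {κ : Type} {A : Set (MvPolynomial κ ℂ)} (hA : ∀ p ∈ A, ∃ n, p.IsHomogeneous n)
    {f : (κ → ℂ) → ℂ} (hf : LocFrac A 0 f) {m m' : MvPolynomial κ ℂ} {N : ℕ} (hm : m.IsHomogeneous N)
    (h : ∀ z ∈ Zs A, f z * aeval z m = aeval z m') {z : κ → ℂ} (hz : z ∈ Zs A) :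
    f z * aeval z m = aeval z (homogeneousComponent N m') := by
  have key : (Polynomial.C (f z * aeval z m) * Polynomial.X ^ N : Polynomial ℂ) =
      ∑ i ∈ Finset.range (m'.totalDegree + 1),
        Polynomial.C (aeval z (homogeneousComponent i m')) * Polynomial.X ^ i := by
    refine Polynomial.eq_of_infinite_eval_eq _ _ ?_
    refine Set.Infinite.mono (s := {lam : ℂ | lam ≠ 0}) ?_ ?_
    · intro lam hl
      have hl' : lam ≠ 0 := hl
      have h1 := h (lam • z) (RegB_smul_mem hA hz hl')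
      rw [RegB_inv hA hf hz hl', RegB_aeval_smul hm] at h1
      have h2 : aeval (lam • z) m' = ∑ i ∈ Finset.range (m'.totalDegree + 1),
          lam ^ i * aeval z (homogeneousComponent i m') := by
        conv_lhs => rw [← sum_homogeneousComponent m']
        rw [map_sum]
        exact Finset.sum_congr rfl fun i _ => RegB_aeval_smul (homogeneousComponent_isHomogeneous i m') lam z
      rw [h2] at h1
      rw [Set.mem_ofPred_eq, Polynomial.eval_finsetSum]
      simp only [Polynomial.eval_mul, Polynomial.eval_C, Polynomial.eval_pow, Polynomial.eval_X]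
      calc f z * aeval z m * lam ^ N = f z * (lam ^ N * aeval z m) := by ring
        _ = _ := h1
        _ = _ := Finset.sum_congr rfl fun i _ => by ring
    · exact Set.infinite_of_finite_compl (by
        have : {lam : ℂ | lam ≠ 0}ᶜ = {0} := by
          ext x
          simp
        rw [this]
        exact Set.finite_singleton 0)
  have h1 := congrArg (fun q => Polynomial.coeff q N) key
  simp only [Polynomial.finsetSum_coeff, Polynomial.coeff_C_mul, Polynomial.coeff_X_pow, if_true, mul_one,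
    mul_ite, mul_zero] at h1
  rw [h1, Finset.sum_ite_eq]
  split_ifs with h2
  · rfl
  · rw [homogeneousComponent_eq_zero, map_zero]
    rw [Finset.mem_range] at h2
    omega

/-- Let `J` be the ideal of the polynomials `m` such that for some polynomial `m'` we have `f z * aeval z m = aeval z m'` for all `z ∈ Zs A`. It contains `A` (`m' = 0`) and, for the
local fractions `(P, Q)` of `f` (`f y * aeval y Q = aeval y P` for all `y ∈ Zs A` with `aeval y Q ≠ 0`), `Q ^ 2` (`m' = P * Q`, also where `Q` vanishes). These have no common zero except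
`0`. So `exists_pow_mem`, `mem_of_isHomogeneous` give `N = card κ * M + 1` such that every `m` of degree `N` is in `J`. If `m` is homogeneous of
degree `N` and `f * m = m'` on `Zs A`, then for `z ∈ Zs A` and `lam ≠ 0` also `lam • z ∈ Zs A` and `f (lam • z) = f z`, so
`lam ^ N * (f z * aeval z m) = ∑ i, lam ^ i * aeval z (homogeneousComponent i m')`; both sides are polynomials in `lam`; so
`f z * aeval z m = aeval z (homogeneousComponent N m')`. -/
theorem exists_mul {κ : Type} [Fintype κ] (A : Set (MvPolynomial κ ℂ)) (hA : ∀ p ∈ A, ∃ n, p.IsHomogeneous n)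
    {f : (κ → ℂ) → ℂ} (hf : LocFrac A 0 f) :
    ∃ N, ∀ m : MvPolynomial κ ℂ, m.IsHomogeneous N →
      ∃ m' : MvPolynomial κ ℂ, m'.IsHomogeneous N ∧ ∀ z ∈ Zs A, f z * aeval z m = aeval z m' := by
  set B : Set (MvPolynomial κ ℂ) := A ∪ {q | ∃ P Q : MvPolynomial κ ℂ, q = Q ^ 2 ∧
    ∀ y ∈ Zs A, aeval y Q ≠ 0 → f y * aeval y Q = aeval y P} with hB
  have h0 : ∀ z : κ → ℂ, (∀ p ∈ B, aeval z p = 0) → z = 0 := by
    intro z hz
    by_contra hne
    have hzA : z ∈ Zs A := ⟨hne, fun p hp => hz p (Or.inl hp)⟩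
    obtain ⟨p, P, Q, -, -, hQz, h⟩ := hf z hzA
    have h1 := hz (Q ^ 2) (Or.inr ⟨P, Q, rfl, h⟩)
    rw [map_pow] at h1
    exact hQz (pow_eq_zero_iff (two_ne_zero) |>.1 h1)
  obtain ⟨M, hM⟩ := exists_pow_mem B h0
  have hBJ : Ideal.span B ≤ RegB_J A f := by
    rw [Ideal.span_le]
    rintro q (hq | ⟨P, Q, rfl, h⟩)
    · exact ⟨0, fun z hz => by rw [hz.2 q hq, map_zero, mul_zero]⟩
    · refine ⟨P * Q, fun z hz => ?_⟩
      rw [map_pow, map_mul]
      by_cases hQ : aeval z Q = 0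
      · rw [hQ]
        ring
      · rw [← h z hz hQ]
        ring
  refine ⟨Fintype.card κ * M + 1, fun m hm => ?_⟩
  obtain ⟨m', hm'⟩ := RegB_mem_J.1 (mem_of_isHomogeneous (RegB_J A f) (fun c => hBJ (hM c)) hm)
  exact ⟨homogeneousComponent (Fintype.card κ * M + 1) m', homogeneousComponent_isHomogeneous _ _,
    fun z hz => RegB_comp hA hf hm hm' hz⟩

end Pool.Agent.MP_cfacaa_ag.K
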