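import Pool.Agent.Lib.MP_cfacaa_ag.K.RegB

/-! Row cgn-RegC: regular functions on projective sets, step 3. -/

namespace Pool.Agent.MP_cfacaa_ag.K

open MvPolynomial

/-- A regular function on a projective set has finitely many values. `N` from `exists_mul`; let `W` be the (finite-dimensional) space of the functions on `Zs A` given by homogeneous polynomials of degree
`N` (the image of `homogeneousSubmodule κ ℂ N`, which is finite-dimensional, under a linear map to `Zs A → ℂ`). Multiplication by `f` maps `W` to `W`; let `T` be this endomorphism of `W`. For `z ∈ Zs A` choose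
`c` with `z c ≠ 0`; the function `g = X c ^ N` of `W` is not zero at `z`, and all functions in the range of `T - f z` vanish at `z`; so `T - f z` is not surjective, so not
injective, and `f z` is an eigenvalue of `T`. There are finitely many eigenvalues (`Module.End.finite_hasEigenvalue` or `Module.End.finite_spectrum`). -/
theorem finite_values {κ : Type} [Fintype κ] (A : Set (MvPolynomial κ ℂ)) (hA : ∀ p ∈ A, ∃ n, p.IsHomogeneous n)
    {f : (κ → ℂ) → ℂ} (hf : LocFrac A 0 f) : ∃ Λ : Finset ℂ, ∀ z ∈ Zs A, f z ∈ Λ := by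
  obtain ⟨N, hN⟩ := exists_mul A hA hf
  let φ : MvPolynomial κ ℂ →ₗ[ℂ] (Zs A → ℂ) :=
    LinearMap.pi fun z => (aeval (z : κ → ℂ) : MvPolynomial κ ℂ →ₐ[ℂ] ℂ).toLinearMap
  let W : Submodule ℂ (Zs A → ℂ) := (homogeneousSubmodule κ ℂ N).map φ
  have hWf : Module.Finite ℂ W := Module.Finite.iff_fg.2 ((homogeneousSubmodule_fg κ ℂ N).map φ)
  let μ : (Zs A → ℂ) →ₗ[ℂ] (Zs A → ℂ) := LinearMap.mulLeft ℂ (fun z : Zs A => f z)
  have hμ : ∀ w ∈ W, μ w ∈ W := by
    rintro w ⟨m, hm, rfl⟩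
    obtain ⟨m', hm', h⟩ := hN m hm
    exact ⟨m', hm', by funext z; exact (h z z.2).symm⟩
  let T : Module.End ℂ W := μ.restrict hμ
  have hfin := Module.End.finite_spectrum T
  refine ⟨hfin.toFinset, fun z hz => ?_⟩
  rw [Set.Finite.mem_toFinset, spectrum.mem_iff]
  intro hu
  obtain ⟨c, hc⟩ := Function.ne_iff.1 hz.1
  let g : W := ⟨φ (X c ^ N), ⟨X c ^ N, isHomogeneous_X_pow c N, rfl⟩⟩
  obtain ⟨w, hw⟩ := ((Module.End.isUnit_iff _).1 hu).2 g
  have h1 := congrFun (congrArg Subtype.val hw) ⟨z, hz⟩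
  have h2 : (g : Zs A → ℂ) ⟨z, hz⟩ = z c ^ N := by
    change aeval z (X c ^ N : MvPolynomial κ ℂ) = z c ^ N
    rw [map_pow, aeval_X]
  have h3 : (((algebraMap ℂ (Module.End ℂ W) (f z) - T) w : W) : Zs A → ℂ) ⟨z, hz⟩ = 0 := by
    change f z * (w : Zs A → ℂ) ⟨z, hz⟩ - f z * (w : Zs A → ℂ) ⟨z, hz⟩ = 0
    exact sub_self _
  rw [h2] at h1
  have h4 : z c ^ N = 0 := by
    rw [← h1]
    exact h3
  exact pow_ne_zero N hc h4

end Pool.Agent.MP_cfacaa_ag.K
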