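import Pool.Agent.Lib.MP_cfacaa_ag.K.RegC

/-! Row cgn-RegD: negative degrees. -/

namespace Pool.Agent.MP_cfacaa_ag.K

open MvPolynomial

/-- A finite set of nonzero vectors is avoided by a linear form. (For instance the product over `w ∈ W` of the polynomials `∑ c, C (w c) * X c` is not
zero, so it has a nonzero value.) -/
theorem exists_form {κ : Type} [Fintype κ] (W : Finset (κ → ℂ)) (hW : (0 : κ → ℂ) ∉ W) :
    ∃ l : κ → ℂ, ∀ w ∈ W, ∑ c, l c * w c ≠ 0 := by
  classical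
  set P : MvPolynomial κ ℂ := ∏ w ∈ W, ∑ c, C (w c) * X c with hP
  have hne : P ≠ 0 := by
    rw [hP]
    refine Finset.prod_ne_zero_iff.2 fun w hw h => ?_
    obtain ⟨c, hc⟩ : ∃ c, w c ≠ 0 := by
      by_contra hcon
      push Not at hcon
      have h0 : w = 0 := funext hcon
      rw [h0] at hw
      exact hW hw
    have h1 := congrArg (eval (Pi.single c (1 : ℂ))) h
    rw [map_sum, map_zero, Finset.sum_eq_single c] at h1
    · rw [map_mul, eval_C, eval_X, Pi.single_eq_same, mul_one] at h1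
      exact hc h1
    · intro b _ hb
      rw [map_mul, eval_C, eval_X, Pi.single_eq_of_ne hb, mul_zero]
    · intro hcon
      exact absurd (Finset.mem_univ c) hcon
  obtain ⟨l, hl⟩ : ∃ l : κ → ℂ, eval l P ≠ 0 := by
    by_contra hcon
    push Not at hcon
    exact hne (MvPolynomial.funext fun x => by rw [hcon x, map_zero])
  refine ⟨l, fun w hw h => ?_⟩
  rw [hP, map_prod] at hl
  refine (Finset.prod_ne_zero_iff.1 hl) w hw ?_
  rw [map_sum, ← h]
  refine Finset.sum_congr rfl fun c _ => ?_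
  rw [map_mul, eval_C, eval_X, mul_comm]

/-- A projective set on which functions of degree `-k < 0` have no common zero is finite. For `i : Fin n` and `c : κ` the function `z ↦ z c ^ k * s i z` satisfies `LocFrac A 0` (fractions `X c ^ k * P / Q`), so by
`finite_values` it has values in a finite set; let `Λ` be the union of these sets. Let `Λ'` be the finite set of all `w : ℂ` with
`w ^ k * lam = mu` for some `lam ≠ 0` in `Λ` and `mu ∈ Λ`, and `W` the set of the nonzero vectors with all coordinates in `Λ'`; `l` from `exists_form`. For `z ∈ Zs A`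
choose `i` with `s i z ≠ 0` and `c₀` with `z c₀ ≠ 0`; then `w = (z c₀)⁻¹ • z` has coordinates in `Λ'` (`lam = z c₀ ^ k * s i z`,
`mu = z c ^ k * s i z`). -/
theorem exists_hyperplane {κ : Type} [Fintype κ] (A : Set (MvPolynomial κ ℂ)) (hA : ∀ p ∈ A, ∃ n, p.IsHomogeneous n)
    {k : ℕ} (hk : 1 ≤ k) {n : ℕ} (s : Fin n → (κ → ℂ) → ℂ) (hs : ∀ i, LocFrac A k (s i))
    (h0 : ∀ z ∈ Zs A, ∃ i, s i z ≠ 0) : ∃ l : κ → ℂ, ∀ z ∈ Zs A, ∑ c, l c * z c ≠ 0 := by
  classical
  have hloc : ∀ (i : Fin n) (c : κ), LocFrac A 0 (fun z => z c ^ k * s i z) := by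
    intro i c z hz
    obtain ⟨p, P, Q, hP, hQ, hQz, hy⟩ := hs i z hz
    refine ⟨p + k, X c ^ k * P, Q, ?_, ?_, hQz, fun y hyA hyQ => ?_⟩
    · have h1 := ((isHomogeneous_X ℂ c).pow k).mul hP
      rw [one_mul, add_comm] at h1
      exact h1
    · rw [add_zero]
      exact hQ
    · rw [map_mul, map_pow, aeval_X, ← hy y hyA hyQ]
      ring
  have hfin : ∀ (i : Fin n) (c : κ), ∃ Λ : Finset ℂ, ∀ z ∈ Zs A, z c ^ k * s i z ∈ Λ :=
    fun i c => finite_values A hA (hloc i c)
  choose Λ hΛ using hfin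
  let Λ' : Finset ℂ := Finset.univ.biUnion fun i : Fin n => Finset.univ.biUnion fun c : κ =>
    Finset.univ.biUnion fun c' : κ => (Λ i c).biUnion fun lam => (Λ i c').biUnion fun mu =>
      (Polynomial.nthRoots k (mu / lam)).toFinset
  have hΛ' : ∀ (w : ℂ) (i : Fin n) (c c' : κ) (lam mu : ℂ), lam ∈ Λ i c → mu ∈ Λ i c' →
      w ^ k = mu / lam → w ∈ Λ' := by
    intro w i c c' lam mu h1 h2 h3
    refine Finset.mem_biUnion.2 ⟨i, Finset.mem_univ _, Finset.mem_biUnion.2 ⟨c, Finset.mem_univ _,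
      Finset.mem_biUnion.2 ⟨c', Finset.mem_univ _, Finset.mem_biUnion.2 ⟨lam, h1,
      Finset.mem_biUnion.2 ⟨mu, h2, ?_⟩⟩⟩⟩⟩
    rw [Multiset.mem_toFinset, Polynomial.mem_nthRoots (by omega)]
    exact h3
  obtain ⟨l, hl⟩ := exists_form ((Fintype.piFinset fun _ : κ => Λ').filter fun w => w ≠ 0)
    (by simp)
  refine ⟨l, fun z hz => ?_⟩
  obtain ⟨i, hi⟩ := h0 z hz
  obtain ⟨c₀, hc₀⟩ := Function.ne_iff.1 hz.1
  have hc₀' : z c₀ ≠ 0 := hc₀
  have hlam : z c₀ ^ k * s i z ≠ 0 := mul_ne_zero (pow_ne_zero _ hc₀') hi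
  have hw : (fun c => z c / z c₀) ∈ (Fintype.piFinset fun _ : κ => Λ').filter fun w => w ≠ 0 := by
    rw [Finset.mem_filter, Fintype.mem_piFinset]
    refine ⟨fun c => ?_, fun h => ?_⟩
    · refine hΛ' _ i c₀ c _ _ (hΛ i c₀ z hz) (hΛ i c z hz) ?_
      rw [div_pow, div_eq_div_iff (pow_ne_zero _ hc₀') hlam]
      ring
    · have h1 := congrFun h c₀
      simp only [Pi.zero_apply, div_self hc₀'] at h1
      exact one_ne_zero h1
  have h2 := hl _ hw
  intro h3
  apply h2
  have h4 : ∑ c, l c * (z c / z c₀) = (∑ c, l c * z c) / z c₀ := by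
    rw [Finset.sum_div]
    exact Finset.sum_congr rfl fun c _ => by ring
  rw [h4, h3, zero_div]

end Pool.Agent.MP_cfacaa_ag.K
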