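import Pool.Agent.Lib.MP_cfacaa_ag.K.Base
import Pool.Agent.Lib.MP_cfacaa_ag.G.Sec

/-! Row cgn-TrG: substitution. -/

namespace Pool.Agent.MP_cfacaa_ag.K

open MvPolynomial Pool.Agent.MP_cfacaa_ag.G

section

variable {V I E : Type} [Fintype V] [Fintype I] [Fintype E]

/-- The multidegree of `P` after the substitution of the polynomials `φ k` of multidegree `p` for the coordinates `k` of the factor `a`: `IsMH.subst`. (See `sec_mh`, `sec_sum` in
`Pool/Agent/Lib/MP_cfacaa_ag/G/Sec.lean`.) -/
theorem isMH_glue {fac : I → E} {a : E} {p m : E → ℕ} {φ : I → MvPolynomial I ℂ} (hφ : ∀ k, fac k = a → IsMH fac p (φ k))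
    {P : MvPolynomial I ℂ} (hP : IsMH fac m P) :
    IsMH fac (fun j => m a * p j + up a 0 m j) (aeval (glue fac a (fun k => (X k : MvPolynomial I ℂ)) (fun k => φ k.1)) P) := by
  classical
  have h := IsMH.subst hP fac (glue fac a (fun k => (X k : MvPolynomial I ℂ)) (fun k => φ k.1))
    (fun i => if i = a then p else Pi.single i 1) (fun k => by
      by_cases hk : fac k = a
      · rw [if_pos hk, glue_of_eq _ _ hk]
        exact hφ k hk
      · rw [if_neg hk, glue_of_ne _ _ hk]
        exact isMH_X fac k)
  have e : (fun k => ∑ i, m i * (if i = a then p else Pi.single i 1 : E → ℕ) k) =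
      fun j => m a * p j + up a 0 m j := by
    funext k
    rw [sec_sum]
    unfold up
    congr
  rw [e] at h
  exact h

/-- If `x' k * t = φ k` for the coordinates of the factor `a`, the value is `t ^ m a` times that at `x'` (`aeval_smul_all` with `lam a = t`, `lam j = 1` for `j ≠ a`). -/
theorem aeval_glue {fac : I → E} {a : E} {m : E → ℕ} {φ : I → MvPolynomial I ℂ} {P : MvPolynomial I ℂ} (hP : IsMH fac m P)
    {y y' : I → ℂ} {t : ℂ} (h1 : ∀ k, fac k ≠ a → y' k = y k) (h2 : ∀ k, fac k = a → y' k * t = aeval y (φ k)) :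
    aeval y (aeval (glue fac a (fun k => (X k : MvPolynomial I ℂ)) (fun k => φ k.1)) P) = t ^ m a * aeval y' P := by
  classical
  have h := aeval_smul_all hP y' (fun i => if i = a then t else 1)
  have e1 : (fun k => aeval y (glue fac a (fun k => (X k : MvPolynomial I ℂ)) (fun k => φ k.1) k)) =
      fun k => (if fac k = a then t else 1) * y' k := by
    funext k
    by_cases hk : fac k = a
    · rw [if_pos hk, glue_of_eq _ _ hk, mul_comm t (y' k), h2 k hk]
    · rw [if_neg hk, glue_of_ne _ _ hk, one_mul, h1 k hk, aeval_X]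
  have e2 : (∏ i, (if i = a then t else 1) ^ m i) = t ^ m a := by
    rw [Finset.prod_eq_single a]
    · rw [if_pos rfl]
    · intro i _ hi
      rw [if_neg hi, one_pow]
    · intro h
      exact absurd (Finset.mem_univ a) h
  rw [sec_comp, e1, h, e2]

end

end Pool.Agent.MP_cfacaa_ag.K
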