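import Pool.Agent.Lib.MP_cfacaa_ag.K.Main

/-! The Calabi–Yau systems of `CompleteIntersections` are tame. -/

namespace Pool.Agent.MP_cfacaa_ag.K

open Pool.Agent.MP_cfacaa_ag.G

section

variable {V I E : Type} [Fintype V] [Fintype I] [Fintype E]

theorem lines_of_wide {S : Sys V I E} (hS : S.Wide) (hcy : ∀ i, ∑ v, S.e v i = dim S.fac i + 1) {i : E}
    (hi : 2 ≤ (vs S.e i).card) : Lines S.e (dim S.fac) i := by
  classical
  refine ⟨fun W _ => ?_, fun W _ hW => ?_⟩
  · rcases W.eq_empty_or_nonempty with rfl | h
    · simp
    · have := hS.two_le W h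
      omega
  · obtain ⟨v, hv, hvi⟩ := mem_fac.1 hW
    have h1 := hS.two_le W ⟨v, hv⟩
    have h2 := sum_le_dim (hcy i) W
    have hc : (coords S.fac i).card = dim S.fac i + 1 := by
      have := S.two i
      unfold dim
      omega
    refine ⟨by omega, ?_⟩
    by_cases h3 : ∑ w ∈ W, S.e w i ≤ dim S.fac i
    · omega
    · have h4 : ∑ w ∈ W, S.e w i = dim S.fac i + 1 := by omega
      have h5 : 2 ≤ W.card := by
        by_contra hlt
        have h6 : W = {v} := by
          have h7 : W.card ≤ 1 := by omega
          refine Finset.eq_singleton_iff_unique_mem.2 ⟨hv, fun w hw => Finset.card_le_one.1 h7 w hw v hv⟩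
        rw [h6, Finset.sum_singleton] at h4
        have h7 := card_add_le (hcy i) hvi
        omega
      have h6 := hS.three_le W h5 ⟨i, hW, h4.trans hc.symm⟩
      omega

/-- Systems as in `CompleteIntersections` which satisfy the Calabi–Yau condition are tame. -/
theorem tame_of_wide {S : Sys V I E} (hS : S.Wide) (hcy : ∀ i, ∑ v, S.e v i = dim S.fac i + 1) : Tame S := by
  classical
  have hvs : ∀ j, vs S.e j = eqs S j := fun j => rfl
  refine ⟨hcy, fun i hi => Or.inl ?_, fun i => ?_⟩
  · refine free_of_lines S (lines_of_wide hS hcy ?_)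
    rw [hvs, hi]
    have := one_le_dim S i
    omega
  · by_cases hex : ∃ j ∈ part S.e i, 2 ≤ (vs S.e j).card
    · obtain ⟨j, hj, hj2⟩ := hex
      exact Or.inl ⟨j, hj, free_of_lines S (lines_of_wide hS hcy hj2)⟩
    · push Not at hex
      right
      obtain ⟨u, hu⟩ := exists_vs (hcy i)
      have hone : ∀ j ∈ part S.e i, ∀ v w, S.e v j ≠ 0 → S.e w j ≠ 0 → v = w := by
        intro j hj v w hv hw
        have h1 := hex j hj
        exact Finset.card_le_one.1 (by omega) v (mem_vs.2 hv) w (mem_vs.2 hw)
      have hC : ∀ j, Relation.ReflTransGen (Joined S.e) i j → S.e u j ≠ 0 := by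
        intro j hj
        induction hj with
        | refl => exact hu
        | tail hb h ih =>
          obtain ⟨v, hv, hv'⟩ := h
          rw [hone _ (mem_part.2 hb) v u hv ih] at hv'
          exact hv'
      have hE : eqsOf S.e (part S.e i) = {u} := by
        ext v
        rw [mem_eqsOf, Finset.mem_singleton]
        constructor
        · rintro ⟨j, hj, hvj⟩
          exact hone j hj v u hvj (hC j (mem_part.1 hj))
        · rintro rfl
          exact ⟨i, self_mem_part i, hu⟩
      have hF : factors S.e {u} = part S.e i := by
        ext j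
        rw [mem_fac, mem_part]
        constructor
        · rintro ⟨v, hv, hvj⟩
          rw [Finset.mem_singleton] at hv
          subst hv
          exact Relation.ReflTransGen.single ⟨v, hu, hvj⟩
        · intro hj
          exact ⟨u, Finset.mem_singleton_self u, hC j hj⟩
      have hfull : ∀ j, S.e u j ≠ 0 → S.e u j = dim S.fac j + 1 := by
        intro j hj
        have hjp : j ∈ part S.e i := by
          rw [← hF, mem_fac]
          exact ⟨u, Finset.mem_singleton_self u, hj⟩
        rw [← hcy j]
        symm
        refine Finset.sum_eq_single u (fun v _ hv => ?_) (fun h => absurd (Finset.mem_univ u) h)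
        by_contra hvj
        exact hv (hone j hjp v u hvj hj)
      have h1 := hS.two_le {u} (Finset.singleton_nonempty u)
      rw [Finset.card_singleton] at h1
      have h2 : ∑ j ∈ factors S.e {u}, dim S.fac j ≠ 3 := by
        intro h3
        obtain ⟨j, hj, hlt⟩ := hS.linked u h3
        rw [hfull j hj] at hlt
        unfold dim at hlt
        have := S.two j
        omega
      rw [hE, ← hF, Finset.card_singleton]
      refine ⟨by omega, fun v hv => ?_⟩
      rw [Finset.mem_singleton] at hv
      subst hv
      refine ⟨?_, by omega⟩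
      have h3 := hfull i hu
      have h4 := one_le_dim S i
      have h5 : S.e v i ≤ ∑ j, S.e v j := Finset.single_le_sum (f := fun j => S.e v j) (fun _ _ => Nat.zero_le _) (Finset.mem_univ i)
      omega

end

end Pool.Agent.MP_cfacaa_ag.K
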